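import Mathlib

/-!
# Divisibility of representation numbers by factorials
-/

set_option autoImplicit false

open Finset Polynomial

namespace Pool.Agent.H726R3.FactDvd

/-- `rr f d m`: the sum of `f i₁ ⋯ f i_d` over all `i₁ + ⋯ + i_d = m` -/
def rr (f : ℕ → ℕ) : ℕ → ℕ → ℕ
  | 0, m => if m = 0 then 1 else 0
  | (d + 1), m => ∑ p ∈ antidiagonal m, f p.1 * rr f d p.2

/-- the generating polynomial -/
noncomputable def F (f : ℕ → ℕ) (M : ℕ) : ℕ[X] := ∑ i ∈ range M, C (f i) * X ^ i

lemma F_coeff (f : ℕ → ℕ) (M i : ℕ) (hi : i < M) : (F f M).coeff i = f i := by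
  unfold F
  rw [finsetSum_coeff]
  simp only [coeff_C_mul, coeff_X_pow, mul_ite, mul_one, mul_zero]
  rw [sum_ite_eq]
  rw [if_pos (mem_range.mpr hi)]

lemma rr_coeff (f : ℕ → ℕ) (M : ℕ) : ∀ d m : ℕ, m < M → (F f M ^ d).coeff m = rr f d m := by
  intro d
  induction d with
  | zero =>
    intro m _
    rw [pow_zero, coeff_one]
    rfl
  | succ d ih =>
    intro m hm
    rw [pow_succ', coeff_mul]
    show _ = ∑ p ∈ antidiagonal m, f p.1 * rr f d p.2
    refine sum_congr rfl fun p hp => ?_
    have h := mem_antidiagonal.mp hp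
    rw [F_coeff f M p.1 (by omega), ih p.2 (by omega)]

lemma rr_sum (f : ℕ → ℕ) (M d m : ℕ) (hm : m < M) :
    rr f d m = ∑ k ∈ piAntidiag (range M) d,
      if m = ∑ i ∈ range M, i * k i then
        Nat.multinomial (range M) k * ∏ i ∈ range M, f i ^ k i else 0 := by
  rw [← rr_coeff f M d m hm]
  unfold F
  rw [sum_pow_eq_sum_piAntidiag, finsetSum_coeff]
  refine sum_congr rfl fun k _ => ?_
  have h1 : ∏ i ∈ range M, (C (f i) * X ^ i : ℕ[X]) ^ k i =
      C (∏ i ∈ range M, f i ^ k i) * X ^ (∑ i ∈ range M, i * k i) := by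
    rw [map_prod, ← prod_pow_eq_pow_sum, ← prod_mul_distrib]
    refine prod_congr rfl fun i _ => ?_
    rw [mul_pow, map_pow, ← pow_mul]
  rw [h1, ← C_eq_natCast, ← mul_assoc, ← C_mul, coeff_C_mul, coeff_X_pow]
  split_ifs <;> simp

theorem fact_dvd (f : ℕ → ℕ) (d m : ℕ)
    (h : ∀ i j, 2 * i + j = m → 1 ≤ f i → rr f d j = 0) :
    (d + 2).factorial ∣ rr f (d + 2) m := by
  rw [rr_sum f (m + 1) (d + 2) m (by omega)]
  refine dvd_sum fun k hk => ?_
  obtain ⟨hk1, hk2⟩ := mem_piAntidiag.mp hk
  split_ifs with hm
  swap
  · exact dvd_zero _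
  by_cases hall : ∀ i ∈ range (m + 1), k i ≤ 1
  · have h2 := Nat.multinomial_spec (range (m + 1)) k
    have h3 : ∏ i ∈ range (m + 1), (k i).factorial = 1 := by
      refine prod_eq_one fun i hi => ?_
      have := hall i hi
      interval_cases k i <;> rfl
    rw [h3, one_mul] at h2
    rw [h2, hk1]
    exact Dvd.intro _ rfl
  · push Not at hall
    obtain ⟨i, hi, hki⟩ := hall
    have hzero : ∏ l ∈ range (m + 1), f l ^ k l = 0 := by
      by_cases hfi : f i = 0
      · refine prod_eq_zero hi ?_
        rw [hfi, zero_pow (by omega)]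
      · -- remove two copies of `i`
        set k' : ℕ → ℕ := fun l => if l = i then k i - 2 else k l with hk'
        have e1 : ∀ g : ℕ → ℕ, ∑ l ∈ range (m + 1), g l * k l =
            ∑ l ∈ range (m + 1), g l * k' l + 2 * g i := by
          intro g
          rw [← add_sum_erase _ _ hi, ← add_sum_erase (range (m + 1)) (fun l => g l * k' l) hi]
          have : ∑ x ∈ (range (m + 1)).erase i, g x * k x =
              ∑ x ∈ (range (m + 1)).erase i, g x * k' x := by
            refine sum_congr rfl fun x hx => ?_
            have := (mem_erase.mp hx).1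
            simp only [hk', if_neg this]
          rw [this]
          have h4 : k i = k' i + 2 := by
            simp only [hk', if_true]
            omega
          simp only [h4]
          ring
        have hsum : ∑ l ∈ range (m + 1), k' l = d := by
          have h10 : ∑ l ∈ range (m + 1), k l = ∑ l ∈ range (m + 1), k' l + 2 := by
            have := e1 (fun _ => 1)
            simpa only [one_mul, mul_one] using this
          have h11 : ∑ l ∈ range (m + 1), k l = d + 2 := hk1
          omega
        have hw : ∑ l ∈ range (m + 1), l * k l = ∑ l ∈ range (m + 1), l * k' l + 2 * i :=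
          e1 (fun l => l)
        have h5 := h i (∑ l ∈ range (m + 1), l * k' l) (by omega) (by omega)
        rw [rr_sum f (m + 1) d _ (by omega)] at h5
        have h6 : k' ∈ piAntidiag (range (m + 1)) d := by
          rw [mem_piAntidiag]
          refine ⟨hsum, fun l hl => ?_⟩
          by_cases hli : l = i
          · rw [hli]; exact hi
          · simp only [hk', if_neg hli] at hl
            exact hk2 l hl
        have h7 := (sum_eq_zero_iff.mp h5) k' h6
        rw [if_pos rfl] at h7
        have h8 : Nat.multinomial (range (m + 1)) k' ≠ 0 := (Nat.multinomial_pos _ _).ne'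
        have h9 : ∏ l ∈ range (m + 1), f l ^ k' l = 0 := by
          rcases Nat.mul_eq_zero.mp h7 with h10 | h10
          · exact absurd h10 h8
          · exact h10
        obtain ⟨l, hl, hl0⟩ := prod_eq_zero_iff.mp h9
        have hfl : f l = 0 ∧ k' l ≠ 0 := by
          refine ⟨eq_zero_of_pow_eq_zero hl0, fun h0 => ?_⟩
          rw [h0, pow_zero] at hl0
          exact one_ne_zero hl0
        refine prod_eq_zero hl ?_
        rw [hfl.1, zero_pow]
        intro h0
        apply hfl.2
        simp only [hk']
        split_ifs with hli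
        · rw [hli] at h0; omega
        · exact h0
    rw [hzero, mul_zero]
    exact dvd_zero _

end Pool.Agent.H726R3.FactDvd
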