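import Pool.Agent.H820R3.DG.Defs2
import Pool.Agent.H726R3.FactDvd

/-!
# Divisibility of representation numbers by factorials, in the notation of `DG.Defs2`
-/

set_option autoImplicit false

open Finset

namespace Pool.Agent.H726R3.FactDvd

theorem rr_same (f : ℕ → ℕ) : ∀ d m : ℕ, Pool.Agent.H820R3.DG.rr f d m = rr f d m := by
  intro d
  induction d with
  | zero => intro m; rfl
  | succ d ih =>
    intro m
    show ∑ p ∈ antidiagonal m, f p.1 * Pool.Agent.H820R3.DG.rr f d p.2 =
      ∑ p ∈ antidiagonal m, f p.1 * rr f d p.2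
    exact sum_congr rfl fun p _ => by rw [ih]

theorem factStmt : Pool.Agent.H820R3.DG.FactStmt := by
  intro f d m h
  rw [rr_same]
  exact fact_dvd f d m (fun i j h1 h2 => by rw [← rr_same]; exact h i j h1 h2)

end Pool.Agent.H726R3.FactDvd
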