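import Pool.Agent.H820R3.DG.Count

/-!
# Digits of products: the sum of the expansions of several numbers times one expansion

`y ∈ (0,1)` is irrational algebraic, `z k ∈ (0,1)` are real, `X i = ∑ₖ xᵢ(z k)`.
If `q y ∑ z k = P0 + ∑ P k z k` with integers, then
`(1 - η) (b - 1) N ≤ q K_y(N) ∑ₖ K_{z k}(N)` for all large `N`.
-/

set_option autoImplicit false
set_option linter.unusedSectionVars false

open Finset Filter

namespace Pool.Agent.H726R3.Joint

open Pool.Agent.H394R2.Ones Pool.Agent.H820R3.DG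

variable {κ : Type} [Fintype κ]

/-- sum of the `i`-th digits -/
noncomputable def X (b : ℕ) (z : κ → ℝ) (i : ℕ) : ℕ := ∑ k, x b (z k) i

/-- sum of the integer parts -/
noncomputable def BB (b : ℕ) (z : κ → ℝ) (n : ℕ) : ℕ := ∑ k, B b (z k) n

/-- sum of the fractional parts -/
noncomputable def EE (b : ℕ) (z : κ → ℝ) (n : ℕ) : ℝ := ∑ k, ep b (z k) n

/-- the tail of the product -/
noncomputable def TT (b : ℕ) (y : ℝ) (z : κ → ℝ) (n : ℕ) : ℝ :=
  y * (∑ k, z k) * (b : ℝ) ^ n - ∑ i ∈ range (n + 1), (X b z i : ℝ) * B b y (n - i)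

/-- number of weighted representations -/
noncomputable def RR (b : ℕ) (y : ℝ) (z : κ → ℝ) (m : ℕ) : ℕ :=
  ∑ i ∈ range (m + 1), X b z i * x b y (m - i)

/-- total digit sum -/
noncomputable def KX (b : ℕ) (z : κ → ℝ) (N : ℕ) : ℕ := ∑ i ∈ range (N + 1), X b z i

section
variable {b : ℕ} {y : ℝ} {z : κ → ℝ}

lemma KX_eq (N : ℕ) : KX b z N = ∑ k, K b (z k) N := by
  unfold KX X K
  exact sum_comm

lemma BB_eq (hb : 2 ≤ b) (hz0 : ∀ k, 0 < z k) (hz1 : ∀ k, z k < 1) (n : ℕ) :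
    BB b z n = ∑ i ∈ range (n + 1), X b z i * b ^ (n - i) := by
  unfold BB X
  simp only [sum_mul]
  rw [sum_comm]
  exact sum_congr rfl fun k _ => B_eq hb (hz0 k) (hz1 k) n

lemma zb_eq (n : ℕ) : (∑ k, z k) * (b : ℝ) ^ n = BB b z n + EE b z n := by
  unfold BB EE ep
  push_cast
  rw [sum_mul, ← sum_add_distrib]
  exact sum_congr rfl fun k _ => by ring

lemma TT_eq (hb : 2 ≤ b) (hz0 : ∀ k, 0 < z k) (hz1 : ∀ k, z k < 1) (n : ℕ) :
    TT b y z n = ∑ i ∈ range (n + 1), (X b z i : ℝ) * ep b y (n - i) + y * EE b z n := by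
  unfold TT
  rw [mul_assoc, zb_eq, BB_eq hb hz0 hz1]
  push_cast
  rw [mul_add, mul_sum]
  have h : ∀ i ∈ range (n + 1), y * ((X b z i : ℝ) * (b : ℝ) ^ (n - i)) =
      (X b z i : ℝ) * B b y (n - i) + (X b z i : ℝ) * ep b y (n - i) := by
    intro i _
    unfold ep
    ring
  rw [sum_congr rfl h, sum_add_distrib]
  ring

lemma EE_nonneg (hz0 : ∀ k, 0 < z k) (n : ℕ) : 0 ≤ EE b z n :=
  sum_nonneg fun k _ => ep_nonneg (hz0 k) n

lemma EE_le (n : ℕ) : EE b z n ≤ Fintype.card κ := by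
  unfold EE
  calc ∑ k, ep b (z k) n ≤ ∑ _k : κ, (1 : ℝ) := sum_le_sum fun k _ => (ep_lt n).le
    _ = Fintype.card κ := by simp

lemma TT_nonneg (hb : 2 ≤ b) (hy0 : 0 < y) (hz0 : ∀ k, 0 < z k) (hz1 : ∀ k, z k < 1) (n : ℕ) :
    0 ≤ TT b y z n := by
  rw [TT_eq hb hz0 hz1]
  have h1 : 0 ≤ ∑ i ∈ range (n + 1), (X b z i : ℝ) * ep b y (n - i) :=
    sum_nonneg fun i _ => mul_nonneg (Nat.cast_nonneg _) (ep_nonneg hy0 _)
  have h2 : 0 ≤ y * EE b z n := mul_nonneg hy0.le (EE_nonneg hz0 n)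
  linarith

lemma TT_ge (hb : 2 ≤ b) (hy0 : 0 < y) (hz0 : ∀ k, 0 < z k) (hz1 : ∀ k, z k < 1) {m j : ℕ}
    (hj : j ≤ m) (hx : 1 ≤ X b z j) : ep b y (m - j) ≤ TT b y z m := by
  rw [TT_eq hb hz0 hz1]
  have h1 : (X b z j : ℝ) * ep b y (m - j) ≤
      ∑ k ∈ range (m + 1), (X b z k : ℝ) * ep b y (m - k) := by
    refine single_le_sum (f := fun k => (X b z k : ℝ) * ep b y (m - k)) ?_
      (mem_range.mpr (by omega))
    intro k _
    exact mul_nonneg (Nat.cast_nonneg _) (ep_nonneg hy0 _)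
  have h2 : (1 : ℝ) ≤ X b z j := by exact_mod_cast hx
  have h3 := ep_nonneg (b := b) hy0 (m - j)
  have h4 : 0 ≤ y * EE b z m := mul_nonneg hy0.le (EE_nonneg hz0 _)
  nlinarith

lemma TT_le (hb : 2 ≤ b) (hy0 : 0 < y) (hy1 : y < 1) (hz0 : ∀ k, 0 < z k) (hz1 : ∀ k, z k < 1)
    (n : ℕ) : TT b y z n ≤ KX b z n + Fintype.card κ := by
  rw [TT_eq hb hz0 hz1]
  have h1 : ∑ i ∈ range (n + 1), (X b z i : ℝ) * ep b y (n - i) ≤ KX b z n := by
    unfold KX
    push_cast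
    refine sum_le_sum fun i _ => ?_
    have h2 := ep_lt (b := b) (y := y) (n - i)
    have h0 : (0 : ℝ) ≤ X b z i := Nat.cast_nonneg _
    nlinarith
  have h3 : y * EE b z n ≤ 1 * Fintype.card κ :=
    mul_le_mul hy1.le (EE_le n) (EE_nonneg hz0 n) (by norm_num)
  linarith

lemma TT_succ (hb : 2 ≤ b) (hy0 : 0 < y) (hy1 : y < 1) (n : ℕ) :
    TT b y z (n + 1) = b * TT b y z n - RR b y z (n + 1) := by
  unfold TT RR
  rw [sum_range_succ _ (n + 1), Nat.sub_self, B_zero hy0 hy1, sum_range_succ _ (n + 1),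
    Nat.sub_self, x_zero hy0 hy1]
  push_cast
  have h : ∀ i ∈ range (n + 1), (X b z i : ℝ) * B b y (n + 1 - i) =
      b * ((X b z i : ℝ) * B b y (n - i)) + (X b z i : ℝ) * x b y (n + 1 - i) := by
    intro i hi
    have hi' : i ≤ n := by have := mem_range.mp hi; omega
    rw [Nat.succ_sub hi', B_succ hb]
    push_cast
    ring
  rw [sum_congr rfl h, sum_add_distrib, ← mul_sum]
  ring

lemma sumR (N : ℕ) : ∑ m ∈ range (N + 1), RR b y z m ≤ K b y N * KX b z N := by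
  have h1 : ∀ m, RR b y z m = ∑ p ∈ antidiagonal m, X b z p.1 * x b y p.2 := by
    intro m
    unfold RR
    rw [Nat.sum_antidiagonal_eq_sum_range_succ_mk]
  have h2 := pair_sum N (fun i l => X b z i * x b y l)
  rw [sum_congr rfl fun m _ => h1 m]
  have h3 : ∑ p ∈ range (N + 1) ×ˢ range (N + 1), X b z p.1 * x b y p.2 = KX b z N * K b y N := by
    unfold KX K
    rw [sum_mul_sum, sum_product]
  rw [h3] at h2
  rw [mul_comm]
  omega

lemma sumT (hb : 2 ≤ b) (hy0 : 0 < y) (hy1 : y < 1) (hz0 : ∀ k, 0 < z k) (hz1 : ∀ k, z k < 1)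
    (N : ℕ) : ((b : ℝ) - 1) * ∑ m ∈ range N, TT b y z m ≤
      (K b y N : ℝ) * KX b z N + KX b z N + Fintype.card κ := by
  have h1 : ∀ N : ℕ, ((b : ℝ) - 1) * ∑ m ∈ range N, TT b y z m + TT b y z 0 + RR b y z 0 =
      ∑ m ∈ range (N + 1), (RR b y z m : ℝ) + TT b y z N := by
    intro N
    induction N with
    | zero => simp; ring
    | succ N ih =>
      rw [sum_range_succ, sum_range_succ _ (N + 1)]
      have := TT_succ (z := z) hb hy0 hy1 N
      linear_combination ih - this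
  have h2 := h1 N
  have h3 : ∑ m ∈ range (N + 1), (RR b y z m : ℝ) ≤ (K b y N : ℝ) * KX b z N := by
    exact_mod_cast sumR N
  have h4 := TT_le hb hy0 hy1 hz0 hz1 N
  have h5 := TT_nonneg hb hy0 hz0 hz1 (b := b) (y := y) 0
  have h6 : (0 : ℝ) ≤ RR b y z 0 := Nat.cast_nonneg _
  linarith

lemma rel_int {q : ℕ} {P0 : ℤ} {P : κ → ℤ}
    (hrel : (q : ℝ) * (y * ∑ k, z k) = P0 + ∑ k, (P k : ℝ) * z k) (n : ℕ) :
    ∃ W : ℤ, (q : ℝ) * TT b y z n = W + ∑ k, (P k : ℝ) * ep b (z k) n := by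
  refine ⟨P0 * (b : ℤ) ^ n + ∑ k, P k * B b (z k) n -
    q * ∑ i ∈ range (n + 1), (X b z i : ℤ) * B b y (n - i), ?_⟩
  unfold TT ep
  push_cast
  have h1 : ∑ k, (P k : ℝ) * (z k * (b : ℝ) ^ n - B b (z k) n) =
      (∑ k, (P k : ℝ) * z k) * (b : ℝ) ^ n - ∑ k, (P k : ℝ) * B b (z k) n := by
    rw [sum_mul, ← sum_sub_distrib]
    exact sum_congr rfl fun k _ => by ring
  rw [h1]
  linear_combination (b : ℝ) ^ n * hrel

end

end Pool.Agent.H726R3.Joint
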