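import Pool.Agent.H726R3.Joint

/-!
# Digits of products, part 2: counting bad positions, and the core theorem
-/

set_option autoImplicit false
set_option linter.unusedSectionVars false

open Finset Filter

namespace Pool.Agent.H726R3.Joint

open Pool.Agent.H394R2.Ones Pool.Agent.H820R3.DG

variable {κ : Type} [Fintype κ]

section
variable {b : ℕ} {y : ℝ} {z : κ → ℝ}

lemma pow_eq_exp (hb : 2 ≤ b) (n : ℕ) : (b : ℝ) ^ n = Real.exp (n * Real.log b) := by
  have hb0 : (0 : ℝ) < b := by exact_mod_cast (by omega : 0 < b)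
  rw [Real.exp_nat_mul, Real.exp_log hb0]

/-- positions where the tail is small lie near the ends of the blocks -/
lemma good_pos (hb : 2 ≤ b) (hy0 : 0 < y) (halg : IsAlgebraic ℚ y)
    (hirr : Irrational y) (hz0 : ∀ k, 0 < z k) (hz1 : ∀ k, z k < 1) {q : ℕ} (hq : 1 ≤ q) {P0 : ℤ}
    {P : κ → ℤ} (hrel : (q : ℝ) * (y * ∑ k, z k) = P0 + ∑ k, (P k : ℝ) * z k) (η δ : ℝ)
    (hη : 0 < η) (hδ : 0 < δ) (hδ1 : δ ≤ 1) :
    ∃ a : ℕ, ∀ m j j' : ℕ, j ≤ m → m < j' → 1 ≤ X b z j → (∀ k, j < k → k < j' → X b z k = 0) →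
      q * TT b y z m < 1 - η → m < j + a ∨ (j' : ℝ) ≤ m + a + δ * ((j' : ℝ) - j) := by
  obtain ⟨L0, hrid⟩ := ridout hb halg hirr δ hδ hδ1
  have hb1 : (1 : ℝ) < b := by exact_mod_cast (by omega : 1 < b)
  have hb0 : (0 : ℝ) < b := by linarith
  have hlog : 0 < Real.log (b : ℝ) := Real.log_pos hb1
  set A : ℝ := ∑ k, |(P k : ℝ)| with hA
  have hA0 : 0 ≤ A := sum_nonneg fun k _ => abs_nonneg _
  set η' : ℝ := min η 1 with hη'
  have hη'0 : 0 < η' := lt_min hη one_pos
  obtain ⟨c0, hc0⟩ := pow_unbounded_of_one_lt (A / η') hb1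
  rw [div_lt_iff₀ hη'0] at hc0
  refine ⟨L0 + c0 + 1, ?_⟩
  intro m j j' hjm hmj' hXj hz hbad
  by_contra hcon
  push Not at hcon
  obtain ⟨hc1, hc2⟩ := hcon
  push_cast at hc2
  have hL : L0 ≤ m - j := by omega
  have hcast : ((m - j : ℕ) : ℝ) = m - j := by rw [Nat.cast_sub hjm]
  -- lower bound for the tail
  have h1 := TT_ge hb hy0 hz0 hz1 hjm hXj
  have h2 := hrid (m - j) hL (B b y (m - j) : ℤ)
  have h3 : y * (b : ℝ) ^ (m - j) - ((B b y (m - j) : ℤ) : ℝ) = ep b y (m - j) := by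
    unfold ep; push_cast; ring
  rw [h3, abs_of_nonneg (ep_nonneg hy0 _)] at h2
  set E : ℝ := Real.exp (-(δ * (((m - j : ℕ) : ℝ) * Real.log b))) with hE
  have hE0 : 0 < E := Real.exp_pos _
  have hE1 : E ≤ 1 := by
    rw [hE, Real.exp_le_one_iff]
    have : 0 ≤ δ * (((m - j : ℕ) : ℝ) * Real.log b) := by positivity
    linarith
  -- upper bound for the perturbation
  obtain ⟨g, hg⟩ : ∃ g, m + g + 1 = j' := ⟨j' - m - 1, by omega⟩
  have hgR : (m : ℝ) + g + 1 = j' := by exact_mod_cast hg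
  have hjmR : (j : ℝ) ≤ m := by exact_mod_cast hjm
  have hmjR : (m : ℝ) < j' := by exact_mod_cast hmj'
  have hL0R : (0 : ℝ) ≤ L0 := Nat.cast_nonneg _
  have hg2 : (c0 : ℝ) + δ * ((m - j : ℕ) : ℝ) ≤ g := by
    rw [hcast]
    have : δ * ((m : ℝ) - j) ≤ δ * ((j' : ℝ) - j) := mul_le_mul_of_nonneg_left (by linarith) hδ.le
    linarith
  have h4 : (b : ℝ) ^ c0 * E⁻¹ ≤ (b : ℝ) ^ g := by
    rw [pow_eq_exp hb c0, pow_eq_exp hb g, hE, ← Real.exp_neg, ← Real.exp_add]
    apply Real.exp_le_exp.mpr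
    have := mul_le_mul_of_nonneg_right hg2 hlog.le
    linarith
  have h5 : ∀ k, (b : ℝ) ^ g * ep b (z k) m < 1 := by
    intro k
    apply ep_small hb
    intro l hl1 hl2
    have h6 := hz l (by omega) (by omega)
    unfold X at h6
    exact (sum_eq_zero_iff.mp h6) k (mem_univ k)
  have hbg : (0 : ℝ) < (b : ℝ) ^ g := by positivity
  have hbc : (0 : ℝ) < (b : ℝ) ^ c0 := by positivity
  have h6 : ∀ k, ep b (z k) m ≤ ((b : ℝ) ^ g)⁻¹ := by
    intro k
    rw [← mul_le_mul_iff_right₀ hbg, mul_inv_cancel₀ hbg.ne']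
    exact (h5 k).le
  have h7 : |∑ k, (P k : ℝ) * ep b (z k) m| ≤ A * ((b : ℝ) ^ g)⁻¹ := by
    refine (abs_sum_le_sum_abs _ _).trans ?_
    rw [hA, sum_mul]
    refine sum_le_sum fun k _ => ?_
    rw [abs_mul, abs_of_nonneg (ep_nonneg (hz0 k) m)]
    exact mul_le_mul_of_nonneg_left (h6 k) (abs_nonneg _)
  have h8 : A * ((b : ℝ) ^ g)⁻¹ ≤ η' * E := by
    have h9 : ((b : ℝ) ^ g)⁻¹ ≤ ((b : ℝ) ^ c0)⁻¹ * E := by
      have h10 : ((b : ℝ) ^ g)⁻¹ ≤ ((b : ℝ) ^ c0 * E⁻¹)⁻¹ := inv_anti₀ (by positivity) h4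
      rwa [mul_inv, inv_inv] at h10
    have h10 : A * ((b : ℝ) ^ c0)⁻¹ ≤ η' := by
      rw [mul_inv_le_iff₀ hbc]
      linarith
    calc A * ((b : ℝ) ^ g)⁻¹ ≤ A * (((b : ℝ) ^ c0)⁻¹ * E) := mul_le_mul_of_nonneg_left h9 hA0
      _ = A * ((b : ℝ) ^ c0)⁻¹ * E := by ring
      _ ≤ η' * E := mul_le_mul_of_nonneg_right h10 hE0.le
  have h9 : η' * E ≤ E := mul_le_of_le_one_left hE0.le (min_le_right _ _)
  have h10 : η' * E ≤ η := (mul_le_of_le_one_right hη'0.le hE1).trans (min_le_left _ _)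
  obtain ⟨W, hW⟩ := rel_int (b := b) hrel m
  have hqR : (1 : ℝ) ≤ q := by exact_mod_cast hq
  have hT : E < q * TT b y z m := by
    have h11 : TT b y z m ≤ q * TT b y z m :=
      le_mul_of_one_le_left (TT_nonneg hb hy0 hz0 hz1 (b := b) (y := y) m) hqR
    linarith
  have hs := abs_le.mp h7
  have hWpos : (0 : ℝ) < W := by linarith [hs.2]
  have hW1 : (1 : ℝ) ≤ W := by
    have : (0 : ℤ) < W := by exact_mod_cast hWpos
    exact_mod_cast (by omega : (1 : ℤ) ≤ W)
  linarith [hs.1]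

/-- the number of positions with small tail -/
lemma bad_count' (hb : 2 ≤ b) (hy0 : 0 < y) (halg : IsAlgebraic ℚ y)
    (hirr : Irrational y) (hz0 : ∀ k, 0 < z k) (hz1 : ∀ k, z k < 1) {q : ℕ} (hq : 1 ≤ q) {P0 : ℤ}
    {P : κ → ℤ} (hrel : (q : ℝ) * (y * ∑ k, z k) = P0 + ∑ k, (P k : ℝ) * z k)
    (hX : ∃ k, 1 ≤ X b z k) (η δ : ℝ)
    (hη : 0 < η) (hδ : 0 < δ) (hδ1 : δ ≤ 1) :
    ∃ C : ℝ, 0 ≤ C ∧ ∀ N : ℕ,
      (((range N).filter (fun m => q * TT b y z m < 1 - η)).card : ℝ) ≤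
        C * (KX b z N + 1) + δ * N := by
  obtain ⟨a, ha⟩ := good_pos hb hy0 halg hirr hz0 hz1 hq hrel η δ hη hδ hδ1
  obtain ⟨k0, hk0⟩ := hX
  refine ⟨2 * a + (k0 + 1), by positivity, fun N => ?_⟩
  classical
  have h1 := count_blocks (fun k => 1 ≤ X b z k ∨ k = N)
    (fun m => m < N ∧ q * TT b y z m < 1 - η) (k0 + 1) a δ hδ.le ⟨k0, by omega, Or.inl hk0⟩ (by
      intro m j j' _ hjm hmj' hj _ hz hbad
      have hj1 : 1 ≤ X b z j := by
        rcases hj with hj | hj
        · exact hj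
        · exfalso
          have := hbad.1
          omega
      exact ha m j j' hjm hmj' hj1 (fun k hk1 hk2 => by
        have := hz k hk1 hk2
        push Not at this
        have := this.1
        omega) hbad.2) N N le_rfl (Or.inr rfl) (by intro k h1 h2; omega)
  have h2 : ((range N).filter (fun m => q * TT b y z m < 1 - η)).card ≤
      ((range N).filter (fun m => k0 + 1 ≤ m ∧ (m < N ∧ q * TT b y z m < 1 - η))).card +
        (k0 + 1) := by
    have h3 : (range N).filter (fun m => q * TT b y z m < 1 - η) ⊆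
        (range N).filter (fun m => k0 + 1 ≤ m ∧ (m < N ∧ q * TT b y z m < 1 - η)) ∪
          range (k0 + 1) := by
      intro m hm
      obtain ⟨hm1, hm2⟩ := mem_filter.mp hm
      rw [mem_union]
      rcases Nat.lt_or_ge m (k0 + 1) with h4 | h4
      · exact Or.inr (mem_range.mpr h4)
      · exact Or.inl (mem_filter.mpr ⟨hm1, h4, mem_range.mp hm1, hm2⟩)
    have h4 := (card_le_card h3).trans (card_union_le _ _)
    rwa [card_range] at h4
  have h3 : ((range N).filter (fun k => 1 ≤ X b z k ∨ k = N)).card ≤ KX b z N := by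
    unfold KX
    rw [card_filter]
    refine (sum_le_sum fun i hi => ?_).trans (sum_le_sum_of_subset (range_mono (Nat.le_succ N)))
    split_ifs with h4
    · rcases h4 with h4 | h4
      · exact h4
      · have := mem_range.mp hi
        omega
    · exact Nat.zero_le _
  have h2' : (((range N).filter (fun m => q * TT b y z m < 1 - η)).card : ℝ) ≤
      ((range N).filter (fun m => k0 + 1 ≤ m ∧ (m < N ∧ q * TT b y z m < 1 - η))).card +
        (k0 + 1) := by
    exact_mod_cast h2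
  have h3' : (((range N).filter (fun k => 1 ≤ X b z k ∨ k = N)).card : ℝ) ≤ KX b z N := by
    exact_mod_cast h3
  have h4 : 2 * (a : ℝ) * (((range N).filter (fun k => 1 ≤ X b z k ∨ k = N)).card : ℝ) ≤
      2 * a * KX b z N := mul_le_mul_of_nonneg_left h3' (by positivity)
  have h5 : (0 : ℝ) ≤ ((k0 : ℝ) + 1) * KX b z N := by positivity
  have h6 : (2 * (a : ℝ) + (k0 + 1)) * (KX b z N + 1) =
      2 * a * KX b z N + 2 * a + (k0 + 1) + ((k0 : ℝ) + 1) * KX b z N := by ring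
  rw [h6]
  linarith

lemma exists_digit (hb : 2 ≤ b) (hy0 : 0 < y) (hirr : Irrational y) (M : ℕ) :
    ∃ k, M < k ∧ 1 ≤ x b y k := by
  by_contra hcon
  push Not at hcon
  have hb1 : (1 : ℝ) < b := by exact_mod_cast (by omega : 1 < b)
  have h1 : ∀ h : ℕ, (b : ℝ) ^ h * ep b y M < 1 := by
    intro h
    apply ep_small hb
    intro k hk1 _
    have := hcon k hk1
    omega
  have h2 := ep_pos hb hy0 hirr M
  obtain ⟨n, hn⟩ := pow_unbounded_of_one_lt (1 / ep b y M) hb1
  have h3 := h1 n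
  rw [div_lt_iff₀ h2] at hn
  linarith

lemma K_tendsto (hb : 2 ≤ b) (hy0 : 0 < y) (hirr : Irrational y) :
    Tendsto (fun N => K b y N) atTop atTop := by
  apply tendsto_atTop_atTop_of_monotone
  · intro m n h
    exact K_mono h
  · intro c
    induction c with
    | zero => exact ⟨0, Nat.zero_le _⟩
    | succ c ih =>
      obtain ⟨N, hN⟩ := ih
      obtain ⟨k, hk1, hk2⟩ := exists_digit hb hy0 hirr N
      refine ⟨k, ?_⟩
      obtain ⟨k', rfl⟩ : ∃ k', k = k' + 1 := ⟨k - 1, by omega⟩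
      have h1 : K b y (k' + 1) = K b y k' + x b y (k' + 1) := by
        unfold K
        rw [sum_range_succ]
      have h2 : K b y N ≤ K b y k' := K_mono (by omega)
      omega

/-- the core theorem -/
theorem core (hb : 2 ≤ b) (hy0 : 0 < y) (hy1 : y < 1) (halg : IsAlgebraic ℚ y)
    (hirr : Irrational y) (hz0 : ∀ k, 0 < z k) (hz1 : ∀ k, z k < 1) {q : ℕ} (hq : 1 ≤ q) {P0 : ℤ}
    {P : κ → ℤ} (hrel : (q : ℝ) * (y * ∑ k, z k) = P0 + ∑ k, (P k : ℝ) * z k)
    (hX : ∃ k, 1 ≤ X b z k) (η : ℝ) (hη : 0 < η) :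
    ∀ᶠ N : ℕ in atTop, (1 - η) * ((b : ℝ) - 1) * N ≤ q * K b y N * KX b z N := by
  have hbR : (2 : ℝ) ≤ b := by exact_mod_cast hb
  rcases le_or_gt 1 η with hη1 | hη1
  · refine Eventually.of_forall fun N => ?_
    have h1 : (1 - η) * ((b : ℝ) - 1) * N ≤ 0 := by
      have h2 : 0 ≤ ((b : ℝ) - 1) * N := mul_nonneg (by linarith) (Nat.cast_nonneg _)
      have h3 := mul_nonpos_of_nonpos_of_nonneg (by linarith : 1 - η ≤ 0) h2
      linarith
    exact h1.trans (by positivity)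
  have hε : 0 < η / 4 := by linarith
  obtain ⟨C, hC0, hC⟩ := bad_count' hb hy0 halg hirr hz0 hz1 hq hrel hX (η / 4) (η / 4) hε hε
    (by linarith)
  have hqR : (1 : ℝ) ≤ q := by exact_mod_cast hq
  set r : ℝ := (Fintype.card κ : ℝ) with hr
  have hr0 : 0 ≤ r := Nat.cast_nonneg _
  -- constants
  have hK := (tendsto_natCast_atTop_atTop (R := ℝ)).comp (K_tendsto hb hy0 hirr)
  have hN := tendsto_natCast_atTop_atTop (R := ℝ)
  filter_upwards [hK.eventually_ge_atTop ((q + ((b : ℝ) - 1) * C) / (η / 4)),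
    hN.eventually_ge_atTop ((q * r + ((b : ℝ) - 1) * C) / (η / 4))] with N hKN hNN
  simp only [Function.comp] at hKN
  rw [div_le_iff₀ hε] at hKN hNN
  have hKX0 : (0 : ℝ) ≤ KX b z N := Nat.cast_nonneg _
  have hK0 : (0 : ℝ) ≤ K b y N := Nat.cast_nonneg _
  have hN0 : (0 : ℝ) ≤ N := Nat.cast_nonneg _
  -- lower bound for the sum of the tails
  have h1 : (1 - η / 4) * (N - (C * (KX b z N + 1) + η / 4 * N)) ≤
      q * ∑ m ∈ range N, TT b y z m := by
    set bad := (range N).filter (fun m => q * TT b y z m < 1 - η / 4) with hbad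
    set good := (range N).filter (fun m => ¬ q * TT b y z m < 1 - η / 4) with hgood
    have hcard : bad.card + good.card = N := by
      have := card_filter_add_card_filter_not (s := range N)
        (fun m => q * TT b y z m < 1 - η / 4)
      rw [card_range] at this
      exact this
    have hcardR : (bad.card : ℝ) + good.card = N := by exact_mod_cast hcard
    have h2 : (1 - η / 4) * (good.card : ℝ) ≤ q * ∑ m ∈ range N, TT b y z m := by
      rw [mul_sum]
      calc (1 - η / 4) * (good.card : ℝ) = ∑ m ∈ good, (1 - η / 4) := by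
            rw [sum_const, nsmul_eq_mul]; ring
        _ ≤ ∑ m ∈ good, (q : ℝ) * TT b y z m := by
            refine sum_le_sum fun m hm => ?_
            have := (mem_filter.mp hm).2
            linarith
        _ ≤ ∑ m ∈ range N, (q : ℝ) * TT b y z m := by
            refine sum_le_sum_of_subset_of_nonneg (filter_subset _ _) fun m _ _ => ?_
            exact mul_nonneg (by linarith) (TT_nonneg hb hy0 hz0 hz1 m)
    have h3 := hC N
    rw [← hbad] at h3
    refine le_trans (mul_le_mul_of_nonneg_left ?_ (by linarith)) h2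
    linarith
  have h2 := sumT hb hy0 hy1 hz0 hz1 N
  have h3 : ((b : ℝ) - 1) * ((1 - η / 4) * (N - (C * (KX b z N + 1) + η / 4 * N))) ≤
      q * ((K b y N : ℝ) * KX b z N + KX b z N + r) := by
    calc ((b : ℝ) - 1) * ((1 - η / 4) * (N - (C * (KX b z N + 1) + η / 4 * N))) ≤
        ((b : ℝ) - 1) * (q * ∑ m ∈ range N, TT b y z m) :=
          mul_le_mul_of_nonneg_left h1 (by linarith)
      _ = q * (((b : ℝ) - 1) * ∑ m ∈ range N, TT b y z m) := by ring
      _ ≤ _ := mul_le_mul_of_nonneg_left h2 (by linarith)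
  have h4 : ((b : ℝ) - 1) * ((1 - η / 4) * (N - η / 4 * N)) -
      ((b : ℝ) - 1) * C * (KX b z N + 1) ≤
      ((b : ℝ) - 1) * ((1 - η / 4) * (N - (C * (KX b z N + 1) + η / 4 * N))) := by
    have h5 : 0 ≤ ((b : ℝ) - 1) * C * (KX b z N + 1) * (η / 4) := by
      have : 0 ≤ (b : ℝ) - 1 := by linarith
      positivity
    linarith
  have h5 : (q + ((b : ℝ) - 1) * C) * KX b z N ≤ K b y N * (η / 4) * KX b z N :=
    mul_le_mul_of_nonneg_right hKN hKX0
  have h6 : K b y N * (η / 4) * KX b z N ≤ (η / 4) * (q * K b y N * KX b z N) := by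
    have h7 : 0 ≤ (η / 4) * (K b y N * KX b z N) := by positivity
    have h8 := mul_le_mul_of_nonneg_right hqR h7
    linarith
  -- main inequality
  have h7 : ((b : ℝ) - 1) * ((1 - η / 4) * (N - η / 4 * N)) - N * (η / 4) ≤
      (1 + η / 4) * (q * K b y N * KX b z N) := by
    have h8 : q * ((K b y N : ℝ) * KX b z N + KX b z N + r) =
      q * K b y N * KX b z N + q * KX b z N + q * r := by ring
    rw [h8] at h3
    linarith
  have h8 : (1 - η) * (1 + η / 4) ≤ (1 - η / 4) * (1 - η / 4) - η / 4 := by nlinarith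
  have h9 : (1 + η / 4) * ((1 - η) * ((b : ℝ) - 1) * N) ≤
      ((b : ℝ) - 1) * ((1 - η / 4) * (N - η / 4 * N)) - N * (η / 4) := by
    have h10 : 0 ≤ ((b : ℝ) - 1) * N := mul_nonneg (by linarith) hN0
    have h11 := mul_le_mul_of_nonneg_right h8 h10
    have h12 : N * (η / 4) ≤ (η / 4) * (((b : ℝ) - 1) * N) := by
      have h13 : 0 ≤ (η / 4) * N := by positivity
      have h14 := mul_le_mul_of_nonneg_right (by linarith : (1 : ℝ) ≤ (b : ℝ) - 1) h13
      linarith
    linarith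
  have h10 := h9.trans h7
  exact le_of_mul_le_mul_left h10 (by linarith)

end

end Pool.Agent.H726R3.Joint
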