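import Pool.Agent.H726R3.Joint2

/-!
# Digits of products, part 3: digits of arbitrary real numbers, spans
-/

set_option autoImplicit false
set_option linter.unusedSectionVars false

open Finset Filter

namespace Pool.Agent.H726R3.Joint

open Pool.Agent.H394R2.Ones Pool.Agent.H820R3.DG

/-- the `i`-th base-`b` digit after the point of the real number `x` -/
noncomputable def digit (b : ℕ) (x : ℝ) (i : ℕ) : ℤ := ⌊x * (b : ℝ) ^ i⌋ % (b : ℤ)

/-- the number of `1 ≤ i ≤ N` such that the `i`-th base-`b` digit of `x` is not `d` -/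
noncomputable def cnt (b : ℕ) (d : ℤ) (x : ℝ) (N : ℕ) : ℕ :=
  ((Icc 1 N).filter (fun i => digit b x i ≠ d)).card

/-- the sum of the first `N` base-`b` digits of `x` after the point -/
noncomputable def dsum (b : ℕ) (x : ℝ) (N : ℕ) : ℤ := ∑ i ∈ Icc 1 N, digit b x i

lemma digit_fract {b : ℕ} (x : ℝ) {i : ℕ} (hi : 1 ≤ i) :
    digit b x i = (Pool.Agent.H394R2.Ones.x b (Int.fract x) i : ℕ) := by
  unfold digit Pool.Agent.H394R2.Ones.x B
  have h1 : x * (b : ℝ) ^ i = Int.fract x * (b : ℝ) ^ i + ((⌊x⌋ * (b : ℤ) ^ i : ℤ) : ℝ) := by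
    push_cast
    rw [← add_mul, Int.fract_add_floor]
  rw [h1, Int.floor_add_intCast]
  have h2 : (0 : ℝ) ≤ Int.fract x * (b : ℝ) ^ i := mul_nonneg (Int.fract_nonneg x) (by positivity)
  rw [← Int.natCast_floor_eq_floor h2, Int.natCast_mod]
  obtain ⟨j, rfl⟩ : ∃ j, i = j + 1 := ⟨i - 1, by omega⟩
  rw [pow_succ (b : ℤ) j, ← mul_assoc, mul_comm _ (b : ℤ), Int.add_mul_emod_self_left]

lemma digit_neg {b : ℕ} (hb : 2 ≤ b) {x : ℝ} (hx : Irrational x) (i : ℕ) :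
    digit b (-x) i = b - 1 - digit b x i := by
  unfold digit
  have h0 : Irrational (x * ((b ^ i : ℕ) : ℝ)) := hx.mul_natCast (by positivity)
  have h1 : ⌊-x * (b : ℝ) ^ i⌋ = -⌊x * (b : ℝ) ^ i⌋ - 1 := by
    rw [Int.floor_eq_iff]
    have h2 := Int.floor_le (x * (b : ℝ) ^ i)
    have h3 := Int.lt_floor_add_one (x * (b : ℝ) ^ i)
    push_cast
    constructor
    · linarith
    · have h4 : (⌊x * (b : ℝ) ^ i⌋ : ℝ) ≠ x * (b : ℝ) ^ i := by
        intro h5
        apply h0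
        refine ⟨(⌊x * (b : ℝ) ^ i⌋ : ℚ), ?_⟩
        push_cast
        rw [h5]
      have h5 := lt_of_le_of_ne h2 h4
      linarith
  rw [h1]
  set f := ⌊x * (b : ℝ) ^ i⌋ with hf
  have hb0 : (0 : ℤ) < b := by exact_mod_cast (by omega : 0 < b)
  have h2 := Int.emod_add_mul_ediv f b
  have h3 := Int.emod_nonneg f hb0.ne'
  have h4 := Int.emod_lt_of_pos f hb0
  have h5 : -f - 1 = (b - 1 - f % b) + b * (-(f / b) - 1) := by linarith
  rw [h5, Int.add_mul_emod_self_left]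
  exact Int.emod_eq_of_lt (by omega) (by omega)

lemma cnt_neg {b : ℕ} (hb : 2 ≤ b) {x : ℝ} (hx : Irrational x) (N : ℕ) :
    cnt b 0 (-x) N = cnt b (b - 1) x N := by
  unfold cnt
  congr 1
  refine filter_congr fun i _ => ?_
  rw [digit_neg hb hx]
  constructor
  · intro h h1; apply h; rw [h1]; ring
  · intro h h1; apply h; linarith

lemma K_fract {b : ℕ} {x : ℝ} (hx : Irrational x) (N : ℕ) :
    (K b (Int.fract x) N : ℤ) = dsum b x N := by
  have h0 : 0 < Int.fract x := by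
    rw [Int.fract_pos]
    intro h
    apply hx
    exact ⟨(⌊x⌋ : ℚ), by push_cast; exact h.symm⟩
  unfold K dsum
  rw [sum_range_eq_add_Ico _ (by omega), x_zero h0 (Int.fract_lt_one x), zero_add]
  push_cast
  refine sum_congr ?_ fun i hi => ?_
  · ext i; simp only [mem_Ico, mem_Icc]; omega
  · exact (digit_fract x (mem_Ico.mp hi).1).symm

lemma dsum_le {b : ℕ} (hb : 2 ≤ b) (x : ℝ) (N : ℕ) :
    dsum b x N ≤ (b - 1) * cnt b 0 x N := by
  unfold dsum cnt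
  rw [card_filter]
  push_cast
  rw [mul_sum]
  refine sum_le_sum fun i _ => ?_
  have hb0 : (0 : ℤ) < b := by exact_mod_cast (by omega : 0 < b)
  have h4 : digit b x i < b := Int.emod_lt_of_pos _ hb0
  split_ifs with h
  · linarith
  · push Not at h
    rw [h]; simp

lemma dsum_nonneg {b : ℕ} (hb : 2 ≤ b) (x : ℝ) (N : ℕ) : 0 ≤ dsum b x N := by
  refine sum_nonneg fun i _ => ?_
  have hb0 : (0 : ℤ) < b := by exact_mod_cast (by omega : 0 < b)
  exact Int.emod_nonneg _ hb0.ne'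

variable {κ : Type} [Fintype κ]

lemma span_int {ω : κ → ℝ} {v : ℝ} (hv : v ∈ Submodule.span ℚ (insert 1 (Set.range ω))) :
    ∃ q : ℕ, 1 ≤ q ∧ ∃ (P0 : ℤ) (P : κ → ℤ), (q : ℝ) * v = P0 + ∑ k, (P k : ℝ) * ω k := by
  rw [Submodule.mem_span_insert] at hv
  obtain ⟨a, u, hu, rfl⟩ := hv
  rw [Submodule.mem_span_range_iff_exists_fun] at hu
  obtain ⟨c, rfl⟩ := hu
  have key : ∀ (r : ℚ) (q : ℕ), r.den ∣ q → ∃ p : ℤ, (q : ℝ) * (r : ℝ) = p := by
    rintro r q ⟨t, rfl⟩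
    refine ⟨t * r.num, ?_⟩
    have h := Rat.mul_den_eq_num r
    have h' : (r : ℝ) * (r.den : ℝ) = r.num := by exact_mod_cast h
    push_cast
    rw [← h']; ring
  refine ⟨a.den * ∏ k, (c k).den, ?_, ?_⟩
  · exact Nat.one_le_iff_ne_zero.mpr
      (mul_ne_zero a.den_nz (prod_ne_zero_iff.mpr fun k _ => (c k).den_nz))
  · obtain ⟨P0, hP0⟩ := key a (a.den * ∏ k, (c k).den) (Dvd.intro _ rfl)
    have h1 : ∀ k, ∃ p : ℤ, ((a.den * ∏ k, (c k).den : ℕ) : ℝ) * (c k : ℝ) = p := fun k =>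
      key (c k) _ (dvd_mul_of_dvd_right (dvd_prod_of_mem _ (mem_univ k)) _)
    choose P hP using h1
    refine ⟨P0, P, ?_⟩
    rw [mul_add, ← hP0, mul_sum]
    congr 1
    · rw [Rat.smul_def, mul_one]
    · refine sum_congr rfl fun k _ => ?_
      rw [← hP, Rat.smul_def]; ring

lemma fract_pos' {x : ℝ} (hx : Irrational x) : 0 < Int.fract x := by
  rw [Int.fract_pos]
  intro h
  apply hx
  exact ⟨(⌊x⌋ : ℚ), by push_cast; exact h.symm⟩

lemma fract_irr {x : ℝ} (hx : Irrational x) : Irrational (Int.fract x) := by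
  unfold Int.fract
  exact hx.sub_intCast _

lemma fract_alg {x : ℝ} (hx : IsAlgebraic ℚ x) : IsAlgebraic ℚ (Int.fract x) := by
  unfold Int.fract
  exact hx.sub (isAlgebraic_intCast _)

/-- the core theorem for arbitrary real numbers -/
theorem core' {b : ℕ} (hb : 2 ≤ b) {α : ℝ} (halg : IsAlgebraic ℚ α) (hirr : Irrational α)
    [Nonempty κ] {ω : κ → ℝ} (hω : ∀ k, Irrational (ω k)) {q : ℕ} (hq : 1 ≤ q) {P0 : ℤ}
    {P : κ → ℤ}
    (hrel : (q : ℝ) * (Int.fract α * ∑ k, Int.fract (ω k)) = P0 + ∑ k, (P k : ℝ) * ω k)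
    (η : ℝ) (hη : 0 < η) :
    ∀ᶠ N : ℕ in atTop,
      (1 - η) * ((b : ℝ) - 1) * N ≤ q * (dsum b α N : ℝ) * ∑ k, (dsum b (ω k) N : ℝ) := by
  have hz0 : ∀ k, 0 < Int.fract (ω k) := fun k => fract_pos' (hω k)
  have hz1 : ∀ k, Int.fract (ω k) < 1 := fun k => Int.fract_lt_one _
  have hrel' : (q : ℝ) * (Int.fract α * ∑ k, Int.fract (ω k)) =
      ((P0 + ∑ k, P k * ⌊ω k⌋ : ℤ) : ℝ) + ∑ k, (P k : ℝ) * Int.fract (ω k) := by
    rw [hrel]
    push_cast
    rw [add_assoc, ← sum_add_distrib]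
    congr 1
    refine sum_congr rfl fun k _ => ?_
    rw [← mul_add, Int.floor_add_fract]
  have hX : ∃ k, 1 ≤ X b (fun k => Int.fract (ω k)) k := by
    obtain ⟨k0⟩ := ‹Nonempty κ›
    obtain ⟨i, _, hi⟩ := exists_digit hb (hz0 k0) (fract_irr (hω k0)) 0
    refine ⟨i, hi.trans ?_⟩
    unfold X
    exact single_le_sum (f := fun k => Pool.Agent.H394R2.Ones.x b (Int.fract (ω k)) i) (fun k _ => Nat.zero_le _)
      (mem_univ k0)
  have h := core (z := fun k => Int.fract (ω k)) hb (fract_pos' hirr) (Int.fract_lt_one α)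
    (fract_alg halg) (fract_irr hirr) hz0 hz1 hq hrel' hX η hη
  filter_upwards [h] with N hN
  refine hN.trans (le_of_eq ?_)
  have h1 : (K b (Int.fract α) N : ℝ) = dsum b α N := by exact_mod_cast K_fract hirr N
  have h2 : (KX b (fun k => Int.fract (ω k)) N : ℝ) = ∑ k, (dsum b (ω k) N : ℝ) := by
    rw [KX_eq]
    push_cast
    refine sum_congr rfl fun k _ => ?_
    exact_mod_cast K_fract (hω k) N
  rw [h1, h2]

/-- explicit constants: a member of the family times the sum of the family -/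
theorem explicit {b : ℕ} (hb : 2 ≤ b) {ω : κ → ℝ} (hω : ∀ k, Irrational (ω k)) (j : κ)
    (halg : IsAlgebraic ℚ (ω j)) {q : ℕ} (hq : 1 ≤ q) {p0 : ℤ} {p : κ → ℤ}
    (hrel : (q : ℝ) * (ω j * ∑ k, ω k) = p0 + ∑ k, (p k : ℝ) * ω k)
    (η : ℝ) (hη : 0 < η) :
    ∀ᶠ N : ℕ in atTop,
      (1 - η) * ((b : ℝ) - 1) * N ≤ q * (dsum b (ω j) N : ℝ) * ∑ k, (dsum b (ω k) N : ℝ) := by
  classical
  have : Nonempty κ := ⟨j⟩
  set m : ℤ := ⌊ω j⌋ with hm
  set n : ℤ := ∑ k, ⌊ω k⌋ with hn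
  refine core' hb halg (hω j) hω hq (P0 := p0 + q * m * n)
    (P := fun k => p k - q * m - (if k = j then q * n else 0)) ?_ η hη
  have h1 : ∑ k, Int.fract (ω k) = ∑ k, ω k - n := by
    rw [hn]
    push_cast
    rw [← sum_sub_distrib]
    rfl
  have h2 : Int.fract (ω j) = ω j - m := rfl
  rw [h1, h2]
  have h3 : ∑ k, ((p k - q * m - (if k = j then q * n else 0) : ℤ) : ℝ) * ω k =
      ∑ k, (p k : ℝ) * ω k - q * m * ∑ k, ω k - q * n * ω j := by
    have h4 : ∀ k, ((p k - q * m - (if k = j then q * n else 0) : ℤ) : ℝ) * ω k =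
        (p k : ℝ) * ω k - q * m * ω k - (if k = j then (q * n : ℝ) * ω k else 0) := by
      intro k
      split_ifs <;> push_cast <;> ring
    rw [sum_congr rfl fun k _ => h4 k, sum_sub_distrib, sum_sub_distrib, ← mul_sum,
      sum_ite_eq' univ j, if_pos (mem_univ j)]
  rw [h3]
  push_cast
  linear_combination hrel

/-- general lemma for spans -/
theorem span_version {b : ℕ} (hb : 2 ≤ b) {α : ℝ} (halg : IsAlgebraic ℚ α) (hirr : Irrational α)
    {ω : κ → ℝ} (hω : ∀ k, Irrational (ω k))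
    (h1 : α ∈ Submodule.span ℚ (insert 1 (Set.range ω)))
    (h2 : α * ∑ k, ω k ∈ Submodule.span ℚ (insert 1 (Set.range ω))) :
    ∃ c : ℝ, 0 < c ∧ ∀ᶠ N : ℕ in atTop,
      c * N ≤ (cnt b 0 α N : ℝ) * ∑ k, (cnt b 0 (ω k) N : ℝ) := by
  have hne : Nonempty κ := by
    by_contra hcon
    rw [not_nonempty_iff] at hcon
    obtain ⟨q, hq, P0, P, h⟩ := span_int h1
    rw [univ_eq_empty, sum_empty, add_zero] at h
    have hq0 : (q : ℝ) ≠ 0 := by exact_mod_cast (by omega : q ≠ 0)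
    apply hirr
    refine ⟨(P0 : ℚ) / q, ?_⟩
    push_cast
    rw [← h]
    field_simp
  set V := Submodule.span ℚ (insert 1 (Set.range ω)) with hV
  have h3 : Int.fract α * ∑ k, Int.fract (ω k) ∈ V := by
    have hone : (1 : ℝ) ∈ V := Submodule.subset_span (Set.mem_insert _ _)
    have hωV : ∀ k, ω k ∈ V := fun k =>
      Submodule.subset_span (Set.mem_insert_of_mem _ ⟨k, rfl⟩)
    have hint : ∀ (m : ℤ) (v : ℝ), v ∈ V → (m : ℝ) * v ∈ V := by
      intro m v hv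
      have := V.smul_mem (m : ℚ) hv
      rw [Rat.smul_def] at this
      exact_mod_cast this
    have e : Int.fract α * ∑ k, Int.fract (ω k) = α * ∑ k, ω k -
        ((∑ k, ⌊ω k⌋ : ℤ) : ℝ) * α - (⌊α⌋ : ℝ) * ∑ k, ω k +
          ((⌊α⌋ * ∑ k, ⌊ω k⌋ : ℤ) : ℝ) * 1 := by
      have e1 : ∑ k, Int.fract (ω k) = ∑ k, ω k - ((∑ k, ⌊ω k⌋ : ℤ) : ℝ) := by
        push_cast
        rw [← sum_sub_distrib]
        rfl
      rw [e1]
      unfold Int.fract
      push_cast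
      ring
    rw [e]
    refine V.add_mem (V.sub_mem (V.sub_mem h2 (hint _ _ h1)) (hint _ _ ?_)) (hint _ _ hone)
    exact V.sum_mem fun k _ => hωV k
  obtain ⟨q, hq, P0, P, h4⟩ := span_int h3
  have h5 := core' hb halg hirr hω hq h4 (1 / 2) (by norm_num)
  have hbR : (2 : ℝ) ≤ b := by exact_mod_cast hb
  have hqR : (1 : ℝ) ≤ q := by exact_mod_cast hq
  refine ⟨1 / (2 * q * (b - 1)), by
    have : (0 : ℝ) < b - 1 := by linarith
    positivity, ?_⟩
  filter_upwards [h5] with N hN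
  have e1 : ∀ x : ℝ, (dsum b x N : ℝ) ≤ ((b : ℝ) - 1) * cnt b 0 x N := by
    intro x
    have := dsum_le hb x N
    exact_mod_cast this
  have e2 : ∀ x : ℝ, (0 : ℝ) ≤ dsum b x N := by
    intro x
    exact_mod_cast dsum_nonneg hb x N
  have e3 : ∑ k, (dsum b (ω k) N : ℝ) ≤ ((b : ℝ) - 1) * ∑ k, (cnt b 0 (ω k) N : ℝ) := by
    rw [mul_sum]
    exact sum_le_sum fun k _ => e1 (ω k)
  have e4 : (dsum b α N : ℝ) * ∑ k, (dsum b (ω k) N : ℝ) ≤
      (((b : ℝ) - 1) * cnt b 0 α N) * (((b : ℝ) - 1) * ∑ k, (cnt b 0 (ω k) N : ℝ)) := by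
    refine mul_le_mul (e1 α) e3 (sum_nonneg fun k _ => e2 _) ?_
    exact mul_nonneg (by linarith) (Nat.cast_nonneg _)
  have hpos : (0 : ℝ) < 2 * q * (b - 1) := by
    have : (0 : ℝ) < b - 1 := by linarith
    positivity
  rw [div_mul_eq_mul_div, one_mul, div_le_iff₀ hpos]
  have e5 := mul_le_mul_of_nonneg_left e4 (by linarith : (0 : ℝ) ≤ q)
  have e6 : ((b : ℝ) - 1) * N ≤ 2 * (q * ((((b : ℝ) - 1) * cnt b 0 α N) *
      (((b : ℝ) - 1) * ∑ k, (cnt b 0 (ω k) N : ℝ)))) := by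
    have : (1 - 1 / 2) * ((b : ℝ) - 1) * N = ((b : ℝ) - 1) * N / 2 := by ring
    rw [this, mul_assoc] at hN
    linarith
  have e7 : ((b : ℝ) - 1) * N ≤ ((b : ℝ) - 1) * ((cnt b 0 α N : ℝ) *
      (∑ k, (cnt b 0 (ω k) N : ℝ)) * (2 * q * (b - 1))) := by
    refine e6.trans (le_of_eq ?_)
    ring
  exact le_of_mul_le_mul_left e7 (by linarith)

end Pool.Agent.H726R3.Joint
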