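import Pool.Agent.H726R3.Joint3

/-!
# Digits of products, part 4: number fields and powers of an algebraic number
-/

set_option autoImplicit false
set_option linter.unusedSectionVars false

open Finset Filter Polynomial

namespace Pool.Agent.H726R3.Joint

open IntermediateField

variable {κ : Type} [Fintype κ]

lemma span_neg_le {ω ω' : κ → ℝ} (h : ∀ k, ω k = ω' k ∨ ω k = -ω' k) :
    Submodule.span ℚ (insert 1 (Set.range ω)) ≤ Submodule.span ℚ (insert 1 (Set.range ω')) := by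
  rw [Submodule.span_le]
  intro v hv
  rcases hv with rfl | ⟨k, rfl⟩
  · exact Submodule.subset_span (Set.mem_insert _ _)
  · have h1 : ω' k ∈ Submodule.span ℚ (insert 1 (Set.range ω')) :=
      Submodule.subset_span (Set.mem_insert_of_mem _ ⟨k, rfl⟩)
    rcases h k with h2 | h2
    · rw [h2]; exact h1
    · rw [h2]; exact Submodule.neg_mem _ h1

/-- number fields, arbitrary signs -/
theorem field_version {b : ℕ} (hb : 2 ≤ b) (K : IntermediateField ℚ ℝ) [FiniteDimensional ℚ K]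
    {ω : κ → ℝ} (hω : ∀ k, Irrational (ω k))
    (hspan : (Submodule.span ℚ (insert 1 (Set.range ω)) : Set ℝ) = (K : Set ℝ))
    {α : ℝ} (hα : α ∈ K) (hirr : Irrational α) {d : ℤ} {e : κ → ℤ}
    (hd : d = 0 ∨ d = b - 1) (he : ∀ k, e k = 0 ∨ e k = b - 1) :
    ∃ c : ℝ, 0 < c ∧ ∀ᶠ N : ℕ in atTop,
      c * N ≤ (cnt b d α N : ℝ) * ∑ k, (cnt b (e k) (ω k) N : ℝ) := by
  classical
  obtain ⟨α', hα', hirr', hcα⟩ : ∃ α' : ℝ, α' ∈ K ∧ Irrational α' ∧
      ∀ N, cnt b 0 α' N = cnt b d α N := by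
    rcases hd with rfl | rfl
    · exact ⟨α, hα, hirr, fun N => rfl⟩
    · exact ⟨-α, K.neg_mem hα, hirr.neg, fun N => cnt_neg hb hirr N⟩
  have h1 : ∀ k, ∃ w : ℝ, (w = ω k ∨ w = -ω k) ∧ Irrational w ∧
      ∀ N, cnt b 0 w N = cnt b (e k) (ω k) N := by
    intro k
    rcases he k with h | h
    · rw [h]; exact ⟨ω k, Or.inl rfl, hω k, fun N => rfl⟩
    · rw [h]; exact ⟨-ω k, Or.inr rfl, (hω k).neg, fun N => cnt_neg hb (hω k) N⟩
  choose ω' hω'1 hω'2 hω'3 using h1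
  have hle := span_neg_le (ω := ω) (ω' := ω') (fun k => by
    rcases hω'1 k with h | h
    · left; rw [h]
    · right; rw [h, neg_neg])
  have hmem : ∀ v ∈ K, v ∈ Submodule.span ℚ (insert 1 (Set.range ω')) := by
    intro v hv
    apply hle
    have : v ∈ (K : Set ℝ) := hv
    rw [← hspan] at this
    exact this
  have hωK : ∀ k, ω k ∈ K := by
    intro k
    have : ω k ∈ (Submodule.span ℚ (insert 1 (Set.range ω)) : Set ℝ) :=
      Submodule.subset_span (Set.mem_insert_of_mem _ ⟨k, rfl⟩)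
    rw [hspan] at this
    exact this
  have hω'K : ∀ k, ω' k ∈ K := by
    intro k
    rcases hω'1 k with h | h
    · rw [h]; exact hωK k
    · rw [h]; exact K.neg_mem (hωK k)
  have halg : IsAlgebraic ℚ α' := by
    have h2 : IsAlgebraic ℚ (⟨α', hα'⟩ : K) := Algebra.IsAlgebraic.isAlgebraic _
    exact h2.algebraMap (A := ℝ)
  obtain ⟨c, hc, h⟩ := span_version hb halg hirr' hω'2 (hmem _ hα')
    (hmem _ (K.mul_mem hα' (K.sum_mem fun k _ => hω'K k)))
  refine ⟨c, hc, ?_⟩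
  filter_upwards [h] with N hN
  rw [hcα] at hN
  refine hN.trans (le_of_eq ?_)
  congr 1
  exact sum_congr rfl fun k _ => by rw [hω'3]

/-- from the product bound to the maximum -/
lemma max_of_sq {f : κ → ℕ → ℕ} (j : κ) {c : ℝ} (hc : 0 < c)
    (h : ∀ᶠ N : ℕ in atTop, c * N ≤ (f j N : ℝ) * ∑ k, (f k N : ℝ)) :
    ∃ c' : ℝ, 0 < c' ∧ ∀ᶠ N : ℕ in atTop, ∃ k, c' * Real.sqrt N ≤ f k N := by
  have hr : (0 : ℝ) < Fintype.card κ := by
    have : 0 < Fintype.card κ := Fintype.card_pos_iff.mpr ⟨j⟩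
    exact_mod_cast this
  refine ⟨Real.sqrt c / Fintype.card κ, div_pos (Real.sqrt_pos.mpr hc) hr, ?_⟩
  filter_upwards [h] with N hN
  by_contra hcon
  push Not at hcon
  set S : ℝ := ∑ k, (f k N : ℝ) with hS
  have h1 : S < Real.sqrt c * Real.sqrt N := by
    calc S < ∑ _k : κ, Real.sqrt c / Fintype.card κ * Real.sqrt N :=
          sum_lt_sum_of_nonempty ⟨j, mem_univ j⟩ fun k _ => hcon k
      _ = Real.sqrt c * Real.sqrt N := by
          rw [sum_const, card_univ, nsmul_eq_mul]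
          field_simp
  have h2 : (f j N : ℝ) ≤ S :=
    single_le_sum (f := fun k => (f k N : ℝ)) (fun k _ => Nat.cast_nonneg _) (mem_univ j)
  have h0 : (0 : ℝ) ≤ f j N := Nat.cast_nonneg _
  have hS0 : 0 ≤ S := h0.trans h2
  have h3 : c * N ≤ S * S := hN.trans (mul_le_mul_of_nonneg_right h2 hS0)
  have h4 : S * S < (Real.sqrt c * Real.sqrt N) * (Real.sqrt c * Real.sqrt N) :=
    mul_self_lt_mul_self hS0 h1
  have h5 : (Real.sqrt c * Real.sqrt N) * (Real.sqrt c * Real.sqrt N) = c * N := by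
    have e1 := Real.mul_self_sqrt hc.le
    have e2 := Real.mul_self_sqrt (Nat.cast_nonneg N : (0 : ℝ) ≤ (N : ℝ))
    calc _ = (Real.sqrt c * Real.sqrt c) * (Real.sqrt N * Real.sqrt N) := by ring
      _ = c * N := by rw [e1, e2]
  linarith

/-- in a real number field, some member of every spanning family has many nonzero digits -/
theorem field_max {b : ℕ} (hb : 2 ≤ b) (K : IntermediateField ℚ ℝ) [FiniteDimensional ℚ K]
    [Nonempty κ] {ω : κ → ℝ} (hω : ∀ k, Irrational (ω k))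
    (hspan : (Submodule.span ℚ (insert 1 (Set.range ω)) : Set ℝ) = (K : Set ℝ)) {e : κ → ℤ}
    (he : ∀ k, e k = 0 ∨ e k = b - 1) :
    ∃ c : ℝ, 0 < c ∧ ∀ᶠ N : ℕ in atTop, ∃ k, c * Real.sqrt N ≤ cnt b (e k) (ω k) N := by
  obtain ⟨j⟩ := ‹Nonempty κ›
  have hωK : ω j ∈ K := by
    have : ω j ∈ (Submodule.span ℚ (insert 1 (Set.range ω)) : Set ℝ) :=
      Submodule.subset_span (Set.mem_insert_of_mem _ ⟨j, rfl⟩)
    rw [hspan] at this
    exact this
  obtain ⟨c, hc, h⟩ := field_version hb K hω hspan hωK (hω j) (he j) he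
  exact max_of_sq (f := fun k N => cnt b (e k) (ω k) N) j hc h

/-! ### powers -/

lemma pow_irr {α : ℝ} (halg : IsAlgebraic ℚ α) {k : ℕ} (hk1 : 1 ≤ k)
    (hk2 : k < (minpoly ℚ α).natDegree) : Irrational (α ^ k) := by
  rintro ⟨r, hr⟩
  have h1 : (Polynomial.X ^ k - C r : ℚ[X]) ≠ 0 := X_pow_sub_C_ne_zero (by omega) r
  have h2 : aeval α (Polynomial.X ^ k - C r : ℚ[X]) = 0 := by
    simp [← hr]
  have h3 := natDegree_le_of_dvd (minpoly.dvd ℚ α h2) h1
  rw [natDegree_X_pow_sub_C] at h3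
  omega

lemma two_le_deg {α : ℝ} (halg : IsAlgebraic ℚ α) (hirr : Irrational α) :
    2 ≤ (minpoly ℚ α).natDegree := by
  have h1 : 0 < (minpoly ℚ α).natDegree := minpoly.natDegree_pos halg.isIntegral
  by_contra h
  have h2 : (minpoly ℚ α).natDegree = 1 := by omega
  rw [minpoly.natDegree_eq_one_iff] at h2
  obtain ⟨r, hr⟩ := h2
  exact hirr ⟨r, by simpa using hr⟩

lemma aeval_mem {α : ℝ} (halg : IsAlgebraic ℚ α) (p : ℚ[X]) :
    aeval α p ∈ Submodule.span ℚ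
      (insert 1 (Set.range fun k : Fin ((minpoly ℚ α).natDegree - 1) => α ^ (k.1 + 1))) := by
  set V := Submodule.span ℚ
      (insert 1 (Set.range fun k : Fin ((minpoly ℚ α).natDegree - 1) => α ^ (k.1 + 1))) with hV
  have hmon := minpoly.monic halg.isIntegral
  rw [← aeval_modByMonic_eq_self_of_root (minpoly.aeval ℚ α)]
  have hpos : 0 < (minpoly ℚ α).natDegree := minpoly.natDegree_pos halg.isIntegral
  have hdeg : (p %ₘ minpoly ℚ α).natDegree < (minpoly ℚ α).natDegree :=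
    natDegree_modByMonic_lt p hmon (minpoly.ne_one ℚ α)
  rw [aeval_eq_sum_range' hdeg]
  refine V.sum_mem fun i hi => V.smul_mem _ ?_
  have hi' := mem_range.mp hi
  rcases Nat.eq_zero_or_pos i with rfl | hi0
  · rw [pow_zero]; exact Submodule.subset_span (Set.mem_insert _ _)
  · refine Submodule.subset_span (Set.mem_insert_of_mem _ ⟨⟨i - 1, by omega⟩, ?_⟩)
    simp only
    rw [Nat.sub_add_cancel hi0]

lemma adjoin_mem {α : ℝ} (halg : IsAlgebraic ℚ α) {v : ℝ} (hv : v ∈ ℚ⟮α⟯) :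
    ∃ p : ℚ[X], aeval α p = v := by
  have h1 : v ∈ ℚ⟮α⟯.toSubalgebra := hv
  rw [adjoin_simple_toSubalgebra_of_isAlgebraic halg,
    Algebra.adjoin_singleton_eq_range_aeval] at h1
  obtain ⟨p, hp⟩ := h1
  exact ⟨p, hp⟩

lemma span_pow {α : ℝ} (halg : IsAlgebraic ℚ α) :
    (Submodule.span ℚ (insert 1 (Set.range
      fun k : Fin ((minpoly ℚ α).natDegree - 1) => α ^ (k.1 + 1))) : Set ℝ) =
      (ℚ⟮α⟯ : Set ℝ) := by
  apply Set.Subset.antisymm
  · intro v hv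
    have h1 : Submodule.span ℚ (insert 1 (Set.range
      fun k : Fin ((minpoly ℚ α).natDegree - 1) => α ^ (k.1 + 1))) ≤
        Subalgebra.toSubmodule ℚ⟮α⟯.toSubalgebra := by
      rw [Submodule.span_le]
      rintro w (rfl | ⟨k, rfl⟩)
      · exact ℚ⟮α⟯.one_mem
      · exact ℚ⟮α⟯.pow_mem (mem_adjoin_simple_self ℚ α) (k.1 + 1)
    exact h1 hv
  · intro v hv
    obtain ⟨p, rfl⟩ := adjoin_mem halg hv
    exact aeval_mem halg p

lemma sum_fin_Icc (D : ℕ) (f : ℕ → ℝ) :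
    ∑ k : Fin (D - 1), f (k.1 + 1) = ∑ k ∈ Icc 1 (D - 1), f k := by
  rw [Fin.sum_univ_eq_sum_range (fun k => f (k + 1)) (D - 1)]
  refine sum_bij (fun i _ => i + 1) ?_ ?_ ?_ ?_
  · intro i hi
    have := mem_range.mp hi
    simp only [mem_Icc]; omega
  · intro i _ j _ h
    simpa using h
  · intro k hk
    have := mem_Icc.mp hk
    exact ⟨k - 1, mem_range.mpr (by omega), by omega⟩
  · intro i _
    rfl

/-- powers of an algebraic number -/
theorem power_version {b : ℕ} (hb : 2 ≤ b) {α : ℝ} (halg : IsAlgebraic ℚ α)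
    {θ : ℝ} (hθ : θ ∈ ℚ⟮α⟯) (hirr : Irrational θ) {d : ℤ} {e : ℕ → ℤ}
    (hd : d = 0 ∨ d = b - 1) (he : ∀ k, e k = 0 ∨ e k = b - 1) :
    ∃ c : ℝ, 0 < c ∧ ∀ᶠ N : ℕ in atTop,
      c * N ≤ (cnt b d θ N : ℝ) *
        ∑ k ∈ Icc 1 ((minpoly ℚ α).natDegree - 1), (cnt b (e k) (α ^ k) N : ℝ) := by
  have : FiniteDimensional ℚ ℚ⟮α⟯ := adjoin.finiteDimensional halg.isIntegral
  obtain ⟨c, hc, h⟩ := field_version hb ℚ⟮α⟯
    (ω := fun k : Fin ((minpoly ℚ α).natDegree - 1) => α ^ (k.1 + 1))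
    (fun k => pow_irr halg (by omega) (by have := k.2; omega)) (span_pow halg) hθ hirr hd
    (e := fun k => e (k.1 + 1)) (fun k => he _)
  refine ⟨c, hc, ?_⟩
  filter_upwards [h] with N hN
  rw [← sum_fin_Icc _ (fun k => (cnt b (e k) (α ^ k) N : ℝ))]
  exact hN

theorem power_max {b : ℕ} (hb : 2 ≤ b) {α : ℝ} (halg : IsAlgebraic ℚ α)
    (hirr : Irrational α) {e : ℕ → ℤ} (he : ∀ k, e k = 0 ∨ e k = b - 1) :
    ∃ c : ℝ, 0 < c ∧ ∀ᶠ N : ℕ in atTop, ∃ k, 1 ≤ k ∧ k < (minpoly ℚ α).natDegree ∧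
      c * Real.sqrt N ≤ cnt b (e k) (α ^ k) N := by
  have : FiniteDimensional ℚ ℚ⟮α⟯ := adjoin.finiteDimensional halg.isIntegral
  have h2 := two_le_deg halg hirr
  have : Nonempty (Fin ((minpoly ℚ α).natDegree - 1)) := ⟨⟨0, by omega⟩⟩
  obtain ⟨c, hc, h⟩ := field_max hb ℚ⟮α⟯
    (ω := fun k : Fin ((minpoly ℚ α).natDegree - 1) => α ^ (k.1 + 1))
    (fun k => pow_irr halg (by omega) (by have := k.2; omega)) (span_pow halg)
    (e := fun k => e (k.1 + 1)) (fun k => he _)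
  refine ⟨c, hc, ?_⟩
  filter_upwards [h] with N hN
  obtain ⟨k, hk⟩ := hN
  exact ⟨k.1 + 1, by omega, by have := k.2; omega, hk⟩

end Pool.Agent.H726R3.Joint
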