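import Pool.Agent.H820R3.DG.Gap
import Pool.Agent.H726R3.Joint3

/-!
# Non-zero digits of a real number and of its square
-/

set_option autoImplicit false
set_option linter.unusedSectionVars false
set_option linter.unusedVariables false

open Finset Filter

namespace Pool.Agent.H726R3.Sq

open Pool.Agent.H394R2.Ones (B ep T S K K_mono T_eq T_le T_pos R R_eq K_sq ep_lt ep_nonneg Q)
open Pool.Agent.H820R3.DG (ep_small ep_zeros T_ge)
open Pool.Agent.H726R3.Joint (digit cnt fract_pos' fract_irr)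

open Pool.Agent.H394R2

lemma mod_rel (b : ℕ) (x : ℝ) (n : ℕ) : ∃ Z : ℤ,
    T b (Int.fract x) n + 2 * (⌊x⌋ : ℝ) * ep b (Int.fract x) n =
      ep b (Int.fract (x ^ 2)) n + Z := by
  refine ⟨(B b (Int.fract (x ^ 2)) n : ℤ) + ⌊x ^ 2⌋ * (b : ℤ) ^ n - (S b (Int.fract x) n : ℤ)
    - 2 * ⌊x⌋ * (B b (Int.fract x) n : ℤ) - ⌊x⌋ ^ 2 * (b : ℤ) ^ n, ?_⟩
  have hx : Int.fract x = x - ⌊x⌋ := rfl
  have hx2 : Int.fract (x ^ 2) = x ^ 2 - ⌊x ^ 2⌋ := rfl
  unfold T ep
  push_cast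
  generalize (B b (Int.fract (x ^ 2)) n : ℝ) = B1
  generalize (B b (Int.fract x) n : ℝ) = B2
  generalize (S b (Int.fract x) n : ℝ) = S1
  rw [hx, hx2]
  ring

section
variable {b : ℕ} {x : ℝ} {τ L0 cm : ℕ}

lemma step2 (hb : 2 ≤ b) (hx : Irrational x)
    (H : ∀ L, L0 ≤ L → 1 ≤ (b : ℝ) ^ (τ * L) * ep b (Int.fract x) L)
    (hcm : 4 * |(⌊x⌋ : ℝ)| ≤ (b : ℝ) ^ cm)
    {s n e : ℕ} (hs : 1 ≤ Ones.x b (Int.fract x) s)
    (hfree : ∀ k, s < k → k < e → Ones.x b (Int.fract x) k = 0)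
    (hsn : s + L0 ≤ n) (hT : T b (Int.fract x) n < 1 / 2)
    (hlong : n + τ * (n - s) + cm < e) :
    ∃ k, n < k ∧ k ≤ n + τ * (n - s) + 1 ∧ 1 ≤ Ones.x b (Int.fract (x ^ 2)) k := by
  have hy0 : 0 < Int.fract x := fract_pos' hx
  have hy1 : Int.fract x < 1 := Int.fract_lt_one x
  have hb2 : (2 : ℝ) ≤ b := by exact_mod_cast hb
  have hep := ep_small (y := Int.fract x) hb n (τ * (n - s) + cm)
    (fun k h1 h2 => hfree k (by omega) (by omega))
  have hT1 := T_ge hb hy0 hy1 (m := n) (i := s) (by omega) hs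
  have hH := H (n - s) (by omega)
  have hp : (0 : ℝ) < (b : ℝ) ^ (τ * (n - s)) := by positivity
  have hT2 : 1 ≤ (b : ℝ) ^ (τ * (n - s)) * T b (Int.fract x) n :=
    le_trans hH (mul_le_mul_of_nonneg_left hT1 hp.le)
  have hen : 0 ≤ ep b (Int.fract x) n := ep_nonneg hy0 n
  have h3 : (b : ℝ) ^ cm * ep b (Int.fract x) n ≤ T b (Int.fract x) n := by
    rw [pow_add, mul_assoc] at hep
    exact (lt_of_mul_lt_mul_left (lt_of_lt_of_le hep hT2) hp.le).le
  have h4 : 4 * |(⌊x⌋ : ℝ)| * ep b (Int.fract x) n ≤ T b (Int.fract x) n :=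
    le_trans (mul_le_mul_of_nonneg_right hcm hen) h3
  have h5 : |2 * (⌊x⌋ : ℝ) * ep b (Int.fract x) n| ≤ T b (Int.fract x) n / 2 := by
    rw [abs_mul, abs_mul, abs_of_nonneg hen, abs_of_pos (by norm_num : (0 : ℝ) < 2)]
    linarith
  obtain ⟨Z, hZ⟩ := mod_rel b x n
  have h6 := abs_le.mp h5
  have h7 : ep b (Int.fract (x ^ 2)) n < 1 := ep_lt n
  have h8 : 0 ≤ ep b (Int.fract (x ^ 2)) n := by
    unfold ep B
    have := Nat.floor_le (a := Int.fract (x ^ 2) * (b : ℝ) ^ n)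
      (mul_nonneg (Int.fract_nonneg _) (by positivity))
    linarith
  have hT0 : 0 < T b (Int.fract x) n := by
    by_contra hcon
    push Not at hcon
    have : (b : ℝ) ^ (τ * (n - s)) * T b (Int.fract x) n ≤ 0 :=
      mul_nonpos_of_nonneg_of_nonpos hp.le hcon
    linarith
  have hZ1 : (-1 : ℝ) < Z := by linarith [h6.1]
  have hZ2 : (Z : ℝ) < 1 := by linarith [h6.2]
  have hZ0 : Z = 0 := by
    have h9 : (-1 : ℤ) < Z := by exact_mod_cast hZ1
    have h10 : Z < 1 := by exact_mod_cast hZ2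
    omega
  rw [hZ0, Int.cast_zero, add_zero] at hZ
  by_contra hcon
  push Not at hcon
  have h11 := ep_small (y := Int.fract (x ^ 2)) hb n (τ * (n - s) + 1)
    (fun k h1 h2 => by
      have := hcon k h1 (by omega)
      omega)
  rw [← hZ, pow_succ] at h11
  have h12 : T b (Int.fract x) n / 2 ≤
      T b (Int.fract x) n + 2 * (⌊x⌋ : ℝ) * ep b (Int.fract x) n := by linarith [h6.1]
  have h13 : (b : ℝ) ^ (τ * (n - s)) * b * (T b (Int.fract x) n / 2) ≤
      (b : ℝ) ^ (τ * (n - s)) * b *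
        (T b (Int.fract x) n + 2 * (⌊x⌋ : ℝ) * ep b (Int.fract x) n) :=
    mul_le_mul_of_nonneg_left h12 (by positivity)
  have h14 : (b : ℝ) ^ (τ * (n - s)) * b * (T b (Int.fract x) n / 2) =
      (b : ℝ) / 2 * ((b : ℝ) ^ (τ * (n - s)) * T b (Int.fract x) n) := by ring
  nlinarith

lemma spoils (hb : 2 ≤ b) {y : ℝ} (hy0 : 0 < y) (hy1 : y < 1) (hirr : Irrational y) (N : ℕ) :
    ((range N).filter (fun n => 1 / 2 ≤ T b y n)).card ≤ 2 * (K b y N + 1) ^ 2 := by
  have hb2 : (2 : ℝ) ≤ b := by exact_mod_cast hb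
  have h1 := R_eq hb hy0 hy1 N
  have h2 : (R b y N : ℝ) ≤ (K b y N : ℝ) ^ 2 := by
    have := K_sq (b := b) (y := y) N
    have h : R b y N ≤ K b y N ^ 2 := by omega
    exact_mod_cast h
  have h3 := T_le hb hy0 hy1 (b := b) N
  have h4 := T_pos hb hy0 hy1 hirr 0
  have h5 : (((range N).filter (fun n => 1 / 2 ≤ T b y n)).card : ℝ) * (1 / 2) ≤
      ∑ m ∈ range N, T b y m := by
    calc (((range N).filter (fun n => 1 / 2 ≤ T b y n)).card : ℝ) * (1 / 2)
        = ∑ m ∈ (range N).filter (fun n => 1 / 2 ≤ T b y n), (1 / 2 : ℝ) := by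
          rw [sum_const, nsmul_eq_mul]
      _ ≤ ∑ m ∈ (range N).filter (fun n => 1 / 2 ≤ T b y n), T b y m :=
          sum_le_sum fun m hm => (mem_filter.mp hm).2
      _ ≤ ∑ m ∈ range N, T b y m :=
          sum_le_sum_of_subset_of_nonneg (filter_subset _ _)
            fun m _ _ => (T_pos hb hy0 hy1 hirr m).le
  have h0 : 0 ≤ ∑ m ∈ range N, T b y m :=
    sum_nonneg fun m _ => (T_pos hb hy0 hy1 hirr m).le
  have hK0 : (0 : ℝ) ≤ K b y N := Nat.cast_nonneg _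
  have h6 : (((range N).filter (fun n => 1 / 2 ≤ T b y n)).card : ℝ) ≤
      2 * ((K b y N : ℝ) + 1) ^ 2 := by nlinarith
  exact_mod_cast h6

/-- one digit of the square -/
lemma one_digit (hb : 2 ≤ b) (hx : Irrational x)
    (H : ∀ L, L0 ≤ L → 1 ≤ (b : ℝ) ^ (τ * L) * ep b (Int.fract x) L)
    (hcm : 4 * |(⌊x⌋ : ℝ)| ≤ (b : ℝ) ^ cm)
    {s e N R h : ℕ} (hs : 1 ≤ Ones.x b (Int.fract x) s)
    (hfree : ∀ k, s < k → k < e → Ones.x b (Int.fract x) k = 0) (heN : e ≤ N)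
    (hR : 2 * τ + 3 ≤ R) (hL : L0 ≤ R ^ h) (hc : cm + 2 ≤ R ^ h)
    (hsp : ((range N).filter (fun n => 1 / 2 ≤ T b (Int.fract x) n)).card < R ^ h)
    {g : ℕ} (hg : h ≤ g) (hge : s + R ^ (g + 1) ≤ e) :
    ∃ k, s + R ^ g < k ∧ k ≤ s + R ^ (g + 1) ∧ 1 ≤ Ones.x b (Int.fract (x ^ 2)) k := by
  have hRg : R ^ h ≤ R ^ g := Nat.pow_le_pow_right (by omega) hg
  have hRg1 : (2 * τ + 3) * R ^ g ≤ R ^ (g + 1) := by
    rw [pow_succ, mul_comm (R ^ g)]
    exact Nat.mul_le_mul_right _ hR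
  have e1 : (2 * τ + 3) * R ^ g = 2 * (τ * R ^ g) + 3 * R ^ g := by ring
  have hex : ∃ n, s + R ^ g ≤ n ∧ n < s + R ^ g + R ^ h ∧ T b (Int.fract x) n < 1 / 2 := by
    by_contra hcon
    push Not at hcon
    have h1 : Ico (s + R ^ g) (s + R ^ g + R ^ h) ⊆
        (range N).filter (fun n => 1 / 2 ≤ T b (Int.fract x) n) := by
      intro n hn
      rw [mem_Ico] at hn
      rw [mem_filter, mem_range]
      exact ⟨by omega, hcon n hn.1 hn.2⟩
    have h2 := card_le_card h1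
    rw [Nat.card_Ico] at h2
    omega
  obtain ⟨n, hn1, hn2, hn3⟩ := hex
  have h5 : τ * (n - s) + τ ≤ 2 * (τ * R ^ g) := by
    have : n - s + 1 ≤ 2 * R ^ g := by omega
    calc τ * (n - s) + τ = τ * (n - s + 1) := by ring
      _ ≤ τ * (2 * R ^ g) := Nat.mul_le_mul_left _ this
      _ = 2 * (τ * R ^ g) := by ring
  obtain ⟨k, hk1, hk2, hk3⟩ := step2 hb hx H hcm hs hfree (n := n) (by omega) hn3 (by omega)
  exact ⟨k, by omega, by omega, hk3⟩

/-- many digits of the square in a long gap -/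
lemma lemA (hb : 2 ≤ b) (hx : Irrational x)
    (H : ∀ L, L0 ≤ L → 1 ≤ (b : ℝ) ^ (τ * L) * ep b (Int.fract x) L)
    (hcm : 4 * |(⌊x⌋ : ℝ)| ≤ (b : ℝ) ^ cm)
    {s e N R h : ℕ} (hs : 1 ≤ Ones.x b (Int.fract x) s)
    (hfree : ∀ k, s < k → k < e → Ones.x b (Int.fract x) k = 0) (heN : e ≤ N)
    (hR : 2 * τ + 3 ≤ R) (hL : L0 ≤ R ^ h) (hc : cm + 2 ≤ R ^ h)
    (hsp : ((range N).filter (fun n => 1 / 2 ≤ T b (Int.fract x) n)).card < R ^ h) :
    ∀ d : ℕ, s + R ^ (h + d) ≤ e →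
      d ≤ ((Ioc s (s + R ^ (h + d))).filter (fun k => 1 ≤ Ones.x b (Int.fract (x ^ 2)) k)).card := by
  intro d
  induction d with
  | zero => intro _; exact Nat.zero_le _
  | succ d ih =>
    intro hd
    have hle : R ^ (h + d) ≤ R ^ (h + (d + 1)) := Nat.pow_le_pow_right (by omega) (by omega)
    have h1 := ih (by omega)
    obtain ⟨k, hk1, hk2, hk3⟩ := one_digit hb hx H hcm hs hfree heN hR hL hc hsp
      (g := h + d) (by omega) hd
    have hk2' : k ≤ s + R ^ (h + (d + 1)) := hk2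
    have h2 : insert k ((Ioc s (s + R ^ (h + d))).filter
        (fun k => 1 ≤ Ones.x b (Int.fract (x ^ 2)) k)) ⊆
        (Ioc s (s + R ^ (h + (d + 1)))).filter (fun k => 1 ≤ Ones.x b (Int.fract (x ^ 2)) k) := by
      intro q hq
      rw [mem_insert] at hq
      rw [mem_filter, mem_Ioc]
      rcases hq with rfl | hq
      · exact ⟨⟨by omega, hk2'⟩, hk3⟩
      · rw [mem_filter, mem_Ioc] at hq
        exact ⟨⟨hq.1.1, by omega⟩, hq.2⟩
    have h3 : k ∉ (Ioc s (s + R ^ (h + d))).filter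
        (fun k => 1 ≤ Ones.x b (Int.fract (x ^ 2)) k) := by
      intro hq
      rw [mem_filter, mem_Ioc] at hq
      omega
    have h4 := card_le_card h2
    rw [card_insert_of_notMem h3] at h4
    omega

lemma supp_card (b : ℕ) (y : ℝ) (N : ℕ) :
    ((range (N + 1)).filter (fun k => 1 ≤ Ones.x b y k)).card ≤ K b y N := by
  unfold K
  rw [card_filter]
  refine sum_le_sum fun k _ => ?_
  split_ifs with h
  · exact h
  · exact Nat.zero_le _

/-- a long gap in a window -/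
lemma lemB (hb : 2 ≤ b) {y : ℝ} (H : ∀ L, L0 ≤ L → 1 ≤ (b : ℝ) ^ (τ * L) * ep b y L)
    {R t j N : ℕ} (hR : τ + 3 ≤ R) (hK : K b y N + 1 ≤ R ^ t) (htj : t ≤ j + 1)
    (hL : L0 ≤ R ^ j) (hN : R ^ (j + 2) ≤ N) :
    ∃ s e, R ^ j < s ∧ 1 ≤ Ones.x b y s ∧ (∀ k, s < k → k < e → Ones.x b y k = 0) ∧
      s + R ^ (j + 1 - t) ≤ e ∧ e ≤ R ^ (j + 2) := by
  classical
  have hR0 : 0 < R := by omega
  have hjj : R ^ t * R ^ (j + 1 - t) = R ^ (j + 1) := by
    rw [← pow_add]; congr 1; omega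
  have hj2 : 2 * R ^ (j + 1) ≤ R ^ (j + 2) := by
    rw [pow_succ R (j + 1), mul_comm (R ^ (j + 1))]
    exact Nat.mul_le_mul_right _ (by omega)
  have hj1 : (τ + 3) * R ^ j ≤ R ^ (j + 1) := by
    rw [pow_succ, mul_comm (R ^ j)]
    exact Nat.mul_le_mul_right _ hR
  have hex : ∃ i, i < R ^ t ∧ ∀ k, R ^ (j + 1) + i * R ^ (j + 1 - t) ≤ k →
      k < R ^ (j + 1) + (i + 1) * R ^ (j + 1 - t) → Ones.x b y k = 0 := by
    by_contra hcon
    push Not at hcon
    have hall : ∀ i : ℕ, ∃ k, i < R ^ t → (R ^ (j + 1) + i * R ^ (j + 1 - t) ≤ k ∧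
        k < R ^ (j + 1) + (i + 1) * R ^ (j + 1 - t) ∧ Ones.x b y k ≠ 0) := by
      intro i
      by_cases hi : i < R ^ t
      · obtain ⟨k, h1, h2, h3⟩ := hcon i hi
        exact ⟨k, fun _ => ⟨h1, h2, h3⟩⟩
      · exact ⟨0, fun h => absurd h hi⟩
    choose f hf using hall
    have hcard : (range (R ^ t)).card ≤
        ((range (N + 1)).filter (fun k => 1 ≤ Ones.x b y k)).card := by
      refine card_le_card_of_injOn f ?_ ?_
      · intro i hi
        have hi' : i < R ^ t := mem_range.mp hi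
        obtain ⟨h1, h2, h3⟩ := hf i hi'
        have h4 : (i + 1) * R ^ (j + 1 - t) ≤ R ^ (j + 1) := by
          rw [← hjj]
          exact Nat.mul_le_mul_right _ hi'
        refine mem_coe.mpr (mem_filter.mpr ⟨mem_range.mpr (by omega), by omega⟩)
      · intro i hi i' hi' heq
        have hi1 : i < R ^ t := mem_range.mp hi
        have hi2 : i' < R ^ t := mem_range.mp hi'
        obtain ⟨h1, h2, _⟩ := hf i hi1
        obtain ⟨h3, h4, _⟩ := hf i' hi2
        rcases lt_trichotomy i i' with hlt | heq' | hgt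
        · exfalso
          have : (i + 1) * R ^ (j + 1 - t) ≤ i' * R ^ (j + 1 - t) :=
            Nat.mul_le_mul_right _ hlt
          omega
        · exact heq'
        · exfalso
          have : (i' + 1) * R ^ (j + 1 - t) ≤ i * R ^ (j + 1 - t) :=
            Nat.mul_le_mul_right _ hgt
          omega
    rw [card_range] at hcard
    have := supp_card b y N
    omega
  obtain ⟨i, hi, hfree⟩ := hex
  have hgap : ∃ k, R ^ j < k ∧ k ≤ R ^ j + τ * R ^ j ∧ 1 ≤ Ones.x b y k := by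
    by_contra hcon
    push Not at hcon
    have h1 := ep_small (y := y) hb (R ^ j) (τ * R ^ j) (fun k h1 h2 => by
      have := hcon k h1 h2
      omega)
    have h2 := H (R ^ j) hL
    linarith
  obtain ⟨k0, hk1, hk2, hk3⟩ := hgap
  have e3 : (τ + 3) * R ^ j = τ * R ^ j + 3 * R ^ j := by ring
  have hRj : 0 < R ^ j := by positivity
  set A := R ^ (j + 1) + i * R ^ (j + 1 - t) with hA
  have hne : ((range A).filter (fun k => 1 ≤ Ones.x b y k)).Nonempty :=
    ⟨k0, mem_filter.mpr ⟨mem_range.mpr (by omega), hk3⟩⟩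
  set s := ((range A).filter (fun k => 1 ≤ Ones.x b y k)).max' hne with hs
  have hs1 := max'_mem _ hne
  rw [← hs, mem_filter, mem_range] at hs1
  have hk0m : k0 ∈ (range A).filter (fun k => 1 ≤ Ones.x b y k) :=
    mem_filter.mpr ⟨mem_range.mpr (by omega), hk3⟩
  have hs2 : k0 ≤ s := le_max' _ _ hk0m
  have e4 : (i + 1) * R ^ (j + 1 - t) = i * R ^ (j + 1 - t) + R ^ (j + 1 - t) := by ring
  have h6 : (i + 1) * R ^ (j + 1 - t) ≤ R ^ (j + 1) := by
    rw [← hjj]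
    exact Nat.mul_le_mul_right _ hi
  refine ⟨s, R ^ (j + 1) + (i + 1) * R ^ (j + 1 - t), by omega, hs1.2, ?_, by omega, by omega⟩
  intro k hk1' hk2'
  by_cases hkA : k < A
  · by_contra hne0
    have hkm : k ∈ (range A).filter (fun k => 1 ≤ Ones.x b y k) :=
      mem_filter.mpr ⟨mem_range.mpr hkA, by omega⟩
    have : k ≤ s := le_max' _ _ hkm
    omega
  · exact hfree k (by omega) hk2'

/-- the windows together -/
theorem windows (hb : 2 ≤ b) (hx : Irrational x)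
    (H : ∀ L, L0 ≤ L → 1 ≤ (b : ℝ) ^ (τ * L) * ep b (Int.fract x) L)
    (hcm : 4 * |(⌊x⌋ : ℝ)| ≤ (b : ℝ) ^ cm) {R t u N : ℕ} (hR : 2 * τ + 3 + L0 + (cm + 2) ≤ R)
    (hu : 1 ≤ u) (hK : K b (Int.fract x) N + 1 ≤ R ^ t) (hN : R ^ (3 * t + 4 * u) ≤ N) :
    u * u ≤ ((Ioc 0 N).filter (fun k => 1 ≤ Ones.x b (Int.fract (x ^ 2)) k)).card := by
  classical
  have hy0 : 0 < Int.fract x := fract_pos' hx
  have hy1 : Int.fract x < 1 := Int.fract_lt_one x
  have hR1 : 1 ≤ R := by omega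
  have hpow : ∀ q : ℕ, 1 ≤ q → R ≤ R ^ q := fun q hq => by
    calc R = R ^ 1 := (pow_one R).symm
      _ ≤ R ^ q := Nat.pow_le_pow_right hR1 hq
  have hsp : ((range N).filter (fun n => 1 / 2 ≤ T b (Int.fract x) n)).card <
      R ^ (2 * t + 1) := by
    have h1 := spoils hb hy0 hy1 (fract_irr hx) N
    have h2 : (K b (Int.fract x) N + 1) ^ 2 ≤ R ^ (2 * t) := by
      rw [mul_comm 2 t, pow_mul]
      exact Nat.pow_le_pow_left hK 2
    have h3 : 0 < R ^ (2 * t) := by positivity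
    have h4 : 3 * R ^ (2 * t) ≤ R ^ (2 * t + 1) := by
      rw [pow_succ, mul_comm (R ^ (2 * t))]
      exact Nat.mul_le_mul_right _ (by omega)
    omega
  have key : ∀ i, i ≤ u → i * u ≤ ((Ioc 0 (R ^ (3 * t + 2 * u - 1 + 2 * i))).filter
      (fun k => 1 ≤ Ones.x b (Int.fract (x ^ 2)) k)).card := by
    intro i
    induction i with
    | zero => intro _; simp
    | succ i ih =>
      intro hi
      have h1 := ih (by omega)
      set j := 3 * t + 2 * u - 1 + 2 * i with hj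
      have ej : 3 * t + 2 * u - 1 + 2 * (i + 1) = j + 2 := by omega
      rw [ej]
      have hN' : R ^ (j + 2) ≤ N := le_trans (Nat.pow_le_pow_right hR1 (by omega)) hN
      have hRj := hpow j (by omega)
      obtain ⟨s, e, hs1, hs2, hs3, hs4, hs5⟩ := lemB hb H (R := R) (t := t) (j := j) (N := N)
        (by omega) hK (by omega) (by omega) hN'
      have hRh := hpow (2 * t + 1) (by omega)
      have e1 : 2 * t + 1 + (j + 1 - t - (2 * t + 1)) = j + 1 - t := by omega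
      have h2 := lemA hb hx H hcm hs2 hs3 (N := N) (R := R) (h := 2 * t + 1) (by omega) (by omega)
        (by omega) (by omega) hsp (j + 1 - t - (2 * t + 1)) (by rw [e1]; exact hs4)
      rw [e1] at h2
      have h3 : u ≤ j + 1 - t - (2 * t + 1) := by omega
      have hdisj : Disjoint ((Ioc 0 (R ^ j)).filter (fun k => 1 ≤ Ones.x b (Int.fract (x ^ 2)) k))
          ((Ioc s (s + R ^ (j + 1 - t))).filter
            (fun k => 1 ≤ Ones.x b (Int.fract (x ^ 2)) k)) := by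
        rw [disjoint_left]
        intro q hq1 hq2
        rw [mem_filter, mem_Ioc] at hq1 hq2
        omega
      have hsub : ((Ioc 0 (R ^ j)).filter (fun k => 1 ≤ Ones.x b (Int.fract (x ^ 2)) k)) ∪
          ((Ioc s (s + R ^ (j + 1 - t))).filter
            (fun k => 1 ≤ Ones.x b (Int.fract (x ^ 2)) k)) ⊆
          (Ioc 0 (R ^ (j + 2))).filter (fun k => 1 ≤ Ones.x b (Int.fract (x ^ 2)) k) := by
        intro q hq
        have hle : R ^ j ≤ R ^ (j + 2) := Nat.pow_le_pow_right hR1 (by omega)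
        rw [mem_union, mem_filter, mem_filter, mem_Ioc, mem_Ioc] at hq
        rw [mem_filter, mem_Ioc]
        rcases hq with hq | hq
        · exact ⟨⟨hq.1.1, by omega⟩, hq.2⟩
        · exact ⟨⟨by omega, by omega⟩, hq.2⟩
      have h4 := card_le_card hsub
      rw [card_union_of_disjoint hdisj] at h4
      have h5 : (i + 1) * u = i * u + u := by ring
      omega
  have h1 := key u le_rfl
  refine le_trans h1 (card_le_card ?_)
  intro q hq
  rw [mem_filter, mem_Ioc] at hq ⊢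
  have : R ^ (3 * t + 2 * u - 1 + 2 * u) ≤ R ^ (3 * t + 4 * u) :=
    Nat.pow_le_pow_right hR1 (by omega)
  exact ⟨⟨hq.1.1, by omega⟩, hq.2⟩

end

end Pool.Agent.H726R3.Sq
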