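import Pool.Agent.H726R3.Sq1
import Pool.Agent.H326R2.Pi.Top
import Pool.Agent.H43R2.Cplx.EFinal

/-!
# Non-zero digits of a real number and of its square: real number version
-/

set_option autoImplicit false
set_option linter.unusedSectionVars false
set_option linter.unusedVariables false

open Finset Filter

namespace Pool.Agent.H726R3.Sq

open Pool.Agent.H394R2.Ones (B ep T S K K_mono ep_lt ep_nonneg)
open Pool.Agent.H726R3.Joint (digit cnt fract_pos' fract_irr K_fract dsum dsum_le digit_fract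
  cnt_neg)

open Pool.Agent.H394R2

/-- `x` is not extremely close to fractions whose denominators are powers of `b` -/
def NB (b : ℕ) (x : ℝ) : Prop :=
  ∃ τ L0 : ℕ, ∀ L, L0 ≤ L → ∀ P : ℤ, 1 ≤ (b : ℝ) ^ (τ * L) * |x * (b : ℝ) ^ L - P|

lemma NB.neg {b : ℕ} {x : ℝ} (h : NB b x) : NB b (-x) := by
  obtain ⟨τ, L0, h⟩ := h
  refine ⟨τ, L0, fun L hL P => ?_⟩
  have h1 := h L hL (-P)
  have e : -x * (b : ℝ) ^ L - P = -(x * (b : ℝ) ^ L - ((-P : ℤ) : ℝ)) := by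
    push_cast; ring
  rw [e, abs_neg]
  exact h1

lemma NB.ep {b : ℕ} {x : ℝ} (h : NB b x) (hx : Irrational x) : ∃ τ L0 : ℕ, ∀ L, L0 ≤ L →
    1 ≤ (b : ℝ) ^ (τ * L) * ep b (Int.fract x) L := by
  obtain ⟨τ, L0, h⟩ := h
  refine ⟨τ, L0, fun L hL => ?_⟩
  have h1 := h L hL (⌊x⌋ * (b : ℤ) ^ L + B b (Int.fract x) L)
  have e : x * (b : ℝ) ^ L - ((⌊x⌋ * (b : ℤ) ^ L + B b (Int.fract x) L : ℤ) : ℝ) =
      Pool.Agent.H394R2.Ones.ep b (Int.fract x) L := by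
    unfold Pool.Agent.H394R2.Ones.ep
    have hx : Int.fract x = x - ⌊x⌋ := rfl
    push_cast
    generalize (B b (Int.fract x) L : ℝ) = B1
    rw [hx]
    ring
  rw [e, abs_of_nonneg (ep_nonneg (fract_pos' hx) L)] at h1
  exact h1

lemma K_le_cnt' {b : ℕ} (hb : 2 ≤ b) {x : ℝ} (hx : Irrational x) (N : ℕ) :
    (K b (Int.fract x) N : ℝ) ≤ ((b : ℝ) - 1) * cnt b 0 x N := by
  have h1 := K_fract (b := b) hx N
  have h2 := dsum_le hb x N
  have h3 : ((K b (Int.fract x) N : ℤ) : ℝ) = ((dsum b x N : ℤ) : ℝ) := by rw [h1]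
  have h4 : ((dsum b x N : ℤ) : ℝ) ≤ ((b : ℝ) - 1) * cnt b 0 x N := by exact_mod_cast h2
  rw [← h3] at h4
  exact_mod_cast h4

lemma cnt_eq (b : ℕ) (x : ℝ) (N : ℕ) :
    cnt b 0 x N = ((Ioc 0 N).filter (fun k => 1 ≤ Ones.x b (Int.fract x) k)).card := by
  unfold cnt
  congr 1
  ext k
  rw [mem_filter, mem_filter, mem_Icc, mem_Ioc]
  constructor
  · rintro ⟨⟨h1, h2⟩, h3⟩
    rw [digit_fract x h1] at h3
    refine ⟨⟨by omega, h2⟩, ?_⟩
    by_contra h4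
    apply h3
    have : Ones.x b (Int.fract x) k = 0 := by omega
    rw [this]; rfl
  · rintro ⟨⟨h1, h2⟩, h3⟩
    refine ⟨⟨by omega, h2⟩, ?_⟩
    rw [digit_fract x (by omega)]
    have : (Ones.x b (Int.fract x) k : ℤ) ≠ 0 := by exact_mod_cast (by omega : Ones.x b (Int.fract x) k ≠ 0)
    exact this

theorem zero {b : ℕ} (hb : 2 ≤ b) {x : ℝ} (hx : Irrational x) (hn : NB b x) {θ : ℝ}
    (hθ : θ < 1 / 3) :
    ∃ c : ℝ, 0 < c ∧ ∀ᶠ N : ℕ in atTop,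
      (N : ℝ) ^ θ ≤ cnt b 0 x N ∨ c * (Real.log N) ^ 2 ≤ cnt b 0 (x ^ 2) N := by
  obtain ⟨τ, L0, H⟩ := hn.ep hx
  have hb1 : (1 : ℝ) < b := by exact_mod_cast (by omega : 1 < b)
  obtain ⟨cm, hcm⟩ := pow_unbounded_of_one_lt (4 * |(⌊x⌋ : ℝ)|) hb1
  obtain ⟨a, ha⟩ := exists_nat_gt (4 * θ / (1 - 3 * θ))
  have hθ3 : 0 < 1 - 3 * θ := by linarith
  rw [div_lt_iff₀ hθ3] at ha
  set R : ℕ := 2 * τ + 3 + L0 + (cm + 2) with hRdef
  set q : ℕ := 3 * a + 4 with hq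
  have hR1 : 1 < R := by omega
  have hRR : (1 : ℝ) < R := by exact_mod_cast hR1
  have hlogR : 0 < Real.log R := Real.log_pos hRR
  have hq0 : (0 : ℝ) < q := by exact_mod_cast (by omega : 0 < q)
  have hqR : (q : ℝ) = 3 * a + 4 := by rw [hq]; push_cast; ring
  set θ' : ℝ := a / q with hθ'
  have hθθ : θ < θ' := by
    rw [hθ', lt_div_iff₀ hq0, hqR]
    nlinarith
  have hbb : (0 : ℝ) < (b : ℝ) - 1 := by linarith
  set D : ℝ := (R : ℝ) ^ a * ((b : ℝ) - 1) with hD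
  have hD0 : 0 < D := by positivity
  have hev : ∀ᶠ N : ℕ in atTop, D ≤ (N : ℝ) ^ (θ' - θ) :=
    ((tendsto_rpow_atTop (by linarith : 0 < θ' - θ)).comp
      tendsto_natCast_atTop_atTop).eventually_ge_atTop D
  refine ⟨(1 / (2 * q * Real.log R)) ^ 2, by positivity, ?_⟩
  filter_upwards [hev, eventually_ge_atTop (R ^ q)] with N hN1 hN2
  have hRq : 0 < R ^ q := by positivity
  have hN0 : N ≠ 0 := by omega
  have hNR : (0 : ℝ) < N := by exact_mod_cast (by omega : 0 < N)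
  set l := Nat.log R N with hl
  have hl1 : q ≤ l := by
    rw [hl]
    exact Nat.le_log_of_pow_le hR1 hN2
  set u := l / q with hu
  have hqpos : 0 < q := by omega
  have hu1 : 1 ≤ u := by
    rw [hu]
    exact (Nat.one_le_div_iff hqpos).mpr hl1
  have hql : q * u ≤ l := Nat.mul_div_le l q
  have hlq : l < q * (u + 1) := Nat.lt_mul_div_succ l hqpos
  have hNlow : R ^ (q * u) ≤ N :=
    le_trans (Nat.pow_le_pow_right (by omega) hql) (Nat.pow_log_le_self R hN0)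
  have hNup : N < R ^ (q * (u + 1)) :=
    lt_of_lt_of_le (Nat.lt_pow_succ_log_self hR1 N) (Nat.pow_le_pow_right (by omega) hlq)
  by_cases hK : K b (Int.fract x) N + 1 ≤ R ^ (a * u)
  · right
    have h1 := windows hb hx H hcm.le (R := R) (t := a * u) (u := u) (N := N) le_rfl hu1 hK
      (by
        have : 3 * (a * u) + 4 * u = q * u := by rw [hq]; ring
        rw [this]; exact hNlow)
    rw [cnt_eq]
    have h2 : ((u * u : ℕ) : ℝ) ≤
        (((Ioc 0 N).filter (fun k => 1 ≤ Ones.x b (Int.fract (x ^ 2)) k)).card : ℝ) := by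
      exact_mod_cast h1
    refine le_trans ?_ h2
    have h3 : Real.log N ≤ q * (u + 1) * Real.log R := by
      have h4 : (N : ℝ) ≤ (R : ℝ) ^ (q * (u + 1)) := by exact_mod_cast hNup.le
      have h5 := Real.log_le_log hNR h4
      rw [Real.log_pow] at h5
      push_cast at h5
      exact h5
    have hu1R : (1 : ℝ) ≤ u := by exact_mod_cast hu1
    have h6 : Real.log N ≤ 2 * q * Real.log R * u := by
      have : (q : ℝ) * (u + 1) * Real.log R ≤ q * (2 * u) * Real.log R := by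
        apply mul_le_mul_of_nonneg_right _ hlogR.le
        apply mul_le_mul_of_nonneg_left _ hq0.le
        linarith
      nlinarith
    have h7 : 0 ≤ Real.log N := Real.log_natCast_nonneg N
    have h8 : 1 / (2 * q * Real.log R) * Real.log N ≤ u := by
      rw [one_div, inv_mul_le_iff₀ (by positivity)]
      exact h6
    rw [← mul_pow]
    push_cast
    rw [← sq]
    exact pow_le_pow_left₀ (by positivity) h8 2
  · left
    push Not at hK
    have h1 : R ^ (a * u) ≤ K b (Int.fract x) N := by omega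
    have h2 := K_le_cnt' hb hx N
    have h3 : ((R : ℝ)) ^ (a * u) ≤ ((b : ℝ) - 1) * cnt b 0 x N :=
      le_trans (by exact_mod_cast h1) h2
    have h4 : (N : ℝ) ^ θ' ≤ (R : ℝ) ^ (a * (u + 1)) := by
      have h5 : (N : ℝ) ≤ (R : ℝ) ^ (q * (u + 1)) := by exact_mod_cast hNup.le
      have h6 : (N : ℝ) ^ θ' ≤ ((R : ℝ) ^ (q * (u + 1))) ^ θ' :=
        Real.rpow_le_rpow hNR.le h5 (by positivity)
      have h7 : ((R : ℝ) ^ (q * (u + 1))) ^ θ' = (R : ℝ) ^ (a * (u + 1)) := by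
        rw [← Real.rpow_natCast, ← Real.rpow_mul (by positivity), ← Real.rpow_natCast]
        congr 1
        rw [hθ']
        push_cast
        field_simp
      rw [← h7]
      exact h6
    have h5 : (R : ℝ) ^ (a * (u + 1)) = (R : ℝ) ^ a * (R : ℝ) ^ (a * u) := by
      rw [← pow_add]; congr 1; ring
    have h6 : (N : ℝ) ^ θ' = (N : ℝ) ^ (θ' - θ) * (N : ℝ) ^ θ := by
      rw [← Real.rpow_add hNR]; congr 1; ring
    have h7 : 0 ≤ (N : ℝ) ^ θ := Real.rpow_nonneg hNR.le _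
    have h8 : D * (N : ℝ) ^ θ ≤ D * cnt b 0 x N := by
      calc D * (N : ℝ) ^ θ ≤ (N : ℝ) ^ (θ' - θ) * (N : ℝ) ^ θ :=
            mul_le_mul_of_nonneg_right hN1 h7
        _ = (N : ℝ) ^ θ' := h6.symm
        _ ≤ (R : ℝ) ^ a * (R : ℝ) ^ (a * u) := by rw [← h5]; exact h4
        _ ≤ (R : ℝ) ^ a * (((b : ℝ) - 1) * cnt b 0 x N) :=
            mul_le_mul_of_nonneg_left h3 (by positivity)
        _ = D * cnt b 0 x N := by rw [hD]; ring
    exact le_of_mul_le_mul_left h8 hD0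

theorem both {b : ℕ} (hb : 2 ≤ b) {x : ℝ} (hx : Irrational x) (hn : NB b x) {θ : ℝ}
    (hθ : θ < 1 / 3) :
    ∃ c : ℝ, 0 < c ∧ ∀ᶠ N : ℕ in atTop,
      ((N : ℝ) ^ θ ≤ cnt b 0 x N ∧ (N : ℝ) ^ θ ≤ cnt b (b - 1) x N) ∨
        c * (Real.log N) ^ 2 ≤ cnt b 0 (x ^ 2) N := by
  obtain ⟨c1, hc1, h1⟩ := zero hb hx hn hθ
  obtain ⟨c2, hc2, h2⟩ := zero hb hx.neg hn.neg hθ
  refine ⟨min c1 c2, lt_min hc1 hc2, ?_⟩
  filter_upwards [h1, h2] with N h1 h2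
  rw [neg_sq, cnt_neg hb hx] at h2
  have h0 : 0 ≤ (Real.log N) ^ 2 := sq_nonneg _
  rcases h1 with h1 | h1
  · rcases h2 with h2 | h2
    · exact Or.inl ⟨h1, h2⟩
    · exact Or.inr (le_trans (mul_le_mul_of_nonneg_right (min_le_right _ _) h0) h2)
  · exact Or.inr (le_trans (mul_le_mul_of_nonneg_right (min_le_left _ _) h0) h1)

/-! ### the condition -/

lemma NB_of {b : ℕ} (hb : 2 ≤ b) {x : ℝ} {p : ℝ} {q0 : ℕ}
    (h : ∀ q : ℕ, q0 ≤ q → ∀ m : ℤ, (q : ℝ) ^ (-p) ≤ |x - m / q|) : NB b x := by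
  obtain ⟨τ, hτ⟩ := exists_nat_gt p
  have hb1 : (1 : ℝ) ≤ b := by exact_mod_cast (by omega : 1 ≤ b)
  refine ⟨τ, q0, fun L hL P => ?_⟩
  have h1 : q0 ≤ b ^ L := le_trans hL (Nat.lt_pow_self (by omega)).le
  have h2 := h (b ^ L) h1 P
  push_cast at h2
  have hbL : (1 : ℝ) ≤ (b : ℝ) ^ L := one_le_pow₀ hb1
  have hbL0 : (0 : ℝ) < (b : ℝ) ^ L := by positivity
  have h3 : |x - P / (b : ℝ) ^ L| ≤ |x * (b : ℝ) ^ L - P| := by
    have e : x * (b : ℝ) ^ L - P = (x - P / (b : ℝ) ^ L) * (b : ℝ) ^ L := by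
      field_simp
    rw [e, abs_mul, abs_of_pos hbL0]
    exact le_mul_of_one_le_right (abs_nonneg _) hbL
  have h4 : ((b : ℝ) ^ L) ^ (-(τ : ℝ)) ≤ ((b : ℝ) ^ L) ^ (-p) :=
    Real.rpow_le_rpow_of_exponent_le hbL (by linarith)
  have h5 : ((b : ℝ) ^ L) ^ (-(τ : ℝ)) = ((b : ℝ) ^ (τ * L))⁻¹ := by
    rw [Real.rpow_neg hbL0.le, Real.rpow_natCast, ← pow_mul, mul_comm L τ]
  have h6 : ((b : ℝ) ^ (τ * L))⁻¹ ≤ |x * (b : ℝ) ^ L - P| := by
    rw [← h5]; linarith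
  have h7 : (0 : ℝ) < (b : ℝ) ^ (τ * L) := by positivity
  rw [inv_le_iff_one_le_mul₀ h7] at h6
  rw [mul_comm]
  exact h6

lemma NB_of_not_liouvilleWith {b : ℕ} (hb : 2 ≤ b) {x : ℝ} (hx : Irrational x) {p : ℝ}
    (h : ¬ LiouvilleWith p x) : NB b x := by
  unfold LiouvilleWith at h
  push Not at h
  have h1 := h 1
  rw [eventually_atTop] at h1
  obtain ⟨q0, hq0⟩ := h1
  refine NB_of hb (p := p) (q0 := q0) fun q hq m => ?_
  have h2 := hq0 q hq m (by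
    intro heq
    apply hx
    exact ⟨(m : ℚ) / q, by push_cast; exact heq.symm⟩)
  rw [Real.rpow_neg (Nat.cast_nonneg _), ← one_div]
  exact h2

lemma irr_exp : Irrational (Real.exp 1) := by
  obtain ⟨c, hc, h⟩ := Pool.Agent.H43R2.Cplx.exp2_e 1 one_pos
  rintro ⟨r, hr⟩
  have h1 := h r.den r.den_pos r.num
  have h2 : ((r.den : ℝ)) * Real.exp 1 - r.num = 0 := by
    rw [← hr]
    have h3 : (r : ℝ) = r.num / r.den := by exact_mod_cast (Rat.num_div_den r).symm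
    have h4 : (r.den : ℝ) ≠ 0 := by exact_mod_cast r.den_nz
    rw [h3]
    field_simp
    ring
  rw [h2, abs_zero, mul_zero] at h1
  linarith

lemma NB_exp {b : ℕ} (hb : 2 ≤ b) : NB b (Real.exp 1) := by
  obtain ⟨c, hc, h⟩ := Pool.Agent.H43R2.Cplx.exp2_e 1 one_pos
  have hb1 : (1 : ℝ) < b := by exact_mod_cast (by omega : 1 < b)
  obtain ⟨L0, hL0⟩ := pow_unbounded_of_one_lt (1 / c) hb1
  rw [div_lt_iff₀ hc] at hL0
  refine ⟨3, L0, fun L hL P => ?_⟩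
  have h1 := h (b ^ L) (Nat.one_le_pow _ _ (by omega)) P
  have e : ((b ^ L : ℕ) : ℝ) ^ ((1 : ℝ) + 1) = (b : ℝ) ^ (2 * L) := by
    rw [show ((1 : ℝ) + 1) = ((2 : ℕ) : ℝ) by norm_num, Real.rpow_natCast]
    push_cast
    rw [← pow_mul, mul_comm L 2]
  rw [e] at h1
  push_cast at h1
  rw [mul_comm ((b : ℝ) ^ L) (Real.exp 1)] at h1
  have h2 : (b : ℝ) ^ L0 ≤ (b : ℝ) ^ L := pow_le_pow_right₀ hb1.le hL
  have h3 : (b : ℝ) ^ (3 * L) = (b : ℝ) ^ L * (b : ℝ) ^ (2 * L) := by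
    rw [← pow_add]; congr 1; ring
  rw [h3, mul_assoc]
  have h4 : (b : ℝ) ^ L * c ≤
      (b : ℝ) ^ L * ((b : ℝ) ^ (2 * L) * |Real.exp 1 * (b : ℝ) ^ L - P|) :=
    mul_le_mul_of_nonneg_left h1 (by positivity)
  nlinarith

lemma NB_pi {b : ℕ} (hb : 2 ≤ b) : NB b Real.pi := by
  obtain ⟨q0, h⟩ := Pool.Agent.H326R2.Pi.main
  exact NB_of hb h

lemma NB.sqrt {b : ℕ} (hb : 2 ≤ b) {x : ℝ} (hx : 0 < x) (h : NB b x) : NB b (√x) := by
  obtain ⟨τ, L0, h⟩ := h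
  have hb1 : (1 : ℝ) < b := by exact_mod_cast (by omega : 1 < b)
  obtain ⟨L1, hL1⟩ := pow_unbounded_of_one_lt (2 * √x + 1) hb1
  refine ⟨2 * τ + 2, L0 + L1, fun L hL P => ?_⟩
  have hs0 : 0 < √x := Real.sqrt_pos.mpr hx
  have hp1 : (1 : ℝ) ≤ (b : ℝ) ^ ((2 * τ + 2) * L) := one_le_pow₀ hb1.le
  by_cases hbig : 1 ≤ |√x * (b : ℝ) ^ L - P|
  · nlinarith
  · push Not at hbig
    have h1 := h (2 * L) (by omega) (P ^ 2)
    have hbL : (1 : ℝ) ≤ (b : ℝ) ^ L := one_le_pow₀ hb1.le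
    have e : x * (b : ℝ) ^ (2 * L) - ((P ^ 2 : ℤ) : ℝ) =
        (√x * (b : ℝ) ^ L - P) * (√x * (b : ℝ) ^ L + P) := by
      have hx2 : x = √x * √x := (Real.mul_self_sqrt hx.le).symm
      have : x * (b : ℝ) ^ (2 * L) = √x * √x * ((b : ℝ) ^ L * (b : ℝ) ^ L) := by
        rw [← hx2, ← pow_add]; congr 2; ring
      rw [this]
      push_cast
      ring
    have h2 : |√x * (b : ℝ) ^ L + P| ≤ (b : ℝ) ^ (2 * L) := by
      have h3 := abs_lt.mp hbig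
      have h4 : (b : ℝ) ^ L1 ≤ (b : ℝ) ^ L := pow_le_pow_right₀ hb1.le (by omega)
      have h5 : (b : ℝ) ^ (2 * L) = (b : ℝ) ^ L * (b : ℝ) ^ L := by
        rw [← pow_add]; congr 1; ring
      have h6 : 0 < √x * (b : ℝ) ^ L := by positivity
      have h7 : 2 * (√x * (b : ℝ) ^ L) + 1 ≤ (b : ℝ) ^ (2 * L) := by
        rw [h5]
        nlinarith
      rw [abs_le]
      constructor <;> linarith
    rw [e, abs_mul] at h1
    have h3 : (b : ℝ) ^ ((2 * τ + 2) * L) = (b : ℝ) ^ (τ * (2 * L)) * (b : ℝ) ^ (2 * L) := by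
      rw [← pow_add]; congr 1; ring
    rw [h3]
    have h4 : |√x * (b : ℝ) ^ L - P| * |√x * (b : ℝ) ^ L + P| ≤
        |√x * (b : ℝ) ^ L - P| * (b : ℝ) ^ (2 * L) :=
      mul_le_mul_of_nonneg_left h2 (abs_nonneg _)
    have h5 : (0 : ℝ) < (b : ℝ) ^ (τ * (2 * L)) := by positivity
    calc (1 : ℝ) ≤ (b : ℝ) ^ (τ * (2 * L)) *
          (|√x * (b : ℝ) ^ L - P| * |√x * (b : ℝ) ^ L + P|) := h1
      _ ≤ (b : ℝ) ^ (τ * (2 * L)) * (|√x * (b : ℝ) ^ L - P| * (b : ℝ) ^ (2 * L)) :=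
          mul_le_mul_of_nonneg_left h4 h5.le
      _ = _ := by ring

lemma irr_sqrt {x : ℝ} (hx0 : 0 < x) (hx : Irrational x) : Irrational (√x) := by
  rintro ⟨r, hr⟩
  apply hx
  refine ⟨r * r, ?_⟩
  push_cast
  rw [hr]
  exact Real.mul_self_sqrt hx0.le

end Pool.Agent.H726R3.Sq
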