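import Pool.Agent.H726R3.Sq2

/-!
# Non-zero digits of positive real numbers and of their products
-/

set_option autoImplicit false
set_option linter.unusedSectionVars false
set_option linter.unusedVariables false

open Finset Filter

namespace Pool.Agent.H726R3.Sq

open Pool.Agent.H394R2.Ones (B ep K K_mono ep_lt ep_nonneg B_eq x_zero pair_sum)
open Pool.Agent.H820R3.DG (ep_small ep_succ)
open Pool.Agent.H726R3.Joint (digit cnt fract_pos' fract_irr K_fract dsum dsum_le digit_fract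
  cnt_neg)

open Pool.Agent.H394R2

/-- the digits of `x`, the zeroth one being the integer part -/
noncomputable def aa (b : ℕ) (x : ℝ) (i : ℕ) : ℕ := if i = 0 then ⌊x⌋₊ else Ones.x b (Int.fract x) i

/-- tails of a product of real numbers -/
noncomputable def TT (b : ℕ) : List ℝ → ℕ → ℝ
  | [], _ => 0
  | x :: l, n => ∑ i ∈ range (n + 1), (aa b x i : ℝ) * TT b l (n - i) +
      l.prod * ep b (Int.fract x) n

/-- all the numbers are positive and irrational -/
def Good (l : List ℝ) : Prop := ∀ x ∈ l, 0 < x ∧ Irrational x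

lemma Good.tail {x : ℝ} {l : List ℝ} (h : Good (x :: l)) : Good l :=
  fun z hz => h z (List.mem_cons_of_mem _ hz)

lemma Good.head {x : ℝ} {l : List ℝ} (h : Good (x :: l)) : 0 < x ∧ Irrational x :=
  h x List.mem_cons_self

lemma Good.prod {l : List ℝ} (h : Good l) : 0 < l.prod :=
  List.prod_pos fun x hx => (h x hx).1

section
variable {b : ℕ} {τ L0 : ℕ}

lemma aa_expand {x : ℝ} (hb : 2 ≤ b) (hx0 : 0 < x) (hx : Irrational x) (n : ℕ) :
    ∑ i ∈ range (n + 1), (aa b x i : ℝ) * (b : ℝ) ^ (n - i) + ep b (Int.fract x) n =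
      x * (b : ℝ) ^ n := by
  have hy0 : 0 < Int.fract x := fract_pos' hx
  have hy1 : Int.fract x < 1 := Int.fract_lt_one x
  have h1 : (B b (Int.fract x) n : ℝ) =
      ∑ i ∈ range (n + 1), (Ones.x b (Int.fract x) i : ℝ) * (b : ℝ) ^ (n - i) := by
    have := B_eq hb hy0 hy1 n
    exact_mod_cast this
  rw [sum_range_succ'] at h1 ⊢
  rw [x_zero hy0 hy1] at h1
  have h2 : (aa b x 0 : ℝ) = ⌊x⌋ := by
    unfold aa
    rw [if_pos rfl]
    exact natCast_floor_eq_intCast_floor hx0.le
  have h3 : ∀ i, aa b x (i + 1) = Ones.x b (Int.fract x) (i + 1) := fun i => by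
    unfold aa; rw [if_neg (by omega)]
  simp only [h3, h2]
  simp only [Nat.cast_zero, zero_mul, add_zero] at h1
  rw [← h1]
  have hfr : Int.fract x = x - ⌊x⌋ := rfl
  unfold ep
  generalize (B b (Int.fract x) n : ℝ) = B1
  rw [hfr, Nat.sub_zero]
  ring

lemma TT_int (hb : 2 ≤ b) : ∀ l : List ℝ, Good l → ∀ n : ℕ, ∃ Z : ℤ,
    TT b l n = l.prod * (b : ℝ) ^ n - Z := by
  intro l
  induction l with
  | nil =>
    intro _ n
    refine ⟨(b : ℤ) ^ n, ?_⟩
    unfold TT
    push_cast
    simp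
  | cons x l ih =>
    intro hl n
    obtain ⟨hx0, hx⟩ := hl.head
    choose Z hZ using ih hl.tail
    refine ⟨∑ i ∈ range (n + 1), (aa b x i : ℤ) * Z (n - i), ?_⟩
    rw [TT]
    simp only [hZ]
    push_cast
    have h2 := aa_expand hb hx0 hx n
    have h3 : (x :: l).prod * (b : ℝ) ^ n = l.prod * (x * (b : ℝ) ^ n) := by
      rw [List.prod_cons]; ring
    rw [h3, ← h2, mul_add, mul_sum]
    have h4 : ∑ i ∈ range (n + 1), (aa b x i : ℝ) * (l.prod * (b : ℝ) ^ (n - i) - Z (n - i)) =
        ∑ i ∈ range (n + 1), l.prod * ((aa b x i : ℝ) * (b : ℝ) ^ (n - i)) -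
          ∑ i ∈ range (n + 1), (aa b x i : ℝ) * Z (n - i) := by
      rw [← sum_sub_distrib]
      exact sum_congr rfl fun i _ => by ring
    rw [h4]
    ring

lemma TT_nonneg : ∀ l : List ℝ, Good l → ∀ n : ℕ, 0 ≤ TT b l n := by
  intro l
  induction l with
  | nil => intro _ n; unfold TT; exact le_rfl
  | cons x l ih =>
    intro hl n
    rw [TT]
    have h1 : 0 ≤ ∑ i ∈ range (n + 1), (aa b x i : ℝ) * TT b l (n - i) :=
      sum_nonneg fun i _ => mul_nonneg (Nat.cast_nonneg _) (ih hl.tail _)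
    have h2 := ep_nonneg (b := b) (fract_pos' hl.head.2) n
    have h3 := hl.tail.prod
    positivity

lemma TT_ge {x : ℝ} {l : List ℝ} (hl : Good (x :: l)) {s n : ℕ} (hs : s ≤ n)
    (ha : 1 ≤ aa b x s) : TT b l (n - s) ≤ TT b (x :: l) n := by
  rw [TT.eq_2]
  have h1 : (aa b x s : ℝ) * TT b l (n - s) ≤
      ∑ i ∈ range (n + 1), (aa b x i : ℝ) * TT b l (n - i) :=
    single_le_sum (f := fun i => (aa b x i : ℝ) * TT b l (n - i))
      (fun i _ => mul_nonneg (Nat.cast_nonneg _) (TT_nonneg _ hl.tail _))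
      (mem_range.mpr (by omega))
  have h2 := ep_nonneg (b := b) (fract_pos' hl.head.2) n
  have h3 := TT_nonneg (b := b) l hl.tail (n - s)
  have h4 : (1 : ℝ) ≤ aa b x s := by exact_mod_cast ha
  have h6 := hl.tail.prod
  have h5 : 0 ≤ l.prod * ep b (Int.fract x) n := by positivity
  nlinarith

lemma ep_sum {x : ℝ} (hb : 2 ≤ b) (hx : Irrational x) : ∀ N : ℕ,
    ∑ n ∈ range N, ep b (Int.fract x) n ≤ K b (Int.fract x) N + ep b (Int.fract x) N := by
  intro N
  have hb2 : (2 : ℝ) ≤ b := by exact_mod_cast hb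
  induction N with
  | zero =>
    have := ep_nonneg (b := b) (fract_pos' hx) 0
    simp only [range_zero, sum_empty]
    positivity
  | succ N ih =>
    rw [sum_range_succ, ep_succ hb]
    have h1 : K b (Int.fract x) (N + 1) = K b (Int.fract x) N + Ones.x b (Int.fract x) (N + 1) := by
      unfold K
      rw [sum_range_succ]
    rw [h1]
    push_cast
    have := ep_nonneg (b := b) (fract_pos' hx) N
    nlinarith

lemma aa_sum {x : ℝ} (hb : 2 ≤ b) (hx0 : 0 < x) (hx : Irrational x) (N : ℕ) :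
    (∑ i ∈ range (N + 1), (aa b x i : ℝ)) ≤ K b (Int.fract x) N + x := by
  have hy0 : 0 < Int.fract x := fract_pos' hx
  have hy1 : Int.fract x < 1 := Int.fract_lt_one x
  have h1 : (K b (Int.fract x) N : ℝ) = ∑ i ∈ range (N + 1), (Ones.x b (Int.fract x) i : ℝ) := by
    unfold K
    push_cast
    rfl
  rw [h1, sum_range_succ', sum_range_succ', x_zero hy0 hy1]
  have h3 : ∀ i, aa b x (i + 1) = Ones.x b (Int.fract x) (i + 1) := fun i => by
    unfold aa; rw [if_neg (by omega)]
  have h2 : (aa b x 0 : ℝ) ≤ x := by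
    unfold aa
    rw [if_pos rfl]
    exact Nat.floor_le hx0.le
  simp only [h3]
  push_cast
  linarith

lemma conv_le (f g : ℕ → ℝ) (hf : ∀ i, 0 ≤ f i) (hg : ∀ i, 0 ≤ g i) (N : ℕ) :
    ∑ n ∈ range (N + 1), ∑ i ∈ range (n + 1), f i * g (n - i) ≤
      (∑ i ∈ range (N + 1), f i) * ∑ i ∈ range (N + 1), g i := by
  have h1 := pair_sum N (fun i j => f i * g j)
  have h2 : ∀ n, ∑ i ∈ range (n + 1), f i * g (n - i) =
      ∑ p ∈ antidiagonal n, f p.1 * g p.2 := fun n =>
    (Nat.sum_antidiagonal_eq_sum_range_succ (fun i j => f i * g j) n).symm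
  simp only [h2]
  rw [sum_mul_sum, ← sum_product', h1]
  have h3 : 0 ≤ ∑ p ∈ (range (N + 1) ×ˢ range (N + 1)).filter (fun p => ¬ p.1 + p.2 ≤ N),
      f p.1 * g p.2 := sum_nonneg fun p _ => mul_nonneg (hf _) (hg _)
  linarith

lemma prod_le {M : ℝ} : ∀ l : List ℝ, Good l → (∀ x ∈ l, x ≤ M) → l.prod ≤ M ^ l.length := by
  intro l
  induction l with
  | nil => intro _ _; simp
  | cons x l ih =>
    intro hl hM
    rw [List.prod_cons, List.length_cons, pow_succ, mul_comm]
    have h1 := ih hl.tail fun z hz => hM z (List.mem_cons_of_mem _ hz)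
    have h2 := hM x List.mem_cons_self
    exact mul_le_mul h1 h2 hl.head.1.le (le_trans hl.tail.prod.le h1)

lemma TT_sum (hb : 2 ≤ b) (N : ℕ) {M : ℝ} : ∀ l : List ℝ, Good l →
    (∀ x ∈ l, (K b (Int.fract x) N : ℝ) + x + 2 ≤ M) →
    ∑ n ∈ range (N + 1), TT b l n ≤ l.length * M ^ l.length := by
  intro l
  induction l with
  | nil => intro _ _; simp [TT]
  | cons x l ih =>
    intro hl hM
    obtain ⟨hx0, hx⟩ := hl.head
    have ih := ih hl.tail fun z hz => hM z (List.mem_cons_of_mem _ hz)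
    have hMx := hM x List.mem_cons_self
    have hK0 : (0 : ℝ) ≤ K b (Int.fract x) N := Nat.cast_nonneg _
    have h1 : ∀ n, TT b (x :: l) n = ∑ i ∈ range (n + 1), (aa b x i : ℝ) * TT b l (n - i) +
      l.prod * ep b (Int.fract x) n := fun n => by rw [TT]
    simp only [h1]
    rw [sum_add_distrib, ← mul_sum]
    have h2 := conv_le (fun i => (aa b x i : ℝ)) (TT b l) (fun i => Nat.cast_nonneg _)
      (TT_nonneg l hl.tail) N
    have h3 := aa_sum hb hx0 hx N
    have h4 := ep_sum hb hx N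
    have h5 : ∑ n ∈ range (N + 1), ep b (Int.fract x) n ≤ M := by
      rw [sum_range_succ]
      have := ep_lt (b := b) (y := Int.fract x) N
      linarith
    have h6 : 0 ≤ ∑ n ∈ range (N + 1), TT b l n := sum_nonneg fun n _ => TT_nonneg l hl.tail n
    have h7 : l.prod ≤ M ^ l.length := prod_le l hl.tail fun z hz => by
      have h8 := hM z (List.mem_cons_of_mem _ hz)
      have h9 : (0 : ℝ) ≤ K b (Int.fract z) N := Nat.cast_nonneg _
      linarith
    have hM0 : 0 < M := by linarith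
    have h8 : (∑ i ∈ range (N + 1), (aa b x i : ℝ)) * ∑ i ∈ range (N + 1), TT b l i ≤
        M * (l.length * M ^ l.length) :=
      mul_le_mul (by linarith) ih h6 hM0.le
    have h9 : 0 ≤ ∑ n ∈ range (N + 1), ep b (Int.fract x) n :=
      sum_nonneg fun n _ => ep_nonneg (fract_pos' hx) n
    have h10 : l.prod * ∑ n ∈ range (N + 1), ep b (Int.fract x) n ≤ M ^ l.length * M :=
      mul_le_mul h7 h5 h9 (by positivity)
    have e : (((x :: l).length : ℕ) : ℝ) * M ^ (x :: l).length =
        M * (l.length * M ^ l.length) + M ^ l.length * M := by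
      rw [List.length_cons]
      push_cast; ring
    rw [e]
    linarith

lemma TT_spoils (hb : 2 ≤ b) (N : ℕ) {M : ℝ} {l : List ℝ} (hl : Good l)
    (hM : ∀ x ∈ l, (K b (Int.fract x) N : ℝ) + x + 2 ≤ M) :
    (((range (N + 1)).filter (fun n => 1 ≤ TT b l n)).card : ℝ) ≤
      l.length * M ^ l.length := by
  refine le_trans ?_ (TT_sum hb N l hl hM)
  calc (((range (N + 1)).filter (fun n => 1 ≤ TT b l n)).card : ℝ)
      = ∑ m ∈ (range (N + 1)).filter (fun n => 1 ≤ TT b l n), (1 : ℝ) := by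
        rw [sum_const, nsmul_eq_mul, mul_one]
    _ ≤ ∑ m ∈ (range (N + 1)).filter (fun n => 1 ≤ TT b l n), TT b l m :=
        sum_le_sum fun m hm => (mem_filter.mp hm).2
    _ ≤ ∑ m ∈ range (N + 1), TT b l m :=
        sum_le_sum_of_subset_of_nonneg (filter_subset _ _) fun m _ _ => TT_nonneg l hl m

/-- lower bound for the tails -/
def Low (b : ℕ) (l : List ℝ) (τ L0 σ : ℕ) : Prop :=
  ∀ n, σ + L0 ≤ n → 1 ≤ (b : ℝ) ^ (τ * (n - σ)) * TT b l n

lemma Low_one {x : ℝ} (H : ∀ L, L0 ≤ L → 1 ≤ (b : ℝ) ^ (τ * L) * ep b (Int.fract x) L) :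
    Low b [x] τ L0 0 := by
  intro n hn
  have h1 : TT b [x] n = ep b (Int.fract x) n := by
    simp [TT]
  rw [h1, Nat.sub_zero]
  exact H n (by omega)

lemma Low_succ {x : ℝ} {l : List ℝ} (hl : Good (x :: l)) {σ s : ℕ} (h : Low b l τ L0 σ)
    (hs : 1 ≤ s) (hd : 1 ≤ Ones.x b (Int.fract x) s) : Low b (x :: l) τ L0 (σ + s) := by
  intro n hn
  have h1 := h (n - s) (by omega)
  have ha : 1 ≤ aa b x s := by
    unfold aa; rw [if_neg (by omega)]; exact hd
  have h2 := TT_ge hl (s := s) (n := n) (by omega) ha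
  have e : n - (σ + s) = n - s - σ := by omega
  rw [e]
  exact le_trans h1 (mul_le_mul_of_nonneg_left h2 (by positivity))

lemma one_digit_k (hb : 2 ≤ b) {l : List ℝ} (hl : Good l) {v : ℝ} {V : ℕ → ℝ}
    (hV : ∀ n, TT b l n ≤ V n) (hVint : ∀ n, ∃ Z : ℤ, V n = v * (b : ℝ) ^ n - Z) {σ N R h : ℕ}
    (hlow : Low b l τ L0 σ) (hR : 2 * τ + 3 ≤ R) (hL : L0 ≤ R ^ h)
    (hsp : ((range (N + 1)).filter (fun n => 1 ≤ V n)).card < R ^ h)
    {g : ℕ} (hg : h ≤ g) (hge : σ + R ^ (g + 1) ≤ N) :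
    ∃ q, σ + R ^ g < q ∧ q ≤ σ + R ^ (g + 1) ∧ 1 ≤ Ones.x b (Int.fract v) q := by
  have hRg : R ^ h ≤ R ^ g := Nat.pow_le_pow_right (by omega) hg
  have hRg1 : (2 * τ + 3) * R ^ g ≤ R ^ (g + 1) := by
    rw [pow_succ, mul_comm (R ^ g)]
    exact Nat.mul_le_mul_right _ hR
  have e1 : (2 * τ + 3) * R ^ g = 2 * (τ * R ^ g) + 3 * R ^ g := by ring
  have hRg0 : 0 < R ^ g := Nat.pow_pos (by omega)
  have hex : ∃ n, σ + R ^ g ≤ n ∧ n < σ + R ^ g + R ^ h ∧ V n < 1 := by
    by_contra hcon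
    push Not at hcon
    have h1 : Ico (σ + R ^ g) (σ + R ^ g + R ^ h) ⊆
        (range (N + 1)).filter (fun n => 1 ≤ V n) := by
      intro n hn
      rw [mem_Ico] at hn
      rw [mem_filter, mem_range]
      exact ⟨by omega, hcon n hn.1 hn.2⟩
    have h2 := card_le_card h1
    rw [Nat.card_Ico] at h2
    omega
  obtain ⟨n, hn1, hn2, hn3⟩ := hex
  have h5 : τ * (n - σ) + τ ≤ 2 * (τ * R ^ g) := by
    have : n - σ + 1 ≤ 2 * R ^ g := by omega
    calc τ * (n - σ) + τ = τ * (n - σ + 1) := by ring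
      _ ≤ τ * (2 * R ^ g) := Nat.mul_le_mul_left _ this
      _ = 2 * (τ * R ^ g) := by ring
  have h6 := hlow n (by omega)
  obtain ⟨Z, hZ⟩ := hVint n
  have h7 : ep b (Int.fract v) n = V n := by
    have e2 : ep b (Int.fract v) n = V n +
        ((Z - ⌊v⌋ * (b : ℤ) ^ n - B b (Int.fract v) n : ℤ) : ℝ) := by
      have hfr : Int.fract v = v - ⌊v⌋ := rfl
      unfold ep
      push_cast
      generalize (B b (Int.fract v) n : ℝ) = B1
      rw [hZ, hfr]
      ring
    have h8 : ep b (Int.fract v) n < 1 := ep_lt n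
    have h9 : 0 ≤ ep b (Int.fract v) n := by
      unfold ep B
      have := Nat.floor_le (a := Int.fract v * (b : ℝ) ^ n)
        (mul_nonneg (Int.fract_nonneg _) (by positivity))
      linarith
    have h10 := TT_nonneg (b := b) l hl n
    have h10' := hV n
    generalize (Z - ⌊v⌋ * (b : ℤ) ^ n - B b (Int.fract v) n : ℤ) = Y at e2
    have hY1 : (-1 : ℝ) < Y := by linarith
    have hY2 : (Y : ℝ) < 1 := by linarith
    have hY3 : (-1 : ℤ) < Y := by exact_mod_cast hY1
    have hY4 : Y < 1 := by exact_mod_cast hY2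
    have hY0 : Y = 0 := by omega
    rw [e2, hY0, Int.cast_zero, add_zero]
  have h11 : ∃ q, n < q ∧ q ≤ n + τ * (n - σ) ∧ 1 ≤ Ones.x b (Int.fract v) q := by
    by_contra hcon
    push Not at hcon
    have h12 := ep_small (y := Int.fract v) hb n (τ * (n - σ)) (fun q h1 h2 => by
      have := hcon q h1 h2
      omega)
    rw [h7] at h12
    have h13 : (b : ℝ) ^ (τ * (n - σ)) * TT b l n ≤ (b : ℝ) ^ (τ * (n - σ)) * V n :=
      mul_le_mul_of_nonneg_left (hV n) (by positivity)
    linarith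
  obtain ⟨q, hq1, hq2, hq3⟩ := h11
  exact ⟨q, by omega, by omega, hq3⟩

lemma lemA_k (hb : 2 ≤ b) {l : List ℝ} (hl : Good l) {v : ℝ} {V : ℕ → ℝ}
    (hV : ∀ n, TT b l n ≤ V n) (hVint : ∀ n, ∃ Z : ℤ, V n = v * (b : ℝ) ^ n - Z) {σ N R h : ℕ}
    (hlow : Low b l τ L0 σ) (hR : 2 * τ + 3 ≤ R) (hL : L0 ≤ R ^ h)
    (hsp : ((range (N + 1)).filter (fun n => 1 ≤ V n)).card < R ^ h) :
    ∀ d : ℕ, σ + R ^ (h + d) ≤ N →
      d ≤ ((Ioc σ (σ + R ^ (h + d))).filter (fun q => 1 ≤ Ones.x b (Int.fract v) q)).card := by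
  intro d
  induction d with
  | zero => intro _; exact Nat.zero_le _
  | succ d ih =>
    intro hd
    have hle : R ^ (h + d) ≤ R ^ (h + (d + 1)) := Nat.pow_le_pow_right (by omega) (by omega)
    have h1 := ih (by omega)
    obtain ⟨q, hk1, hk2, hk3⟩ := one_digit_k hb hl hV hVint hlow hR hL hsp
      (g := h + d) (by omega) hd
    have hk2' : q ≤ σ + R ^ (h + (d + 1)) := hk2
    have h2 : insert q ((Ioc σ (σ + R ^ (h + d))).filter
        (fun q => 1 ≤ Ones.x b (Int.fract v) q)) ⊆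
        (Ioc σ (σ + R ^ (h + (d + 1)))).filter (fun q => 1 ≤ Ones.x b (Int.fract v) q) := by
      intro p hp
      rw [mem_insert] at hp
      rw [mem_filter, mem_Ioc]
      rcases hp with rfl | hp
      · exact ⟨⟨by omega, hk2'⟩, hk3⟩
      · rw [mem_filter, mem_Ioc] at hp
        exact ⟨⟨hp.1.1, by omega⟩, hp.2⟩
    have h3 : q ∉ (Ioc σ (σ + R ^ (h + d))).filter
        (fun q => 1 ≤ Ones.x b (Int.fract v) q) := by
      intro hq
      rw [mem_filter, mem_Ioc] at hq
      omega
    have h4 := card_le_card h2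
    rw [card_insert_of_notMem h3] at h4
    omega

/-- many digits of the product -/
theorem count_k (hb : 2 ≤ b) {full : List ℝ} (hfull : Good full) {v : ℝ} {V : ℕ → ℝ}
    (hV : ∀ n, TT b full n ≤ V n) (hVint : ∀ n, ∃ Z : ℤ, V n = v * (b : ℝ) ^ n - Z)
    (H : ∀ x ∈ full, ∀ L, L0 ≤ L → 1 ≤ (b : ℝ) ^ (τ * L) * ep b (Int.fract x) L) {N R h : ℕ}
    (hR : 2 * τ + 3 ≤ R) (hL : L0 ≤ R ^ h)
    (hsp : ((range (N + 1)).filter (fun n => 1 ≤ V n)).card < R ^ h) (u : ℕ) :
    ∀ (pre l : List ℝ) (σ : ℕ), pre.reverse ++ l = full → Low b l τ L0 σ →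
      σ + R ^ (h + 2 * (pre.length + 1) * u) ≤ N →
      u ^ (pre.length + 1) ≤ ((Ioc σ (σ + R ^ (h + 2 * (pre.length + 1) * u))).filter
        (fun q => 1 ≤ Ones.x b (Int.fract v) q)).card := by
  intro pre
  induction pre with
  | nil =>
    intro l σ hm hlow hN
    rw [List.reverse_nil, List.nil_append] at hm
    rw [hm] at hlow
    have h1 := lemA_k hb hfull hV hVint hlow hR hL hsp (2 * ([] : List ℝ).length.succ * u) hN
    have e : u ^ (([] : List ℝ).length + 1) = u := by simp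
    rw [e]
    have e' : 2 * ([] : List ℝ).length.succ * u = 2 * u := by simp
    have h2 : u ≤ 2 * ([] : List ℝ).length.succ * u := by rw [e']; omega
    exact le_trans h2 h1
  | cons x pre ih =>
    intro l σ hm hlow hN
    have hm' : pre.reverse ++ (x :: l) = full := by
      rw [← hm, List.reverse_cons, List.append_assoc]
      rfl
    have hxl : Good (x :: l) := fun z hz => hfull z (by
      rw [← hm']; exact List.mem_append_right _ hz)
    have hxm : x ∈ full := by
      rw [← hm']; exact List.mem_append_right _ List.mem_cons_self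
    rw [List.length_cons] at hN ⊢
    set d := pre.length with hd
    have key : ∀ i, i ≤ u → i * u ^ (d + 1) ≤
        ((Ioc σ (σ + R ^ (h + 2 * (d + 1) * u + 2 * i))).filter
          (fun q => 1 ≤ Ones.x b (Int.fract v) q)).card := by
      intro i
      induction i with
      | zero => intro _; simp
      | succ i ihi =>
        intro hi
        have h1 := ihi (by omega)
        set e := h + 2 * (d + 1) * u + 2 * i with he
        have ee : h + 2 * (d + 1) * u + 2 * (i + 1) = e + 2 := by omega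
        rw [ee]
        have hRe : R ^ h ≤ R ^ e := Nat.pow_le_pow_right (by omega) (by omega)
        have hRe2 : R ^ (h + 2 * (d + 1) * u) ≤ R ^ e :=
          Nat.pow_le_pow_right (by omega) (by omega)
        have hRe0 : 0 < R ^ e := Nat.pow_pos (by omega)
        have hgap : ∃ s, R ^ e < s ∧ s ≤ R ^ e + τ * R ^ e ∧ 1 ≤ Ones.x b (Int.fract x) s := by
          by_contra hcon
          push Not at hcon
          have h1 := ep_small (y := Int.fract x) hb (R ^ e) (τ * R ^ e) (fun k h1 h2 => by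
            have := hcon k h1 h2
            omega)
          have h2 := H x hxm (R ^ e) (by omega)
          linarith
        obtain ⟨s, hs1, hs2, hs3⟩ := hgap
        have hR1 : (2 * τ + 3) * R ^ e ≤ R ^ (e + 1) := by
          rw [pow_succ, mul_comm (R ^ e)]
          exact Nat.mul_le_mul_right _ hR
        have hR2 : R ^ (e + 1) ≤ R ^ (e + 2) := Nat.pow_le_pow_right (by omega) (by omega)
        have e1 : (2 * τ + 3) * R ^ e = 2 * (τ * R ^ e) + 3 * R ^ e := by ring
        have hRN : R ^ (e + 2) ≤ R ^ (h + 2 * (d + 1 + 1) * u) := by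
          apply Nat.pow_le_pow_right (by omega)
          have : 2 * (d + 1 + 1) * u = 2 * (d + 1) * u + 2 * u := by ring
          omega
        have h2 := ih (x :: l) (σ + s) hm' (Low_succ hxl hlow (by omega) hs3) (by omega)
        have hdisj : Disjoint
            ((Ioc σ (σ + R ^ e)).filter (fun q => 1 ≤ Ones.x b (Int.fract v) q))
            ((Ioc (σ + s) (σ + s + R ^ (h + 2 * (d + 1) * u))).filter
              (fun q => 1 ≤ Ones.x b (Int.fract v) q)) := by
          rw [disjoint_left]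
          intro q hq1 hq2
          rw [mem_filter, mem_Ioc] at hq1 hq2
          omega
        have hsub : ((Ioc σ (σ + R ^ e)).filter (fun q => 1 ≤ Ones.x b (Int.fract v) q)) ∪
            ((Ioc (σ + s) (σ + s + R ^ (h + 2 * (d + 1) * u))).filter
              (fun q => 1 ≤ Ones.x b (Int.fract v) q)) ⊆
            (Ioc σ (σ + R ^ (e + 2))).filter (fun q => 1 ≤ Ones.x b (Int.fract v) q) := by
          intro q hq
          rw [mem_union, mem_filter, mem_filter, mem_Ioc, mem_Ioc] at hq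
          rw [mem_filter, mem_Ioc]
          rcases hq with hq | hq
          · exact ⟨⟨hq.1.1, by omega⟩, hq.2⟩
          · exact ⟨⟨by omega, by omega⟩, hq.2⟩
        have h4 := card_le_card hsub
        rw [card_union_of_disjoint hdisj] at h4
        have h5 : (i + 1) * u ^ (d + 1) = i * u ^ (d + 1) + u ^ (d + 1) := by ring
        omega
    have h1 := key u le_rfl
    have e2 : h + 2 * (d + 1 + 1) * u = h + 2 * (d + 1) * u + 2 * u := by ring
    have e3 : u ^ (d + 1 + 1) = u * u ^ (d + 1) := by ring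
    rw [e2, e3]
    exact h1

end

end Pool.Agent.H726R3.Sq
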