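import Pool.Agent.H726R3.Sq3

/-!
# Non-zero digits of values of polynomials with non-negative coefficients
-/

set_option autoImplicit false
set_option linter.unusedSectionVars false
set_option linter.unusedVariables false

open Finset Filter

namespace Pool.Agent.H726R3.Sq

open Pool.Agent.H394R2.Ones (B ep K K_mono ep_lt ep_nonneg B_eq x_zero pair_sum)
open Pool.Agent.H820R3.DG (ep_small ep_succ)
open Pool.Agent.H726R3.Joint (digit cnt fract_pos' fract_irr K_fract dsum dsum_le digit_fract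
  cnt_neg)

open Pool.Agent.H394R2

lemma NB_unif {b : ℕ} (hb : 2 ≤ b) {κ : Type} [Fintype κ] {x : κ → ℝ}
    (hx : ∀ k, Irrational (x k)) (hn : ∀ k, NB b (x k)) :
    ∃ τ L0 : ℕ, ∀ k, ∀ L, L0 ≤ L → 1 ≤ (b : ℝ) ^ (τ * L) * ep b (Int.fract (x k)) L := by
  have h1 : ∀ k, ∃ τ L0 : ℕ, ∀ L, L0 ≤ L →
      1 ≤ (b : ℝ) ^ (τ * L) * ep b (Int.fract (x k)) L := fun k => (hn k).ep (hx k)
  choose τ L0 h using h1
  refine ⟨univ.sup τ, univ.sup L0, fun k L hL => ?_⟩
  have h2 : τ k ≤ univ.sup τ := le_sup (mem_univ k)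
  have h3 : L0 k ≤ univ.sup L0 := le_sup (mem_univ k)
  have h4 := h k L (by omega)
  have h5 : (b : ℝ) ^ (τ k * L) ≤ (b : ℝ) ^ (univ.sup τ * L) :=
    pow_le_pow_right₀ (by exact_mod_cast (by omega : 1 ≤ b)) (Nat.mul_le_mul_right _ h2)
  exact le_trans h4 (mul_le_mul_of_nonneg_right h5 (ep_nonneg (fract_pos' (hx k)) L))

set_option maxHeartbeats 4000000 in
theorem fam {b : ℕ} (hb : 2 ≤ b) {κ : Type} [Fintype κ] {x : κ → ℝ} (hx0 : ∀ k, 0 < x k)
    (hx : ∀ k, Irrational (x k)) (hn : ∀ k, NB b (x k)) {ι : Type} (s : Finset ι) (c : ι → ℕ)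
    (l : ι → List ℝ) (hl : ∀ j ∈ s, ∀ z ∈ l j, ∃ k, z = x k) {D : ℕ} (hD : 1 ≤ D)
    (hlen : ∀ j ∈ s, (l j).length ≤ D) {j0 : ι} (hj0 : j0 ∈ s) (hc0 : 1 ≤ c j0)
    (hlen0 : (l j0).length = D) {v : ℝ} {m0 : ℤ} (hv : v = m0 + ∑ j ∈ s, (c j : ℝ) * (l j).prod)
    {θ : ℝ} (hθ : θ * D < 1) :
    ∃ C : ℝ, 0 < C ∧ ∀ᶠ N : ℕ in atTop,
      (∃ k, (N : ℝ) ^ θ ≤ cnt b 0 (x k) N) ∨ C * (Real.log N) ^ D ≤ cnt b 0 v N := by
  classical
  have hgood : ∀ j ∈ s, Good (l j) := by
    intro j hj z hz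
    obtain ⟨k, rfl⟩ := hl j hj z hz
    exact ⟨hx0 k, hx k⟩
  set V : ℕ → ℝ := fun n => ∑ j ∈ s, (c j : ℝ) * TT b (l j) n with hVdef
  have hVint : ∀ n, ∃ Z : ℤ, V n = v * (b : ℝ) ^ n - Z := by
    intro n
    have h1 : ∀ j, ∃ Z : ℤ, j ∈ s → TT b (l j) n = (l j).prod * (b : ℝ) ^ n - Z := by
      intro j
      by_cases hj : j ∈ s
      · obtain ⟨Z, hZ⟩ := TT_int hb (l j) (hgood j hj) n
        exact ⟨Z, fun _ => hZ⟩
      · exact ⟨0, fun h => absurd h hj⟩
    choose Z hZ using h1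
    refine ⟨m0 * (b : ℤ) ^ n + ∑ j ∈ s, (c j : ℤ) * Z j, ?_⟩
    have h2 : V n = ∑ j ∈ s, (c j : ℝ) * ((l j).prod * (b : ℝ) ^ n - Z j) :=
      sum_congr rfl fun j hj => by rw [hZ j hj]
    rw [h2, hv]
    push_cast
    have h3 : ∑ j ∈ s, (c j : ℝ) * ((l j).prod * (b : ℝ) ^ n - Z j) =
        (∑ j ∈ s, (c j : ℝ) * (l j).prod) * (b : ℝ) ^ n - ∑ j ∈ s, (c j : ℝ) * Z j := by
      rw [sum_mul, ← sum_sub_distrib]
      exact sum_congr rfl fun j _ => by ring
    rw [h3]
    ring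
  have hV : ∀ n, TT b (l j0) n ≤ V n := by
    intro n
    have h1 : (c j0 : ℝ) * TT b (l j0) n ≤ V n :=
      single_le_sum (f := fun j => (c j : ℝ) * TT b (l j) n)
        (fun j hj => mul_nonneg (Nat.cast_nonneg _) (TT_nonneg _ (hgood j hj) n)) hj0
    have h2 := TT_nonneg (b := b) _ (hgood j0 hj0) n
    have h3 : (1 : ℝ) ≤ c j0 := by exact_mod_cast hc0
    nlinarith
  obtain ⟨τ, L0, H⟩ := NB_unif hb hx hn
  obtain ⟨X, hX⟩ := exists_nat_gt (∑ k, x k + 1)
  have hXk : ∀ k, x k + 1 ≤ X := fun k => by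
    have := single_le_sum (f := x) (fun k _ => (hx0 k).le) (mem_univ k)
    linarith
  have hb1 : (1 : ℝ) < b := by exact_mod_cast (by omega : 1 < b)
  have hDR : (1 : ℝ) ≤ D := by exact_mod_cast hD
  obtain ⟨a, ha⟩ := exists_nat_gt (θ * (2 * D + 1) / (1 - θ * D))
  have hθ3 : 0 < 1 - θ * D := by linarith
  rw [div_lt_iff₀ hθ3] at ha
  set CC : ℕ := ∑ j ∈ s, c j with hCC
  set E : ℕ := CC * D * (X + 1) ^ D with hE
  set R : ℕ := 2 * τ + 3 + L0 + E + 1 with hRdef
  set q : ℕ := a * D + 2 * D + 1 with hq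
  have hR1 : 1 < R := by omega
  have hRR : (1 : ℝ) < R := by exact_mod_cast hR1
  have hlogR : 0 < Real.log R := Real.log_pos hRR
  have hq0 : (0 : ℝ) < q := by exact_mod_cast (by omega : 0 < q)
  have hqR : (q : ℝ) = a * D + 2 * D + 1 := by rw [hq]; push_cast; ring
  set θ' : ℝ := a / q with hθ'
  have hθθ : θ < θ' := by
    rw [hθ', lt_div_iff₀ hq0, hqR]
    nlinarith
  have hbb : (0 : ℝ) < (b : ℝ) - 1 := by linarith
  set DD : ℝ := (R : ℝ) ^ a * ((b : ℝ) - 1) with hDD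
  have hD0 : 0 < DD := by positivity
  have hev : ∀ᶠ N : ℕ in atTop, DD ≤ (N : ℝ) ^ (θ' - θ) :=
    ((tendsto_rpow_atTop (by linarith : 0 < θ' - θ)).comp
      tendsto_natCast_atTop_atTop).eventually_ge_atTop DD
  refine ⟨(1 / (2 * q * Real.log R)) ^ D, by positivity, ?_⟩
  filter_upwards [hev, eventually_ge_atTop (R ^ q)] with N hN1 hN2
  have hRq : 0 < R ^ q := by positivity
  have hN0 : N ≠ 0 := by omega
  have hNR : (0 : ℝ) < N := by exact_mod_cast (by omega : 0 < N)
  set lg := Nat.log R N with hlg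
  have hl1 : q ≤ lg := by
    rw [hlg]
    exact Nat.le_log_of_pow_le hR1 hN2
  set u := lg / q with hu
  have hqpos : 0 < q := by omega
  have hu1 : 1 ≤ u := by
    rw [hu]
    exact (Nat.one_le_div_iff hqpos).mpr hl1
  have hql : q * u ≤ lg := Nat.mul_div_le lg q
  have hexp : a * u * D + 1 + 2 * D * u ≤ q * u := by
    have h1 : q * u = a * u * D + u + 2 * D * u := by rw [hq]; ring
    rw [h1]
    omega
  have hlq : lg < q * (u + 1) := Nat.lt_mul_div_succ lg hqpos
  have hNlow : R ^ (q * u) ≤ N :=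
    le_trans (Nat.pow_le_pow_right (by omega) hql) (Nat.pow_log_le_self R hN0)
  have hNup : N < R ^ (q * (u + 1)) :=
    lt_of_lt_of_le (Nat.lt_pow_succ_log_self hR1 N) (Nat.pow_le_pow_right (by omega) hlq)
  by_cases hK : ∀ k, K b (Int.fract (x k)) N + 1 ≤ R ^ (a * u)
  · right
    have hRau : 1 ≤ R ^ (a * u) := Nat.one_le_pow _ _ (by omega)
    have hsp : ((range (N + 1)).filter (fun n => 1 ≤ V n)).card < R ^ (a * u * D + 1) := by
      set M : ℝ := (((X + 1) * R ^ (a * u) : ℕ) : ℝ) with hM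
      have hM1 : 1 ≤ M := by
        rw [hM]
        exact_mod_cast Nat.one_le_iff_ne_zero.mpr (by positivity)
      have hMk : ∀ k, (K b (Int.fract (x k)) N : ℝ) + x k + 2 ≤ M := by
        intro k
        have h1 : ((K b (Int.fract (x k)) N : ℝ) + 1) ≤ (R : ℝ) ^ (a * u) := by
          exact_mod_cast hK k
        have h2 := hXk k
        have h3 : (1 : ℝ) ≤ (R : ℝ) ^ (a * u) := by exact_mod_cast hRau
        rw [hM]
        push_cast
        have h4 : (0 : ℝ) ≤ X := Nat.cast_nonneg _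
        nlinarith
      have h1 : (((range (N + 1)).filter (fun n => 1 ≤ V n)).card : ℝ) ≤
          ∑ n ∈ range (N + 1), V n := by
        calc (((range (N + 1)).filter (fun n => 1 ≤ V n)).card : ℝ)
            = ∑ m ∈ (range (N + 1)).filter (fun n => 1 ≤ V n), (1 : ℝ) := by
              rw [sum_const, nsmul_eq_mul, mul_one]
          _ ≤ ∑ m ∈ (range (N + 1)).filter (fun n => 1 ≤ V n), V m :=
              sum_le_sum fun m hm => (mem_filter.mp hm).2
          _ ≤ ∑ m ∈ range (N + 1), V m :=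
              sum_le_sum_of_subset_of_nonneg (filter_subset _ _) fun m _ _ =>
                le_trans (TT_nonneg _ (hgood j0 hj0) m) (hV m)
      have h2 : ∑ n ∈ range (N + 1), V n ≤ ∑ j ∈ s, (c j : ℝ) * (D * M ^ D) := by
        rw [hVdef, sum_comm]
        refine sum_le_sum fun j hj => ?_
        rw [← mul_sum]
        refine mul_le_mul_of_nonneg_left ?_ (Nat.cast_nonneg _)
        have h3 := TT_sum hb N (l j) (hgood j hj) (M := M) (fun z hz => by
          obtain ⟨k, rfl⟩ := hl j hj z hz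
          exact hMk k)
        refine le_trans h3 ?_
        have h4 : ((l j).length : ℝ) ≤ D := by exact_mod_cast hlen j hj
        exact mul_le_mul h4 (pow_le_pow_right₀ hM1 (hlen j hj)) (by positivity) (by positivity)
      have h3 : ∑ j ∈ s, (c j : ℝ) * (D * M ^ D) =
          ((E * R ^ (a * u * D) : ℕ) : ℝ) := by
        rw [← sum_mul, hE, hCC, hM]
        push_cast
        rw [mul_pow, pow_mul (R : ℝ) (a * u) D]
        ring
      have h4 : (((range (N + 1)).filter (fun n => 1 ≤ V n)).card : ℝ) ≤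
          ((E * R ^ (a * u * D) : ℕ) : ℝ) := by
        rw [← h3]; linarith
      have h5 : ((range (N + 1)).filter (fun n => 1 ≤ V n)).card ≤ E * R ^ (a * u * D) := by
        exact_mod_cast h4
      have h6 : (E + 1) * R ^ (a * u * D) ≤ R ^ (a * u * D + 1) := by
        rw [pow_succ, mul_comm (R ^ (a * u * D))]
        exact Nat.mul_le_mul_right _ (by omega)
      have h7 : 0 < R ^ (a * u * D) := by positivity
      have h8 : (E + 1) * R ^ (a * u * D) = E * R ^ (a * u * D) + R ^ (a * u * D) := by ring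
      omega
    have hne : l j0 ≠ [] := by
      intro h
      rw [h] at hlen0
      simp at hlen0
      omega
    have hpre : (l j0).dropLast.reverse.reverse ++ [(l j0).getLast hne] = l j0 := by
      rw [List.reverse_reverse]
      exact List.dropLast_append_getLast hne
    have hlenp : (l j0).dropLast.reverse.length + 1 = D := by
      rw [List.length_reverse, List.length_dropLast, hlen0]
      omega
    have hHall : ∀ z ∈ l j0, ∀ L, L0 ≤ L →
        1 ≤ (b : ℝ) ^ (τ * L) * ep b (Int.fract z) L := by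
      intro z hz L hL
      obtain ⟨k, rfl⟩ := hl j0 hj0 z hz
      exact H k L hL
    have hRh : R ≤ R ^ (a * u * D + 1) := by
      calc R = R ^ 1 := (pow_one R).symm
        _ ≤ R ^ (a * u * D + 1) := Nat.pow_le_pow_right (by omega) (by omega)
    have h1 := count_k hb (hgood j0 hj0) hV hVint hHall (N := N) (R := R)
      (h := a * u * D + 1) (by omega) (by omega) hsp u (l j0).dropLast.reverse
      [(l j0).getLast hne] 0 hpre (Low_one (hHall _ (List.getLast_mem hne))) (by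
        rw [hlenp, zero_add]
        exact le_trans (Nat.pow_le_pow_right (by omega) hexp) hNlow)
    rw [hlenp, zero_add] at h1
    rw [cnt_eq]
    have hle : R ^ (a * u * D + 1 + 2 * D * u) ≤ N :=
      le_trans (Nat.pow_le_pow_right (by omega) hexp) hNlow
    have h1' : u ^ D ≤ ((Ioc 0 N).filter (fun k => 1 ≤ Ones.x b (Int.fract v) k)).card := by
      refine le_trans h1 (card_le_card ?_)
      intro p hp
      rw [mem_filter, mem_Ioc] at hp ⊢
      exact ⟨⟨hp.1.1, by omega⟩, hp.2⟩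
    have h2 : ((u ^ D : ℕ) : ℝ) ≤
        (((Ioc 0 N).filter (fun k => 1 ≤ Ones.x b (Int.fract v) k)).card : ℝ) := by
      exact_mod_cast h1'
    refine le_trans ?_ h2
    have h3 : Real.log N ≤ q * (u + 1) * Real.log R := by
      have h4 : (N : ℝ) ≤ (R : ℝ) ^ (q * (u + 1)) := by exact_mod_cast hNup.le
      have h5 := Real.log_le_log hNR h4
      rw [Real.log_pow] at h5
      push_cast at h5
      exact h5
    have hu1R : (1 : ℝ) ≤ u := by exact_mod_cast hu1
    have h6 : Real.log N ≤ 2 * q * Real.log R * u := by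
      have : (q : ℝ) * (u + 1) * Real.log R ≤ q * (2 * u) * Real.log R := by
        apply mul_le_mul_of_nonneg_right _ hlogR.le
        apply mul_le_mul_of_nonneg_left _ hq0.le
        linarith
      nlinarith
    have h7 : 0 ≤ Real.log N := Real.log_natCast_nonneg N
    have h8 : 1 / (2 * q * Real.log R) * Real.log N ≤ u := by
      rw [one_div, inv_mul_le_iff₀ (by positivity)]
      exact h6
    rw [← mul_pow]
    push_cast
    exact pow_le_pow_left₀ (by positivity) h8 D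
  · left
    push Not at hK
    obtain ⟨k, hK⟩ := hK
    refine ⟨k, ?_⟩
    have h1 : R ^ (a * u) ≤ K b (Int.fract (x k)) N := by omega
    have h2 := K_le_cnt' hb (hx k) N
    have h3 : ((R : ℝ)) ^ (a * u) ≤ ((b : ℝ) - 1) * cnt b 0 (x k) N :=
      le_trans (by exact_mod_cast h1) h2
    have h4 : (N : ℝ) ^ θ' ≤ (R : ℝ) ^ (a * (u + 1)) := by
      have h5 : (N : ℝ) ≤ (R : ℝ) ^ (q * (u + 1)) := by exact_mod_cast hNup.le
      have h6 : (N : ℝ) ^ θ' ≤ ((R : ℝ) ^ (q * (u + 1))) ^ θ' :=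
        Real.rpow_le_rpow hNR.le h5 (by positivity)
      have h7 : ((R : ℝ) ^ (q * (u + 1))) ^ θ' = (R : ℝ) ^ (a * (u + 1)) := by
        rw [← Real.rpow_natCast, ← Real.rpow_mul (by positivity), ← Real.rpow_natCast]
        congr 1
        rw [hθ']
        push_cast
        field_simp
      rw [← h7]
      exact h6
    have h5 : (R : ℝ) ^ (a * (u + 1)) = (R : ℝ) ^ a * (R : ℝ) ^ (a * u) := by
      rw [← pow_add]; congr 1; ring
    have h6 : (N : ℝ) ^ θ' = (N : ℝ) ^ (θ' - θ) * (N : ℝ) ^ θ := by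
      rw [← Real.rpow_add hNR]; congr 1; ring
    have h7 : 0 ≤ (N : ℝ) ^ θ := Real.rpow_nonneg hNR.le _
    have h8 : DD * (N : ℝ) ^ θ ≤ DD * cnt b 0 (x k) N := by
      calc DD * (N : ℝ) ^ θ ≤ (N : ℝ) ^ (θ' - θ) * (N : ℝ) ^ θ :=
            mul_le_mul_of_nonneg_right hN1 h7
        _ = (N : ℝ) ^ θ' := h6.symm
        _ ≤ (R : ℝ) ^ a * (R : ℝ) ^ (a * u) := by rw [← h5]; exact h4
        _ ≤ (R : ℝ) ^ a * (((b : ℝ) - 1) * cnt b 0 (x k) N) :=
            mul_le_mul_of_nonneg_left h3 (by positivity)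
        _ = DD * cnt b 0 (x k) N := by rw [hDD]; ring
    exact le_of_mul_le_mul_left h8 hD0

end Pool.Agent.H726R3.Sq
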