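import Pool.Agent.H726R3.Sq4

/-!
# Non-zero digits of values of polynomials with non-negative coefficients, II
-/

set_option autoImplicit false
set_option linter.unusedSectionVars false
set_option linter.unusedVariables false

open Finset Filter

namespace Pool.Agent.H726R3.Sq

open Pool.Agent.H726R3.Joint (digit cnt)

lemma exists_list {κ : Type} [Fintype κ] (x : κ → ℝ) (m : κ → ℕ) (t : Finset κ) :
    ∃ l : List ℝ, (∀ z ∈ l, ∃ k, z = x k) ∧ l.length = ∑ k ∈ t, m k ∧
      l.prod = ∏ k ∈ t, x k ^ m k := by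
  classical
  induction t using Finset.induction_on with
  | empty => exact ⟨[], by simp, by simp, by simp⟩
  | insert a t ha ih =>
    obtain ⟨l, h1, h2, h3⟩ := ih
    refine ⟨List.replicate (m a) (x a) ++ l, ?_, ?_, ?_⟩
    · intro z hz
      rw [List.mem_append] at hz
      rcases hz with hz | hz
      · exact ⟨a, List.eq_of_mem_replicate hz⟩
      · exact h1 z hz
    · rw [List.length_append, List.length_replicate, h2, sum_insert ha]
    · rw [List.prod_append, List.prod_replicate, h3, prod_insert ha]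

theorem poly {b : ℕ} (hb : 2 ≤ b) {κ : Type} [Fintype κ] {x : κ → ℝ} (hx0 : ∀ k, 0 < x k)
    (hx : ∀ k, Irrational (x k)) (hn : ∀ k, NB b (x k)) (P : MvPolynomial κ ℤ)
    (hP : ∀ m, m ≠ 0 → 0 ≤ P.coeff m) (hD : 1 ≤ P.totalDegree) {θ : ℝ}
    (hθ : θ * P.totalDegree < 1) :
    ∃ C : ℝ, 0 < C ∧ ∀ᶠ N : ℕ in atTop,
      (∃ k, (N : ℝ) ^ θ ≤ cnt b 0 (x k) N) ∨
        C * (Real.log N) ^ P.totalDegree ≤ cnt b 0 (MvPolynomial.aeval x P) N := by
  classical
  have hex : ∀ m : κ →₀ ℕ, ∃ l : List ℝ, (∀ z ∈ l, ∃ k, z = x k) ∧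
      l.length = m.sum (fun _ e => e) ∧ l.prod = ∏ k, x k ^ m k := by
    intro m
    obtain ⟨l, h1, h2, h3⟩ := exists_list x m univ
    refine ⟨l, h1, ?_, h3⟩
    rw [h2, Finsupp.sum_fintype _ _ (fun _ => rfl)]
  choose l hl1 hl2 hl3 using hex
  have hne : P.support.Nonempty := by
    rw [Finset.nonempty_iff_ne_empty]
    intro h
    rw [MvPolynomial.support_eq_empty] at h
    rw [h, MvPolynomial.totalDegree_zero] at hD
    omega
  obtain ⟨j0, hj0, hj1⟩ := exists_mem_eq_sup P.support hne (fun s => s.sum fun _ e => e)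
  have hdeg : P.totalDegree = j0.sum fun _ e => e := hj1
  have hj00 : j0 ≠ 0 := by
    rintro rfl
    rw [Finsupp.sum_zero_index] at hdeg
    omega
  have hc0 : 1 ≤ (P.coeff j0).toNat := by
    have h1 := hP j0 hj00
    have h2 : P.coeff j0 ≠ 0 := MvPolynomial.mem_support_iff.mp hj0
    omega
  have hv : MvPolynomial.aeval x P = ((P.coeff 0 : ℤ) : ℝ) +
      ∑ m ∈ P.support.erase 0, (((P.coeff m).toNat : ℕ) : ℝ) * (l m).prod := by
    rw [MvPolynomial.aeval_def, MvPolynomial.eval₂_eq']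
    have h1 : ∀ m ∈ P.support.erase 0, (((P.coeff m).toNat : ℕ) : ℝ) * (l m).prod =
        (algebraMap ℤ ℝ) (P.coeff m) * ∏ k, x k ^ m k := by
      intro m hm
      rw [hl3]
      congr 1
      have h2 : (((P.coeff m).toNat : ℕ) : ℤ) = P.coeff m :=
        Int.toNat_of_nonneg (hP m (ne_of_mem_erase hm))
      rw [eq_intCast]
      exact_mod_cast h2
    rw [sum_congr rfl h1]
    by_cases h0 : (0 : κ →₀ ℕ) ∈ P.support
    · rw [← add_sum_erase _ _ h0]
      simp
    · rw [erase_eq_of_notMem h0]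
      have : P.coeff 0 = 0 := by
        by_contra hc
        exact h0 (MvPolynomial.mem_support_iff.mpr hc)
      rw [this]
      simp
  exact fam hb hx0 hx hn (P.support.erase 0) (fun m => (P.coeff m).toNat) l
    (fun j _ => hl1 j) hD
    (fun j hj => by
      rw [hl2]
      exact MvPolynomial.le_totalDegree (mem_of_mem_erase hj))
    (j0 := j0) (mem_erase.mpr ⟨hj00, hj0⟩) hc0 (by rw [hl2, hdeg]) hv hθ

/-- the condition on the numbers -/
lemma cond {b : ℕ} (hb : 2 ≤ b) {x : ℝ}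
    (h : (x = Real.pi ∨ x = Real.exp 1 ∨ x = √Real.pi ∨ x = √(Real.exp 1)) ∨
      (Irrational x ∧ ∃ p : ℝ, ¬ LiouvilleWith p x)) : Irrational x ∧ NB b x := by
  rcases h with (rfl | rfl | rfl | rfl) | ⟨hx, p, hp⟩
  · exact ⟨irrational_pi, NB_pi hb⟩
  · exact ⟨irr_exp, NB_exp hb⟩
  · exact ⟨irr_sqrt Real.pi_pos irrational_pi, (NB_pi hb).sqrt hb Real.pi_pos⟩
  · exact ⟨irr_sqrt (Real.exp_pos 1) irr_exp, (NB_exp hb).sqrt hb (Real.exp_pos 1)⟩
  · exact ⟨hx, NB_of_not_liouvilleWith hb hx hp⟩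

end Pool.Agent.H726R3.Sq
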