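import Pool.Agent.H726R3.Joint2
import Pool.Agent.H726R3.FactDvd

/-!
# Tails of generalised expansions

`g : ℕ → ℕ` are generalised digits of the real number `v`; `TG` is the tail. `UG` is the tail of
the product of `v` with the ordinary expansion of `z ∈ (0,1)`.
-/

set_option autoImplicit false
set_option linter.unusedSectionVars false
set_option linter.unusedVariables false

open Finset Filter

namespace Pool.Agent.H726R3.Tup

open Pool.Agent.H394R2.Ones

/-- tail of a generalised expansion -/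
noncomputable def TG (b : ℕ) (g : ℕ → ℕ) (v : ℝ) (N : ℕ) : ℝ :=
  v * (b : ℝ) ^ N - ∑ i ∈ range (N + 1), (g i : ℝ) * (b : ℝ) ^ (N - i)

/-- tail of the product with the expansion of `z` -/
noncomputable def UG (b : ℕ) (z : ℝ) (g : ℕ → ℕ) (v : ℝ) (N : ℕ) : ℝ :=
  z * v * (b : ℝ) ^ N - ∑ i ∈ range (N + 1), (g i : ℝ) * B b z (N - i)

/-- partial sums -/
def GG (g : ℕ → ℕ) (n : ℕ) : ℕ := ∑ i ∈ range (n + 1), g i

section
variable {b : ℕ} {z : ℝ} {g : ℕ → ℕ} {v : ℝ}

lemma GG_mono {m n : ℕ} (h : m ≤ n) : GG g m ≤ GG g n := by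
  unfold GG
  exact sum_le_sum_of_subset (range_mono (by omega))

lemma TG_succ (N : ℕ) : TG b g v (N + 1) = b * TG b g v N - g (N + 1) := by
  unfold TG
  rw [sum_range_succ _ (N + 1), Nat.sub_self, pow_zero, mul_one]
  have h : ∑ m ∈ range (N + 1), (g m : ℝ) * (b : ℝ) ^ (N + 1 - m) =
      b * ∑ m ∈ range (N + 1), (g m : ℝ) * (b : ℝ) ^ (N - m) := by
    rw [mul_sum]
    refine sum_congr rfl fun m hm => ?_
    have : m ≤ N := by have := mem_range.mp hm; omega
    rw [Nat.succ_sub this, pow_succ]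
    ring
  rw [h, pow_succ]
  ring

lemma TG_zeros (L : ℕ) : ∀ h : ℕ, (∀ k, L < k → k ≤ L + h → g k = 0) →
    TG b g v (L + h) = (b : ℝ) ^ h * TG b g v L := by
  intro h
  induction h with
  | zero => intro _; simp
  | succ h ih =>
    intro hk
    rw [← add_assoc, TG_succ, ih (fun k h1 h2 => hk k h1 (by omega)),
      hk (L + h + 1) (by omega) (by omega), pow_succ]
    push_cast
    ring

lemma UG_eq (N : ℕ) : UG b z g v N =
    ∑ i ∈ range (N + 1), (g i : ℝ) * ep b z (N - i) + z * TG b g v N := by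
  unfold UG TG
  have h : ∀ i ∈ range (N + 1), (g i : ℝ) * ep b z (N - i) =
      z * ((g i : ℝ) * (b : ℝ) ^ (N - i)) - (g i : ℝ) * B b z (N - i) := by
    intro i _
    unfold ep
    ring
  rw [sum_congr rfl h, sum_sub_distrib, ← mul_sum]
  ring

lemma UG_nonneg (hz0 : 0 < z) (hT : ∀ N, 0 ≤ TG b g v N) (N : ℕ) : 0 ≤ UG b z g v N := by
  rw [UG_eq]
  have h1 : 0 ≤ ∑ i ∈ range (N + 1), (g i : ℝ) * ep b z (N - i) :=
    sum_nonneg fun i _ => mul_nonneg (Nat.cast_nonneg _) (ep_nonneg hz0 _)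
  have h2 : 0 ≤ z * TG b g v N := mul_nonneg hz0.le (hT N)
  linarith

lemma UG_ge (hz0 : 0 < z) (hT : ∀ N, 0 ≤ TG b g v N) {m j : ℕ} (hj : j ≤ m) (hg : 1 ≤ g j) :
    ep b z (m - j) ≤ UG b z g v m := by
  rw [UG_eq]
  have h1 : (g j : ℝ) * ep b z (m - j) ≤ ∑ i ∈ range (m + 1), (g i : ℝ) * ep b z (m - i) := by
    refine single_le_sum (f := fun i => (g i : ℝ) * ep b z (m - i)) ?_ (mem_range.mpr (by omega))
    intro i _
    exact mul_nonneg (Nat.cast_nonneg _) (ep_nonneg hz0 _)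
  have h2 : (1 : ℝ) ≤ g j := by exact_mod_cast hg
  have h3 := ep_nonneg (b := b) hz0 (m - j)
  have h4 : 0 ≤ z * TG b g v m := mul_nonneg hz0.le (hT m)
  have h5 : ep b z (m - j) ≤ (g j : ℝ) * ep b z (m - j) := le_mul_of_one_le_left h3 h2
  linarith

lemma UG_upper (hz0 : 0 < z) (hz1 : z < 1) (hT : ∀ N, 0 ≤ TG b g v N) (N : ℕ) :
    UG b z g v N ≤ GG g N + TG b g v N := by
  rw [UG_eq]
  have h1 : ∑ i ∈ range (N + 1), (g i : ℝ) * ep b z (N - i) ≤ GG g N := by
    unfold GG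
    push_cast
    refine sum_le_sum fun i _ => ?_
    exact mul_le_of_le_one_right (Nat.cast_nonneg _) (ep_lt _).le
  have h2 : z * TG b g v N ≤ TG b g v N := mul_le_of_le_one_left (hT N) hz1.le
  linarith

lemma UG_succ (hb : 2 ≤ b) (hz0 : 0 < z) (hz1 : z < 1) (N : ℕ) :
    UG b z g v (N + 1) = b * UG b z g v N -
      ((∑ i ∈ range (N + 1 + 1), g i * x b z (N + 1 - i) : ℕ) : ℝ) := by
  unfold UG
  rw [sum_range_succ _ (N + 1), Nat.sub_self, B_zero hz0 hz1, sum_range_succ _ (N + 1),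
    Nat.sub_self, x_zero hz0 hz1]
  push_cast
  have h : ∀ i ∈ range (N + 1), (g i : ℝ) * B b z (N + 1 - i) =
      b * ((g i : ℝ) * B b z (N - i)) + (g i : ℝ) * x b z (N + 1 - i) := by
    intro i hi
    have hi' : i ≤ N := by have := mem_range.mp hi; omega
    rw [Nat.succ_sub hi', B_succ hb]
    push_cast
    ring
  rw [sum_congr rfl h, sum_add_distrib, ← mul_sum]
  ring

lemma sumUR (N : ℕ) : ∑ m ∈ range (N + 1), ∑ i ∈ range (m + 1), g i * x b z (m - i) ≤
    K b z N * GG g N := by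
  have h1 : ∀ m, ∑ i ∈ range (m + 1), g i * x b z (m - i) =
      ∑ p ∈ antidiagonal m, g p.1 * x b z p.2 := by
    intro m
    rw [Nat.sum_antidiagonal_eq_sum_range_succ_mk]
  have h2 := pair_sum N (fun i l => g i * x b z l)
  rw [sum_congr rfl fun m _ => h1 m]
  have h3 : ∑ p ∈ range (N + 1) ×ˢ range (N + 1), g p.1 * x b z p.2 = GG g N * K b z N := by
    unfold GG K
    rw [sum_mul_sum, sum_product]
  rw [h3] at h2
  rw [mul_comm]
  omega

lemma UG_sum (hb : 2 ≤ b) (hz0 : 0 < z) (hz1 : z < 1) (hT : ∀ N, 0 ≤ TG b g v N) (n : ℕ) :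
    ((b : ℝ) - 1) * ∑ m ∈ range n, UG b z g v m ≤
      (K b z n : ℝ) * GG g n + GG g n + TG b g v n := by
  have h1 : ∀ N : ℕ, ((b : ℝ) - 1) * ∑ m ∈ range N, UG b z g v m + UG b z g v 0 +
      ((∑ i ∈ range (0 + 1), g i * x b z (0 - i) : ℕ) : ℝ) =
      ∑ m ∈ range (N + 1), ((∑ i ∈ range (m + 1), g i * x b z (m - i) : ℕ) : ℝ) +
        UG b z g v N := by
    intro N
    induction N with
    | zero => simp; ring
    | succ N ih =>
      rw [sum_range_succ, sum_range_succ _ (N + 1)]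
      have := UG_succ (g := g) (v := v) hb hz0 hz1 N
      linear_combination ih - this
  have h2 := h1 n
  have h3 : ∑ m ∈ range (n + 1), ((∑ i ∈ range (m + 1), g i * x b z (m - i) : ℕ) : ℝ) ≤
      (K b z n : ℝ) * GG g n := by
    exact_mod_cast sumUR n
  have h4 := UG_upper hz0 hz1 hT n
  have h5 := UG_nonneg hz0 hT 0
  have h6 : (0 : ℝ) ≤ ((∑ i ∈ range (0 + 1), g i * x b z (0 - i) : ℕ) : ℝ) := Nat.cast_nonneg _
  linarith

end

end Pool.Agent.H726R3.Tup
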