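import Pool.Agent.H726R3.Tup1

/-!
# Powers of `1 + ∑ y k` and dominated expansions
-/

set_option autoImplicit false
set_option linter.unusedSectionVars false
set_option linter.unusedVariables false

open Finset Filter

namespace Pool.Agent.H726R3.Tup

open Pool.Agent.H394R2.Ones
open Pool.Agent.H726R3.Joint (X BB EE BB_eq zb_eq EE_nonneg EE_le)
open Pool.Agent.H726R3.FactDvd (rr)

variable {κ : Type} [Fintype κ]

/-- generalised digits of `1 + ∑ y k` -/
noncomputable def ff (b : ℕ) (y : κ → ℝ) (i : ℕ) : ℕ := if i = 0 then 1 else X b y i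

/-- `1 + ∑ y k` -/
noncomputable def YY (y : κ → ℝ) : ℝ := 1 + ∑ k, y k

/-- tail of the `d`-th power -/
noncomputable def TM (b : ℕ) (y : κ → ℝ) (d N : ℕ) : ℝ := TG b (rr (ff b y) d) (YY y ^ d) N

lemma rr_range' (f : ℕ → ℕ) (d m : ℕ) :
    rr f (d + 1) m = ∑ i ∈ range (m + 1), f i * rr f d (m - i) := by
  show ∑ p ∈ antidiagonal m, f p.1 * rr f d p.2 = _
  rw [Nat.sum_antidiagonal_eq_sum_range_succ_mk]

lemma rr_zero_eq (f : ℕ → ℕ) (m : ℕ) : rr f 0 m = if m = 0 then 1 else 0 := rfl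

lemma rr_sum' (f : ℕ → ℕ) (d n : ℕ) : GG (rr f d) n ≤ GG f n ^ d := by
  induction d with
  | zero =>
    unfold GG
    simp only [rr_zero_eq, pow_zero]
    rw [sum_ite_eq' (range (n + 1)) 0 (fun _ => 1), if_pos (by simp)]
  | succ d ih =>
    have h1 := pair_sum n (fun i j => f i * rr f d j)
    have h2 : GG (rr f (d + 1)) n ≤
        ∑ p ∈ range (n + 1) ×ˢ range (n + 1), f p.1 * rr f d p.2 := by
      rw [h1]
      exact Nat.le_add_right _ _
    refine h2.trans ?_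
    rw [sum_product]
    simp only [← mul_sum]
    rw [← sum_mul, pow_succ, mul_comm (GG f n ^ d)]
    exact Nat.mul_le_mul le_rfl ih

section
variable {b : ℕ} {y : κ → ℝ}

lemma ff_zero : ff b y 0 = 1 := by simp [ff]

lemma ff_succ (i : ℕ) : ff b y (i + 1) = X b y (i + 1) := by simp [ff]

lemma KF_pos (n : ℕ) : 1 ≤ GG (ff b y) n := by
  unfold GG
  rw [sum_range_succ', ff_zero]
  omega

lemma YY_pos (hy0 : ∀ k, 0 < y k) : 1 ≤ YY y := by
  unfold YY
  have : 0 ≤ ∑ k, y k := sum_nonneg fun k _ => (hy0 k).le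
  linarith

lemma YY_exp (hb : 2 ≤ b) (hy0 : ∀ k, 0 < y k) (hy1 : ∀ k, y k < 1) (N : ℕ) :
    YY y * (b : ℝ) ^ N = ∑ i ∈ range (N + 1), (ff b y i : ℝ) * (b : ℝ) ^ (N - i) + EE b y N := by
  unfold YY
  rw [add_mul, one_mul, zb_eq, BB_eq hb hy0 hy1]
  push_cast
  rw [sum_range_succ' (fun i => (ff b y i : ℝ) * (b : ℝ) ^ (N - i)),
    sum_range_succ' (fun i => (X b y i : ℝ) * (b : ℝ) ^ (N - i)), ff_zero]
  have h0 : X b y 0 = 0 := by
    unfold X
    exact sum_eq_zero fun k _ => x_zero (hy0 k) (hy1 k)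
  rw [h0]
  simp only [ff_succ, Nat.sub_zero]
  push_cast
  ring

lemma TM_zero (N : ℕ) : TM b y 0 N = 0 := by
  unfold TM TG
  rw [sum_range_succ']
  simp [rr_zero_eq]

/-- the recursion in the degree -/
lemma TM_rec (hb : 2 ≤ b) (hy0 : ∀ k, 0 < y k) (hy1 : ∀ k, y k < 1) (d N : ℕ) :
    TM b y (d + 1) N = ∑ i ∈ range (N + 1), (ff b y i : ℝ) * TM b y d (N - i) +
      YY y ^ d * EE b y N := by
  unfold TM TG
  have h1 : ∑ m ∈ range (N + 1), (rr (ff b y) (d + 1) m : ℝ) * (b : ℝ) ^ (N - m) =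
      ∑ i ∈ range (N + 1), (ff b y i : ℝ) *
        ∑ j ∈ range (N - i + 1), (rr (ff b y) d j : ℝ) * (b : ℝ) ^ (N - i - j) := by
    have h2 := sum_range_diag_flip (N + 1)
      (fun i j => (ff b y i : ℝ) * ((rr (ff b y) d j : ℝ) * (b : ℝ) ^ (N - i - j)))
    have h3 : ∑ m ∈ range (N + 1), (rr (ff b y) (d + 1) m : ℝ) * (b : ℝ) ^ (N - m) =
        ∑ m ∈ range (N + 1), ∑ k ∈ range (m + 1), (ff b y k : ℝ) *
          ((rr (ff b y) d (m - k) : ℝ) * (b : ℝ) ^ (N - k - (m - k))) := by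
      refine sum_congr rfl fun m hm => ?_
      rw [rr_range']
      push_cast
      rw [sum_mul]
      refine sum_congr rfl fun k hk => ?_
      have hk' : k ≤ m := by have := mem_range.mp hk; omega
      have e : N - k - (m - k) = N - m := by omega
      rw [e]; ring
    rw [h3, h2]
    refine sum_congr rfl fun i hi => ?_
    have hi' : i ≤ N := by have := mem_range.mp hi; omega
    have e : N + 1 - i = N - i + 1 := by omega
    rw [e, mul_sum]
  rw [h1]
  have h4 := YY_exp hb hy0 hy1 N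
  have h5 : YY y ^ (d + 1) * (b : ℝ) ^ N = YY y ^ d * (YY y * (b : ℝ) ^ N) := by ring
  rw [h5, h4]
  have h6 : ∑ i ∈ range (N + 1), (ff b y i : ℝ) * (YY y ^ d * (b : ℝ) ^ (N - i) -
      ∑ j ∈ range (N - i + 1), (rr (ff b y) d j : ℝ) * (b : ℝ) ^ (N - i - j)) =
      YY y ^ d * ∑ i ∈ range (N + 1), (ff b y i : ℝ) * (b : ℝ) ^ (N - i) -
        ∑ i ∈ range (N + 1), (ff b y i : ℝ) *
        ∑ j ∈ range (N - i + 1), (rr (ff b y) d j : ℝ) * (b : ℝ) ^ (N - i - j) := by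
    rw [mul_sum, ← sum_sub_distrib]
    refine sum_congr rfl fun i _ => ?_
    ring
  rw [h6]
  ring

lemma TM_nonneg (hb : 2 ≤ b) (hy0 : ∀ k, 0 < y k) (hy1 : ∀ k, y k < 1) (d : ℕ) :
    ∀ N, 0 ≤ TM b y d N := by
  induction d with
  | zero => intro N; rw [TM_zero]
  | succ d ih =>
    intro N
    rw [TM_rec hb hy0 hy1]
    have h1 : 0 ≤ ∑ i ∈ range (N + 1), (ff b y i : ℝ) * TM b y d (N - i) :=
      sum_nonneg fun i _ => mul_nonneg (Nat.cast_nonneg _) (ih _)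
    have h2 : 0 ≤ YY y ^ d * EE b y N :=
      mul_nonneg (pow_nonneg (by have := YY_pos hy0; linarith) _) (EE_nonneg hy0 N)
    linarith

lemma TM_mono (hb : 2 ≤ b) (hy0 : ∀ k, 0 < y k) (hy1 : ∀ k, y k < 1) (d N : ℕ) :
    TM b y d N ≤ TM b y (d + 1) N := by
  rw [TM_rec hb hy0 hy1]
  have h1 : (ff b y 0 : ℝ) * TM b y d (N - 0) ≤
      ∑ i ∈ range (N + 1), (ff b y i : ℝ) * TM b y d (N - i) :=
    single_le_sum (f := fun i => (ff b y i : ℝ) * TM b y d (N - i))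
      (fun i _ => mul_nonneg (Nat.cast_nonneg _) (TM_nonneg hb hy0 hy1 d _))
      (mem_range.mpr (by omega))
  rw [ff_zero, Nat.sub_zero, Nat.cast_one, one_mul] at h1
  have h2 : 0 ≤ YY y ^ d * EE b y N :=
    mul_nonneg (pow_nonneg (by have := YY_pos hy0; linarith) _) (EE_nonneg hy0 N)
  linarith

lemma TM_upper (hb : 2 ≤ b) (hy0 : ∀ k, 0 < y k) (hy1 : ∀ k, y k < 1) (d : ℕ) :
    ∃ C : ℝ, 0 ≤ C ∧ ∀ N, TM b y (d + 1) N ≤ C * (GG (ff b y) N : ℝ) ^ d := by
  induction d with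
  | zero =>
    refine ⟨Fintype.card κ, Nat.cast_nonneg _, fun N => ?_⟩
    rw [TM_rec hb hy0 hy1]
    simp only [TM_zero, mul_zero, sum_const_zero, pow_zero, one_mul, mul_one, zero_add]
    exact EE_le N
  | succ d ih =>
    obtain ⟨C, hC, h⟩ := ih
    have hY := YY_pos hy0
    have hYp : 0 ≤ YY y ^ (d + 1) := pow_nonneg (by linarith) _
    refine ⟨C + YY y ^ (d + 1) * Fintype.card κ,
      add_nonneg hC (mul_nonneg hYp (Nat.cast_nonneg _)), fun N => ?_⟩
    rw [TM_rec hb hy0 hy1]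
    have hK : (1 : ℝ) ≤ GG (ff b y) N := by exact_mod_cast KF_pos N
    have h1 : ∑ i ∈ range (N + 1), (ff b y i : ℝ) * TM b y (d + 1) (N - i) ≤
        C * (GG (ff b y) N : ℝ) ^ (d + 1) := by
      have h2 : ∀ i ∈ range (N + 1), (ff b y i : ℝ) * TM b y (d + 1) (N - i) ≤
          (ff b y i : ℝ) * (C * (GG (ff b y) N : ℝ) ^ d) := by
        intro i _
        refine mul_le_mul_of_nonneg_left ((h _).trans ?_) (Nat.cast_nonneg _)
        refine mul_le_mul_of_nonneg_left ?_ hC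
        refine pow_le_pow_left₀ (Nat.cast_nonneg _) ?_ _
        exact_mod_cast GG_mono (Nat.sub_le N i)
      refine (sum_le_sum h2).trans (le_of_eq ?_)
      rw [← sum_mul]
      have : (∑ i ∈ range (N + 1), (ff b y i : ℝ)) = (GG (ff b y) N : ℝ) := by
        unfold GG; push_cast; rfl
      rw [this]; ring
    have h3 : YY y ^ (d + 1) * EE b y N ≤
        YY y ^ (d + 1) * Fintype.card κ * (GG (ff b y) N : ℝ) ^ (d + 1) := by
      have h4 : YY y ^ (d + 1) * EE b y N ≤ YY y ^ (d + 1) * Fintype.card κ :=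
        mul_le_mul_of_nonneg_left (EE_le N) hYp
      have h5 : YY y ^ (d + 1) * Fintype.card κ ≤
          YY y ^ (d + 1) * Fintype.card κ * (GG (ff b y) N : ℝ) ^ (d + 1) :=
        le_mul_of_one_le_right (mul_nonneg hYp (Nat.cast_nonneg _)) (one_le_pow₀ hK)
      exact h4.trans h5
    calc _ ≤ C * (GG (ff b y) N : ℝ) ^ (d + 1) +
        YY y ^ (d + 1) * Fintype.card κ * (GG (ff b y) N : ℝ) ^ (d + 1) := add_le_add h1 h3
      _ = _ := by ring

/-! ### dominated expansions -/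

/-- `v b^N` is within `A * TM` of an integer -/
def Dom (b : ℕ) (y : κ → ℝ) (d : ℕ) (v : ℝ) : Prop :=
  ∃ A : ℝ, 0 ≤ A ∧ ∃ w : ℕ → ℤ, ∀ N, |v * (b : ℝ) ^ N - w N| ≤ A * TM b y d N

lemma Dom_int (hb : 2 ≤ b) (hy0 : ∀ k, 0 < y k) (hy1 : ∀ k, y k < 1) (d : ℕ) (m : ℤ) :
    Dom b y d m := by
  refine ⟨0, le_rfl, fun N => m * (b : ℤ) ^ N, fun N => ?_⟩
  push_cast
  rw [sub_self, abs_zero, zero_mul]

lemma Dom_add {d : ℕ} {u v : ℝ} (hu : Dom b y d u) (hv : Dom b y d v) : Dom b y d (u + v) := by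
  obtain ⟨A, hA, w, hw⟩ := hu
  obtain ⟨A', hA', w', hw'⟩ := hv
  refine ⟨A + A', add_nonneg hA hA', fun N => w N + w' N, fun N => ?_⟩
  push_cast
  have e : (u + v) * (b : ℝ) ^ N - ((w N : ℝ) + w' N) =
      (u * (b : ℝ) ^ N - w N) + (v * (b : ℝ) ^ N - w' N) := by ring
  rw [e, add_mul]
  exact (abs_add_le _ _).trans (add_le_add (hw N) (hw' N))

lemma Dom_smul {d : ℕ} {v : ℝ} (hv : Dom b y d v) (m : ℤ) : Dom b y d (m * v) := by
  obtain ⟨A, hA, w, hw⟩ := hv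
  refine ⟨|(m : ℝ)| * A, mul_nonneg (abs_nonneg _) hA, fun N => m * w N, fun N => ?_⟩
  push_cast
  have e : (m : ℝ) * v * (b : ℝ) ^ N - (m : ℝ) * w N = m * (v * (b : ℝ) ^ N - w N) := by ring
  rw [e, abs_mul, mul_assoc]
  exact mul_le_mul_of_nonneg_left (hw N) (abs_nonneg _)

lemma Dom_succ (hb : 2 ≤ b) (hy0 : ∀ k, 0 < y k) (hy1 : ∀ k, y k < 1) {d : ℕ} {v : ℝ}
    (hv : Dom b y d v) : Dom b y (d + 1) v := by
  obtain ⟨A, hA, w, hw⟩ := hv
  exact ⟨A, hA, w, fun N => (hw N).trans (mul_le_mul_of_nonneg_left (TM_mono hb hy0 hy1 d N) hA)⟩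

lemma Dom_mul (hb : 2 ≤ b) (hy0 : ∀ k, 0 < y k) (hy1 : ∀ k, y k < 1) {d : ℕ} {v : ℝ}
    (hv : Dom b y d v) (k : κ) : Dom b y (d + 1) (y k * v) := by
  obtain ⟨A, hA, w, hw⟩ := hv
  set A' : ℝ := max A |v| with hA'
  have hA'0 : 0 ≤ A' := hA.trans (le_max_left _ _)
  refine ⟨A', hA'0, fun N => ∑ i ∈ range (N + 1), (x b (y k) i : ℤ) * w (N - i), fun N => ?_⟩
  have hexp : y k * (b : ℝ) ^ N = ∑ i ∈ range (N + 1), (x b (y k) i : ℝ) * (b : ℝ) ^ (N - i) +
      ep b (y k) N := by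
    have h1 := B_eq hb (hy0 k) (hy1 k) N
    have h2 : (B b (y k) N : ℝ) = ∑ i ∈ range (N + 1), (x b (y k) i : ℝ) * (b : ℝ) ^ (N - i) := by
      rw [h1]; push_cast; rfl
    rw [← h2]
    unfold ep
    ring
  have hxf : ∀ i, (x b (y k) i : ℝ) ≤ ff b y i := by
    intro i
    rcases Nat.eq_zero_or_pos i with rfl | hi
    · rw [x_zero (hy0 k) (hy1 k), ff_zero]; norm_num
    · obtain ⟨j, rfl⟩ : ∃ j, i = j + 1 := ⟨i - 1, by omega⟩
      rw [ff_succ]
      have : x b (y k) (j + 1) ≤ X b y (j + 1) := by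
        unfold X
        exact single_le_sum (f := fun k => x b (y k) (j + 1)) (fun _ _ => Nat.zero_le _)
          (mem_univ k)
      exact_mod_cast this
  have hep : ep b (y k) N ≤ EE b y N := by
    unfold EE
    exact single_le_sum (f := fun k => ep b (y k) N) (fun l _ => ep_nonneg (hy0 l) N) (mem_univ k)
  have e : y k * v * (b : ℝ) ^ N -
      ((∑ i ∈ range (N + 1), (x b (y k) i : ℤ) * w (N - i) : ℤ) : ℝ) =
      ∑ i ∈ range (N + 1), (x b (y k) i : ℝ) * (v * (b : ℝ) ^ (N - i) - w (N - i)) +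
        ep b (y k) N * v := by
    have h3 : y k * v * (b : ℝ) ^ N = v * (y k * (b : ℝ) ^ N) := by ring
    rw [h3, hexp]
    push_cast
    rw [mul_add, mul_sum]
    have h4 : ∑ i ∈ range (N + 1), (x b (y k) i : ℝ) * (v * (b : ℝ) ^ (N - i) - w (N - i)) =
        ∑ i ∈ range (N + 1), v * ((x b (y k) i : ℝ) * (b : ℝ) ^ (N - i)) -
          ∑ i ∈ range (N + 1), (x b (y k) i : ℝ) * w (N - i) := by
      rw [← sum_sub_distrib]
      exact sum_congr rfl fun i _ => by ring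
    rw [h4]
    ring
  rw [e, TM_rec hb hy0 hy1, mul_add]
  refine (abs_add_le _ _).trans (add_le_add ?_ ?_)
  · rw [mul_sum]
    refine (abs_sum_le_sum_abs _ _).trans (sum_le_sum fun i _ => ?_)
    rw [abs_mul, abs_of_nonneg (Nat.cast_nonneg _ : (0 : ℝ) ≤ (x b (y k) i : ℝ))]
    have hT := TM_nonneg hb hy0 hy1 d (N - i)
    calc (x b (y k) i : ℝ) * |v * (b : ℝ) ^ (N - i) - w (N - i)|
        ≤ (ff b y i : ℝ) * (A' * TM b y d (N - i)) := by
          refine mul_le_mul (hxf i) ((hw _).trans ?_) (abs_nonneg _) (Nat.cast_nonneg _)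
          exact mul_le_mul_of_nonneg_right (le_max_left _ _) hT
      _ = A' * ((ff b y i : ℝ) * TM b y d (N - i)) := by ring
  · rw [abs_mul, abs_of_nonneg (ep_nonneg (hy0 k) N)]
    have hYp : 1 ≤ YY y ^ d := one_le_pow₀ (YY_pos hy0)
    have hE := EE_nonneg (b := b) hy0 N
    calc ep b (y k) N * |v| ≤ EE b y N * A' :=
          mul_le_mul hep (le_max_right _ _) (abs_nonneg _) hE
      _ = A' * (1 * EE b y N) := by ring
      _ ≤ A' * (YY y ^ d * EE b y N) :=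
          mul_le_mul_of_nonneg_left (mul_le_mul_of_nonneg_right hYp hE) hA'0

/-- the rational multiples of dominated numbers -/
def DomQ (hb : 2 ≤ b) (hy0 : ∀ k, 0 < y k) (hy1 : ∀ k, y k < 1) (d : ℕ) : Submodule ℚ ℝ where
  carrier := {v | ∃ q : ℕ, 1 ≤ q ∧ Dom b y d (q * v)}
  add_mem' := by
    rintro u v ⟨q, hq, hu⟩ ⟨q', hq', hv⟩
    refine ⟨q * q', Nat.mul_pos hq hq', ?_⟩
    have h1 := Dom_add (Dom_smul hu (q' : ℤ)) (Dom_smul hv (q : ℤ))
    have e : ((q * q' : ℕ) : ℝ) * (u + v) =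
        ((q' : ℤ) : ℝ) * (q * u) + ((q : ℤ) : ℝ) * (q' * v) := by
      push_cast; ring
    rw [e]; exact h1
  zero_mem' := by
    refine ⟨1, le_rfl, ?_⟩
    have := Dom_int hb hy0 hy1 (b := b) (y := y) d 0
    simpa using this
  smul_mem' := by
    rintro r v ⟨q, hq, hv⟩
    refine ⟨q * r.den, Nat.mul_pos hq r.den_pos, ?_⟩
    have h1 := Dom_smul hv r.num
    have h := Rat.mul_den_eq_num r
    have h' : (r : ℝ) * (r.den : ℝ) = r.num := by exact_mod_cast h
    have e : ((q * r.den : ℕ) : ℝ) * (r • v) = (r.num : ℝ) * (q * v) := by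
      rw [Rat.smul_def, ← h']; push_cast; ring
    rw [e]; exact h1

lemma span_pow_le (hb : 2 ≤ b) (hy0 : ∀ k, 0 < y k) (hy1 : ∀ k, y k < 1) (d : ℕ) :
    (Submodule.span ℚ (insert 1 (Set.range y))) ^ d ≤ DomQ hb hy0 hy1 d := by
  induction d with
  | zero =>
    rw [pow_zero]
    intro v hv
    rw [Submodule.mem_one] at hv
    obtain ⟨r, rfl⟩ := hv
    refine ⟨r.den, r.den_pos, ?_⟩
    have h := Rat.mul_den_eq_num r
    have h' : (r.den : ℝ) * (algebraMap ℚ ℝ r) = ((r.num : ℤ) : ℝ) := by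
      rw [mul_comm]
      have : (r : ℝ) * (r.den : ℝ) = r.num := by exact_mod_cast h
      simpa using this
    rw [h']
    exact Dom_int hb hy0 hy1 0 r.num
  | succ d ih =>
    rw [pow_succ', Submodule.mul_le]
    intro u hu v hv
    have hv' := ih hv
    induction hu using Submodule.span_induction with
    | mem u hu =>
      obtain ⟨q, hq, hD⟩ := hv'
      rcases hu with rfl | ⟨k, rfl⟩
      · rw [one_mul]
        exact ⟨q, hq, Dom_succ hb hy0 hy1 hD⟩
      · refine ⟨q, hq, ?_⟩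
        have e : (q : ℝ) * (y k * v) = y k * (q * v) := by ring
        rw [e]
        exact Dom_mul hb hy0 hy1 hD k
    | zero => rw [zero_mul]; exact Submodule.zero_mem _
    | add u u' _ _ h1 h2 => rw [add_mul]; exact Submodule.add_mem _ h1 h2
    | smul r u _ h1 =>
      rw [smul_mul_assoc]
      exact Submodule.smul_mem _ r h1

end

end Pool.Agent.H726R3.Tup
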