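import Pool.Agent.H726R3.Tup2

/-!
# Counting bad positions for powers, and the core theorem for tuples
-/

set_option autoImplicit false
set_option linter.unusedSectionVars false
set_option linter.unusedVariables false

open Finset Filter

namespace Pool.Agent.H726R3.Tup

open Pool.Agent.H394R2.Ones
open Pool.Agent.H726R3.Joint (X BB EE BB_eq zb_eq EE_nonneg EE_le pow_eq_exp K_tendsto)
open Pool.Agent.H726R3.FactDvd (rr)
open Pool.Agent.H820R3.DG (ridout gap count_blocks)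

variable {κ : Type} [Fintype κ]

section
variable {b : ℕ} {y : κ → ℝ} {z : ℝ}

lemma rr_zero_pos' (d : ℕ) : 1 ≤ rr (ff b y) d 0 := by
  induction d with
  | zero => rw [rr_zero_eq]; simp
  | succ d ih =>
    rw [rr_range']
    simp [ff_zero]
    exact ih

lemma KF_le (hb : 2 ≤ b) (n : ℕ) :
    GG (ff b y) n ≤ (Fintype.card κ * b + 1) * (n + 1) := by
  unfold GG
  calc ∑ i ∈ range (n + 1), ff b y i ≤ ∑ i ∈ range (n + 1), (Fintype.card κ * b + 1) := by
        refine sum_le_sum fun i _ => ?_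
        unfold ff X
        split_ifs
        · omega
        · have : ∑ k, x b (y k) i ≤ ∑ _k : κ, b := by
            refine sum_le_sum fun k _ => ?_
            unfold x; exact (Nat.mod_lt _ (by omega)).le
          rw [sum_const, card_univ, smul_eq_mul] at this
          omega
    _ = (Fintype.card κ * b + 1) * (n + 1) := by
        rw [sum_const, card_range, smul_eq_mul, mul_comm]

/-- bad positions lie near the ends of the gaps -/
lemma bad_pos3 (hb : 2 ≤ b) (hy0 : ∀ k, 0 < y k) (hy1 : ∀ k, y k < 1) (hz0 : 0 < z)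
    (halg : IsAlgebraic ℚ z) (hirr : Irrational z) (d : ℕ) (c : ℝ) (hc : 0 ≤ c) (δ : ℝ)
    (hδ : 0 < δ) (hδ1 : δ ≤ 1) {C : ℝ} (hC : 0 ≤ C)
    (hup : ∀ N, TM b y (d + 1) N ≤ C * (GG (ff b y) N : ℝ) ^ d) :
    ∃ L0 : ℕ, ∀ a' N : ℕ,
      c * (C * (((Fintype.card κ * b + 1 : ℕ) : ℝ) * ((N : ℝ) + 1)) ^ d) < (b : ℝ) ^ a' →
      ∀ m j j' : ℕ, j ≤ m → m < j' → j' ≤ N → 1 ≤ rr (ff b y) (d + 1) j →
      (∀ k, j < k → k < j' → rr (ff b y) (d + 1) k = 0) →
      UG b z (rr (ff b y) (d + 1)) (YY y ^ (d + 1)) m ≤ c * TM b y (d + 1) m →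
      m < j + L0 ∨ (j' : ℝ) ≤ m + (a' + 1) + δ * ((j' : ℝ) - j) := by
  obtain ⟨L0, hrid⟩ := ridout hb halg hirr δ hδ hδ1
  have hb1 : (1 : ℝ) < b := by exact_mod_cast (by omega : 1 < b)
  have hb0 : (0 : ℝ) < b := by linarith
  have hlog : 0 < Real.log (b : ℝ) := Real.log_pos hb1
  refine ⟨L0, ?_⟩
  intro a' N hN m j j' hjm hmj' hj'N hj hz hbad
  rcases Nat.lt_or_ge (m - j) L0 with hL | hL
  · left; omega
  right
  have h2 := hrid (m - j) hL (B b z (m - j) : ℤ)
  have h3 : z * (b : ℝ) ^ (m - j) - ((B b z (m - j) : ℤ) : ℝ) = ep b z (m - j) := by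
    unfold ep; push_cast; ring
  rw [h3, abs_of_nonneg (ep_nonneg hz0 _)] at h2
  have hTn := TM_nonneg hb hy0 hy1 (d + 1)
  have h4 := UG_ge (b := b) (v := YY y ^ (d + 1)) hz0 hTn hjm hj
  have h5 := TG_zeros (b := b) (v := YY y ^ (d + 1)) m (j' - 1 - m)
    (fun k hk1 hk2 => hz k (by omega) (by omega))
  have e1 : m + (j' - 1 - m) = j' - 1 := by omega
  rw [e1] at h5
  change TM b y (d + 1) (j' - 1) = (b : ℝ) ^ (j' - 1 - m) * TM b y (d + 1) m at h5
  set g := j' - 1 - m with hg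
  have hgR : (m : ℝ) + g + 1 = j' := by
    have : m + g + 1 = j' := by omega
    exact_mod_cast this
  have h6 : TM b y (d + 1) (j' - 1) ≤
      C * (((Fintype.card κ * b + 1 : ℕ) : ℝ) * ((N : ℝ) + 1)) ^ d := by
    refine (hup _).trans (mul_le_mul_of_nonneg_left ?_ hC)
    refine pow_le_pow_left₀ (Nat.cast_nonneg _) ?_ _
    have h7 := KF_le (b := b) (y := y) hb (j' - 1)
    have h8 : GG (ff b y) (j' - 1) ≤ (Fintype.card κ * b + 1) * (N + 1) :=
      h7.trans (Nat.mul_le_mul_left _ (by omega))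
    exact_mod_cast h8
  have h7 : (b : ℝ) ^ g * Real.exp (-(δ * (((m - j : ℕ) : ℝ) * Real.log b))) < (b : ℝ) ^ a' := by
    have hbg : (0 : ℝ) < (b : ℝ) ^ g := by positivity
    calc (b : ℝ) ^ g * Real.exp (-(δ * (((m - j : ℕ) : ℝ) * Real.log b)))
        ≤ (b : ℝ) ^ g * (c * TM b y (d + 1) m) := by
          refine mul_le_mul_of_nonneg_left ?_ hbg.le
          exact (h2.le.trans h4).trans hbad
      _ = c * TM b y (d + 1) (j' - 1) := by rw [h5]; ring
      _ ≤ c * (C * (((Fintype.card κ * b + 1 : ℕ) : ℝ) * ((N : ℝ) + 1)) ^ d) :=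
          mul_le_mul_of_nonneg_left h6 hc
      _ < _ := hN
  rw [pow_eq_exp hb g, pow_eq_exp hb a', ← Real.exp_add, Real.exp_lt_exp] at h7
  have hcast : ((m - j : ℕ) : ℝ) = m - j := by rw [Nat.cast_sub hjm]
  rw [hcast] at h7
  have h8 : ((g : ℝ) - δ * ((m : ℝ) - j)) * Real.log b < a' * Real.log b := by linarith
  have h9 := lt_of_mul_lt_mul_right h8 hlog.le
  have hmj'R : (m : ℝ) ≤ j' := by exact_mod_cast hmj'.le
  have h10 : δ * ((m : ℝ) - j) ≤ δ * ((j' : ℝ) - j) :=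
    mul_le_mul_of_nonneg_left (by linarith) hδ.le
  linarith

/-- the number of bad positions -/
lemma bad_count3 (hb : 2 ≤ b) (hy0 : ∀ k, 0 < y k) (hy1 : ∀ k, y k < 1) (hz0 : 0 < z)
    (halg : IsAlgebraic ℚ z) (hirr : Irrational z) (d : ℕ) (c : ℝ) (hc : 0 ≤ c) (δ : ℝ)
    (hδ : 0 < δ) (hδ1 : δ ≤ 1) :
    ∃ C' : ℝ, 0 ≤ C' ∧ ∀ N : ℕ,
      (((range N).filter (fun m => UG b z (rr (ff b y) (d + 1)) (YY y ^ (d + 1)) m ≤
        c * TM b y (d + 1) m)).card : ℝ) ≤
        C' * (1 + Real.log ((N : ℝ) + 1)) * (GG (ff b y) N : ℝ) ^ (d + 1) + δ * N := by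
  obtain ⟨C, hC, hup⟩ := TM_upper hb hy0 hy1 d
  obtain ⟨L0, hpos⟩ := bad_pos3 hb hy0 hy1 hz0 halg hirr d c hc δ hδ hδ1 hC hup
  have hb1 : (1 : ℝ) < b := by exact_mod_cast (by omega : 1 < b)
  have hb0 : (0 : ℝ) < b := by linarith
  have hlogb : 0 < Real.log b := Real.log_pos hb1
  set M : ℝ := ((Fintype.card κ * b + 1 : ℕ) : ℝ) with hM
  have hM1 : 1 ≤ M := by
    rw [hM]
    exact_mod_cast (by omega : 1 ≤ Fintype.card κ * b + 1)
  set A0 : ℝ := Real.log ((c * C + 1) * M ^ d) with hA0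
  have hMd : 1 ≤ M ^ d := one_le_pow₀ hM1
  have hcC : 0 ≤ c * C := mul_nonneg hc hC
  have hA1 : 1 ≤ (c * C + 1) * M ^ d := one_le_mul_of_one_le_of_one_le (by linarith) hMd
  have hA00 : 0 ≤ A0 := Real.log_nonneg hA1
  set C5 : ℝ := (A0 + d) / Real.log b + 2 + L0 with hC5
  have hL00 : (0 : ℝ) ≤ L0 := Nat.cast_nonneg _
  have hC50 : 0 ≤ C5 := by positivity
  refine ⟨4 * C5 + 1, by positivity, fun N => ?_⟩
  have hn0 : (0 : ℝ) ≤ N := Nat.cast_nonneg _
  have hℓ : 0 ≤ Real.log ((N : ℝ) + 1) := Real.log_nonneg (by linarith)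
  set ℓ := Real.log ((N : ℝ) + 1) with hℓdef
  have hK1 : (1 : ℝ) ≤ GG (ff b y) N := by exact_mod_cast KF_pos N
  have hKd : (1 : ℝ) ≤ (GG (ff b y) N : ℝ) ^ (d + 1) := one_le_pow₀ hK1
  set V : ℝ := c * (C * (M * ((N : ℝ) + 1)) ^ d) with hV
  have hV0 : 0 ≤ V := by positivity
  have hV1 : V + 1 ≤ (c * C + 1) * M ^ d * ((N : ℝ) + 1) ^ d := by
    have h1 : (c * C + 1) * M ^ d * ((N : ℝ) + 1) ^ d = V + (M * ((N : ℝ) + 1)) ^ d := by
      rw [hV, mul_pow]; ring
    rw [h1]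
    have h3 : (1 : ℝ) ≤ (M * ((N : ℝ) + 1)) ^ d :=
      one_le_pow₀ (one_le_mul_of_one_le_of_one_le hM1 (by linarith))
    linarith
  have hlogV : Real.log (V + 1) ≤ A0 + d * ℓ := by
    calc Real.log (V + 1) ≤ Real.log ((c * C + 1) * M ^ d * ((N : ℝ) + 1) ^ d) :=
          Real.log_le_log (by linarith) hV1
      _ = A0 + d * ℓ := by
        rw [Real.log_mul (by linarith) (by positivity), Real.log_pow]
  set a' : ℕ := ⌊Real.log (V + 1) / Real.log b⌋₊ + 1 with ha'
  have hlV0 : 0 ≤ Real.log (V + 1) := Real.log_nonneg (by linarith)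
  have ha'1 : V < (b : ℝ) ^ a' := by
    have h1 : Real.log (V + 1) / Real.log b < a' := by
      rw [ha']; push_cast; exact Nat.lt_floor_add_one _
    rw [div_lt_iff₀ hlogb] at h1
    have h2 : Real.log (V + 1) < Real.log ((b : ℝ) ^ a') := by rw [Real.log_pow]; exact h1
    have h3 := (Real.log_lt_log_iff (by linarith) (by positivity)).mp h2
    linarith
  have ha'2 : (a' : ℝ) + 1 + L0 ≤ C5 * (1 + ℓ) := by
    have h1 : (a' : ℝ) ≤ Real.log (V + 1) / Real.log b + 1 := by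
      rw [ha']; push_cast
      have := Nat.floor_le (div_nonneg hlV0 hlogb.le)
      linarith
    have h2 : Real.log (V + 1) / Real.log b ≤ (A0 + d * ℓ) / Real.log b :=
      div_le_div_of_nonneg_right hlogV hlogb.le
    have h3 : (A0 + d * ℓ) / Real.log b ≤ (A0 + d) / Real.log b * (1 + ℓ) := by
      rw [div_mul_eq_mul_div]
      apply div_le_div_of_nonneg_right _ hlogb.le
      have : (0 : ℝ) ≤ d := Nat.cast_nonneg _
      nlinarith
    have h5 : C5 * (1 + ℓ) = (A0 + d) / Real.log b * (1 + ℓ) + (2 + L0) * (1 + ℓ) := by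
      rw [hC5]; ring
    have h6 : 2 + (L0 : ℝ) ≤ (2 + L0) * (1 + ℓ) := by nlinarith
    linarith
  classical
  have h1 := count_blocks (fun k => 1 ≤ rr (ff b y) (d + 1) k ∨ k = N)
    (fun m => m < N ∧ UG b z (rr (ff b y) (d + 1)) (YY y ^ (d + 1)) m ≤ c * TM b y (d + 1) m)
    1 (a' + 1 + L0) δ hδ.le ⟨0, one_pos, Or.inl (rr_zero_pos' _)⟩ (by
      intro m j j' _ hjm hmj' hj _ hz hbad
      have hj1 : 1 ≤ rr (ff b y) (d + 1) j := by
        rcases hj with hj | hj
        · exact hj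
        · exfalso
          have := hbad.1
          omega
      have hj'N : j' ≤ N := by
        by_contra hcon
        have := hz N (by have := hbad.1; omega) (by omega)
        exact this (Or.inr rfl)
      rcases hpos a' N ha'1 m j j' hjm hmj' hj'N hj1 (fun k hk1 hk2 => by
        have := hz k hk1 hk2
        push Not at this
        have := this.1
        omega) hbad.2 with h9 | h9
      · left; omega
      · right
        push_cast
        linarith) N N le_rfl (Or.inr rfl) (by intro k h1 h2; omega)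
  have h2 : ((range N).filter (fun m => UG b z (rr (ff b y) (d + 1)) (YY y ^ (d + 1)) m ≤
        c * TM b y (d + 1) m)).card ≤
      ((range N).filter (fun m => 1 ≤ m ∧ (m < N ∧
        UG b z (rr (ff b y) (d + 1)) (YY y ^ (d + 1)) m ≤ c * TM b y (d + 1) m))).card + 1 := by
    have h3 : (range N).filter (fun m => UG b z (rr (ff b y) (d + 1)) (YY y ^ (d + 1)) m ≤
        c * TM b y (d + 1) m) ⊆
        (range N).filter (fun m => 1 ≤ m ∧ (m < N ∧
          UG b z (rr (ff b y) (d + 1)) (YY y ^ (d + 1)) m ≤ c * TM b y (d + 1) m)) ∪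
          range 1 := by
      intro m hm
      obtain ⟨hm1, hm2⟩ := mem_filter.mp hm
      rw [mem_union]
      rcases Nat.lt_or_ge m 1 with h4 | h4
      · exact Or.inr (mem_range.mpr h4)
      · exact Or.inl (mem_filter.mpr ⟨hm1, h4, mem_range.mp hm1, hm2⟩)
    have h4 := (card_le_card h3).trans (card_union_le _ _)
    rwa [card_range] at h4
  have h3 : ((range N).filter (fun k => 1 ≤ rr (ff b y) (d + 1) k ∨ k = N)).card ≤
      GG (ff b y) N ^ (d + 1) := by
    refine le_trans ?_ (rr_sum' (ff b y) (d + 1) N)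
    unfold GG
    rw [card_filter]
    refine (sum_le_sum fun i hi => ?_).trans (sum_le_sum_of_subset (range_mono (Nat.le_succ N)))
    split_ifs with h4
    · rcases h4 with h4 | h4
      · exact h4
      · have := mem_range.mp hi
        omega
    · exact Nat.zero_le _
  have h2' : (((range N).filter (fun m => UG b z (rr (ff b y) (d + 1)) (YY y ^ (d + 1)) m ≤
        c * TM b y (d + 1) m)).card : ℝ) ≤
      ((range N).filter (fun m => 1 ≤ m ∧ (m < N ∧
        UG b z (rr (ff b y) (d + 1)) (YY y ^ (d + 1)) m ≤ c * TM b y (d + 1) m))).card + 1 := by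
    exact_mod_cast h2
  have h3' : (((range N).filter (fun k => 1 ≤ rr (ff b y) (d + 1) k ∨ k = N)).card : ℝ) ≤
      (GG (ff b y) N : ℝ) ^ (d + 1) := by exact_mod_cast h3
  push_cast at h1
  have ha0 : (0 : ℝ) ≤ (a' : ℝ) + 1 + L0 := by positivity
  have h5 : 2 * ((a' : ℝ) + 1 + L0) *
      (((range N).filter (fun k => 1 ≤ rr (ff b y) (d + 1) k ∨ k = N)).card : ℝ) ≤
      2 * (C5 * (1 + ℓ)) * (GG (ff b y) N : ℝ) ^ (d + 1) := by
    apply mul_le_mul _ h3' (Nat.cast_nonneg _) (by positivity)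
    linarith
  have h6 : 2 * ((a' : ℝ) + 1 + L0) ≤ 2 * (C5 * (1 + ℓ)) * (GG (ff b y) N : ℝ) ^ (d + 1) := by
    have : 2 * (C5 * (1 + ℓ)) * 1 ≤ 2 * (C5 * (1 + ℓ)) * (GG (ff b y) N : ℝ) ^ (d + 1) :=
      mul_le_mul_of_nonneg_left hKd (by positivity)
    linarith
  have h7 : (1 : ℝ) * 1 * 1 ≤ 1 * (1 + ℓ) * (GG (ff b y) N : ℝ) ^ (d + 1) := by
    gcongr
    linarith
  have h8 : (4 * C5 + 1) * (1 + ℓ) * (GG (ff b y) N : ℝ) ^ (d + 1) =
      2 * (C5 * (1 + ℓ)) * (GG (ff b y) N : ℝ) ^ (d + 1) + 2 * (C5 * (1 + ℓ)) *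
        (GG (ff b y) N : ℝ) ^ (d + 1) + 1 * (1 + ℓ) * (GG (ff b y) N : ℝ) ^ (d + 1) := by ring
  rw [h8]
  linarith

/-- the digit sum of an algebraic irrational number grows at least logarithmically -/
lemma log_le_K (hb : 2 ≤ b) (hz0 : 0 < z) (halg : IsAlgebraic ℚ z) (hirr : Irrational z) :
    ∃ C : ℝ, 0 < C ∧ ∀ᶠ N : ℕ in atTop, 1 + Real.log ((N : ℝ) + 1) ≤ C * K b z N := by
  obtain ⟨L0, hgap⟩ := gap hb hz0 halg hirr (1 / 2) (by norm_num) (by norm_num)
  set L1 : ℕ := max L0 2 with hL1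
  have hL12 : 2 ≤ L1 := le_max_right _ _
  have hdouble : ∀ L, L1 ≤ L → K b z L + 1 ≤ K b z (2 * L) := by
    intro L hL
    obtain ⟨k, hk1, hk2, hk3⟩ := hgap L ((le_max_left _ _).trans hL)
    have hL2 : (2 : ℝ) ≤ L := by exact_mod_cast hL12.trans hL
    have hk4 : k ≤ 2 * L := by
      have : (k : ℝ) ≤ 2 * L := by linarith
      exact_mod_cast this
    obtain ⟨k', rfl⟩ : ∃ k', k = k' + 1 := ⟨k - 1, by omega⟩
    have h1 : K b z (k' + 1) = K b z k' + x b z (k' + 1) := by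
      unfold K
      rw [sum_range_succ]
    have h2 : K b z L ≤ K b z k' := K_mono (by omega)
    have h3 : K b z (k' + 1) ≤ K b z (2 * L) := K_mono hk4
    omega
  have hpow : ∀ j : ℕ, j ≤ K b z (2 ^ j * L1) := by
    intro j
    induction j with
    | zero => exact Nat.zero_le _
    | succ j ih =>
      have h1 := hdouble (2 ^ j * L1) (Nat.le_mul_of_pos_left _ (by positivity))
      have e : 2 * (2 ^ j * L1) = 2 ^ (j + 1) * L1 := by rw [pow_succ]; ring
      rw [e] at h1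
      omega
  set lL : ℝ := Real.log L1 with hlL
  have hL1R : (2 : ℝ) ≤ L1 := by exact_mod_cast hL12
  have hlL0 : 0 ≤ lL := Real.log_nonneg (by linarith)
  refine ⟨2 * (3 + lL), by positivity, ?_⟩
  have hK := (K_tendsto hb hz0 hirr).eventually_ge_atTop 1
  filter_upwards [eventually_ge_atTop L1, hK] with N hN hK1
  set j : ℕ := Nat.log 2 (N / L1) with hj
  have hq : N / L1 ≠ 0 := by
    have := Nat.div_pos hN (by omega : 0 < L1)
    omega
  have h1 : 2 ^ j ≤ N / L1 := Nat.pow_log_le_self 2 hq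
  have h2 : N / L1 < 2 ^ (j + 1) := Nat.lt_pow_succ_log_self (by norm_num) _
  have h3 : 2 ^ j * L1 ≤ N := (Nat.mul_le_mul_right _ h1).trans (Nat.div_mul_le_self N L1)
  have h4 : N < 2 ^ (j + 1) * L1 := by
    rwa [Nat.div_lt_iff_lt_mul (by omega : 0 < L1)] at h2
  have h5 : j ≤ K b z N := (hpow j).trans (K_mono h3)
  have hNR : (2 : ℝ) ≤ N := by exact_mod_cast hL12.trans hN
  have h6 : (N : ℝ) + 1 ≤ 2 ^ (j + 1) * L1 := by exact_mod_cast h4
  have h7 : Real.log ((N : ℝ) + 1) ≤ (j + 1) * Real.log 2 + lL := by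
    have h8 := Real.log_le_log (by linarith) h6
    rw [Real.log_mul (by positivity) (by positivity), Real.log_pow] at h8
    push_cast at h8
    exact h8
  have hlog2 : Real.log 2 ≤ 1 := by
    have := Real.log_two_lt_d9
    linarith
  have h5R : (j : ℝ) ≤ K b z N := by exact_mod_cast h5
  have hK1R : (1 : ℝ) ≤ K b z N := by exact_mod_cast hK1
  have hj0 : (0 : ℝ) ≤ j := Nat.cast_nonneg _
  have h8 : ((j : ℝ) + 1) * Real.log 2 ≤ (j + 1) * 1 :=
    mul_le_mul_of_nonneg_left hlog2 (by linarith)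
  have h9 : lL ≤ lL * K b z N := le_mul_of_one_le_right hlL0 hK1R
  have h10 : 0 ≤ lL * K b z N := by positivity
  nlinarith

/-- the core theorem for tuples -/
theorem core3 (hb : 2 ≤ b) (hy0 : ∀ k, 0 < y k) (hy1 : ∀ k, y k < 1) (hz0 : 0 < z) (hz1 : z < 1)
    (halg : IsAlgebraic ℚ z) (hirr : Irrational z) (d : ℕ) {q : ℕ} (hq : 1 ≤ q)
    (hD : Dom b y (d + 1) (q * (z * YY y ^ (d + 1)))) :
    ∃ c : ℝ, 0 < c ∧ ∀ᶠ N : ℕ in atTop,
      c * N ≤ (K b z N : ℝ) * (GG (ff b y) N : ℝ) ^ (d + 1) := by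
  obtain ⟨A, hA, w, hw⟩ := hD
  obtain ⟨C', hC', hbad⟩ := bad_count3 hb hy0 hy1 hz0 halg hirr d A hA (1 / 2) (by norm_num)
    (by norm_num)
  obtain ⟨C, hC, hup⟩ := TM_upper hb hy0 hy1 d
  obtain ⟨CL, hCL, hlogK⟩ := log_le_K hb hz0 halg hirr
  have hTn := TM_nonneg hb hy0 hy1 (d + 1)
  have hqR : (1 : ℝ) ≤ q := by exact_mod_cast hq
  have hbR : (2 : ℝ) ≤ b := by exact_mod_cast hb
  have hq0 : (0 : ℝ) < 2 * q := by linarith
  -- lower bound at good positions
  have hgood : ∀ m, ¬ UG b z (rr (ff b y) (d + 1)) (YY y ^ (d + 1)) m ≤ A * TM b y (d + 1) m →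
      1 ≤ 2 * q * UG b z (rr (ff b y) (d + 1)) (YY y ^ (d + 1)) m := by
    intro m hm
    push Not at hm
    set U := UG b z (rr (ff b y) (d + 1)) (YY y ^ (d + 1)) m with hU
    have hU0 : 0 ≤ U := UG_nonneg hz0 hTn m
    have hUq : U ≤ q * U := le_mul_of_one_le_left hU0 hqR
    set W : ℤ := w m - q * ∑ i ∈ range (m + 1),
      (rr (ff b y) (d + 1) i : ℤ) * B b z (m - i) with hW
    have hWe : (W : ℝ) = q * U - (q * (z * YY y ^ (d + 1)) * (b : ℝ) ^ m - w m) := by
      rw [hW, hU]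
      unfold UG
      push_cast
      ring
    have h1 := abs_le.mp (hw m)
    have h2 : (0 : ℝ) < W := by rw [hWe]; linarith [h1.2]
    have h3 : (1 : ℝ) ≤ W := by
      have : (0 : ℤ) < W := by exact_mod_cast h2
      exact_mod_cast (by omega : (1 : ℤ) ≤ W)
    rw [hWe] at h3
    linarith [h1.1]
  set c1 : ℝ := (b : ℝ) - 1 with hc1
  have hc10 : 1 ≤ c1 := by linarith
  set E : ℝ := 1 + (1 + C + c1 * C') * CL with hE
  have hE0 : 0 < E := by positivity
  refine ⟨c1 / 2 / (2 * q * E), by positivity, ?_⟩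
  have hK := (K_tendsto hb hz0 hirr).eventually_ge_atTop 1
  filter_upwards [hlogK, hK] with N hN hK1
  set Kz : ℝ := (K b z N : ℝ) with hKz
  set F : ℝ := (GG (ff b y) N : ℝ) ^ (d + 1) with hF
  have hKz1 : 1 ≤ Kz := by rw [hKz]; exact_mod_cast hK1
  have hg1 : (1 : ℝ) ≤ GG (ff b y) N := by exact_mod_cast KF_pos N
  have hF1 : 1 ≤ F := one_le_pow₀ hg1
  have hN0 : (0 : ℝ) ≤ N := Nat.cast_nonneg _
  have hℓ : 0 ≤ Real.log ((N : ℝ) + 1) := Real.log_nonneg (by linarith)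
  -- lower bound for the sum
  have h1 : (N : ℝ) - (C' * (1 + Real.log ((N : ℝ) + 1)) * F + 1 / 2 * N) ≤
      2 * q * ∑ m ∈ range N, UG b z (rr (ff b y) (d + 1)) (YY y ^ (d + 1)) m := by
    set U := UG b z (rr (ff b y) (d + 1)) (YY y ^ (d + 1)) with hU
    set bad := (range N).filter (fun m => U m ≤ A * TM b y (d + 1) m) with hbd
    set good := (range N).filter (fun m => ¬ U m ≤ A * TM b y (d + 1) m) with hgd
    have hcard : bad.card + good.card = N := by
      have := card_filter_add_card_filter_not (s := range N)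
        (fun m => U m ≤ A * TM b y (d + 1) m)
      rw [card_range] at this
      exact this
    have hcardR : (bad.card : ℝ) + good.card = N := by exact_mod_cast hcard
    have h2 : (good.card : ℝ) ≤ 2 * q * ∑ m ∈ range N, U m := by
      rw [mul_sum]
      calc (good.card : ℝ) = ∑ m ∈ good, (1 : ℝ) := by rw [sum_const, nsmul_eq_mul, mul_one]
        _ ≤ ∑ m ∈ good, 2 * (q : ℝ) * U m :=
            sum_le_sum fun m hm => hgood m (mem_filter.mp hm).2
        _ ≤ ∑ m ∈ range N, 2 * (q : ℝ) * U m := by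
            refine sum_le_sum_of_subset_of_nonneg (filter_subset _ _) fun m _ _ => ?_
            exact mul_nonneg hq0.le (UG_nonneg hz0 hTn m)
    have h3 := hbad N
    linarith
  have h2 := UG_sum (g := rr (ff b y) (d + 1)) (v := YY y ^ (d + 1)) hb hz0 hz1 hTn N
  have h3 : (GG (rr (ff b y) (d + 1)) N : ℝ) ≤ F := by
    rw [hF]; exact_mod_cast rr_sum' (ff b y) (d + 1) N
  have h4 : TG b (rr (ff b y) (d + 1)) (YY y ^ (d + 1)) N ≤ C * F := by
    refine (hup N).trans (mul_le_mul_of_nonneg_left ?_ hC)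
    exact pow_le_pow_right₀ hg1 (Nat.le_succ d)
  have h5 : c1 * ∑ m ∈ range N, UG b z (rr (ff b y) (d + 1)) (YY y ^ (d + 1)) m ≤
      Kz * F + (1 + C) * F := by
    have h6 : Kz * (GG (rr (ff b y) (d + 1)) N : ℝ) ≤ Kz * F :=
      mul_le_mul_of_nonneg_left h3 (by linarith)
    linarith
  -- combine
  have h6 : c1 * ((N : ℝ) - (C' * (1 + Real.log ((N : ℝ) + 1)) * F + 1 / 2 * N)) ≤
      2 * q * (Kz * F + (1 + C) * F) := by
    have e1 := mul_le_mul_of_nonneg_left h1 (by linarith : (0 : ℝ) ≤ c1)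
    have e2 := mul_le_mul_of_nonneg_left h5 hq0.le
    linarith
  have h7 : c1 / 2 * N ≤ 2 * q * (Kz * F + (1 + C) * F) +
      c1 * C' * (1 + Real.log ((N : ℝ) + 1)) * F := by linarith
  have h8 : (1 + C) * F ≤ (1 + C) * (CL * Kz) * F := by
    have e1 : (1 + C) * 1 ≤ (1 + C) * (CL * Kz) :=
      mul_le_mul_of_nonneg_left (by linarith) (by linarith)
    have e2 := mul_le_mul_of_nonneg_right e1 (by linarith : (0 : ℝ) ≤ F)
    linarith
  have h9 : c1 * C' * (1 + Real.log ((N : ℝ) + 1)) * F ≤ c1 * C' * (CL * Kz) * F := by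
    have e0 : 0 ≤ c1 * C' := by positivity
    exact mul_le_mul_of_nonneg_right (mul_le_mul_of_nonneg_left hN e0) (by linarith)
  have h10 : c1 * C' * (CL * Kz) * F ≤ 2 * q * (c1 * C' * (CL * Kz) * F) := by
    have e0 : 0 ≤ c1 * C' * (CL * Kz) * F := by positivity
    exact le_mul_of_one_le_left e0 (by linarith)
  have h11 : c1 / 2 * N ≤ 2 * q * (E * (Kz * F)) := by
    have e1 : 2 * q * (E * (Kz * F)) = 2 * q * (Kz * F + (1 + C) * (CL * Kz) * F) +
        2 * q * (c1 * C' * (CL * Kz) * F) := by rw [hE]; ring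
    rw [e1]
    have e2 := mul_le_mul_of_nonneg_left h8 hq0.le
    linarith
  rw [div_mul_eq_mul_div, div_le_iff₀ (by positivity)]
  calc c1 / 2 * N ≤ 2 * q * (E * (Kz * F)) := h11
    _ = Kz * F * (2 * q * E) := by ring

end

end Pool.Agent.H726R3.Tup
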