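import Pool.Agent.H726R3.Tup3
import Pool.Agent.H726R3.Joint4

/-!
# Tuples of real algebraic numbers whose products of bounded length span a number field
-/

set_option autoImplicit false
set_option linter.unusedSectionVars false
set_option linter.unusedVariables false

open Finset Filter IntermediateField

namespace Pool.Agent.H726R3.Tup

open Pool.Agent.H394R2.Ones (K K_mono)
open Pool.Agent.H726R3.Joint (digit cnt dsum cnt_neg K_fract dsum_le dsum_nonneg fract_pos'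
  fract_irr fract_alg span_neg_le K_tendsto aeval_mem adjoin_mem pow_irr two_le_deg)

variable {κ : Type} [Fintype κ]

/-- the number of `1 ≤ i ≤ N` such that the column of the `i`-th digits is not `e` -/
noncomputable def colcnt (b : ℕ) (e : κ → ℤ) (α : κ → ℝ) (N : ℕ) : ℕ :=
  open Classical in ((Icc 1 N).filter (fun i => ∃ k, digit b (α k) i ≠ e k)).card

lemma cnt_le_col (b : ℕ) (e : κ → ℤ) (α : κ → ℝ) (N : ℕ) (k : κ) :
    cnt b (e k) (α k) N ≤ colcnt b e α N := by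
  classical
  unfold cnt colcnt
  apply card_le_card
  intro i hi
  obtain ⟨h1, h2⟩ := mem_filter.mp hi
  exact mem_filter.mpr ⟨h1, k, h2⟩

lemma K_le_cnt {b : ℕ} (hb : 2 ≤ b) {x : ℝ} (hx : Irrational x) (N : ℕ) :
    (K b (Int.fract x) N : ℝ) ≤ ((b : ℝ) - 1) * cnt b 0 x N := by
  have h1 := K_fract (b := b) hx N
  have h2 := dsum_le hb x N
  have h3 : ((K b (Int.fract x) N : ℤ) : ℝ) = ((dsum b x N : ℤ) : ℝ) := by rw [h1]
  have h4 : ((dsum b x N : ℤ) : ℝ) ≤ ((b : ℝ) - 1) * cnt b 0 x N := by exact_mod_cast h2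
  rw [← h3] at h4
  exact_mod_cast h4

lemma KF_eq {b : ℕ} {y : κ → ℝ} (hy0 : ∀ k, 0 < y k) (hy1 : ∀ k, y k < 1) (N : ℕ) :
    GG (ff b y) N = 1 + ∑ k, K b (y k) N := by
  have h0 : Pool.Agent.H726R3.Joint.X b y 0 = 0 := by
    unfold Pool.Agent.H726R3.Joint.X
    exact sum_eq_zero fun k _ => Pool.Agent.H394R2.Ones.x_zero (hy0 k) (hy1 k)
  rw [← Pool.Agent.H726R3.Joint.KX_eq]
  unfold GG Pool.Agent.H726R3.Joint.KX
  rw [sum_range_succ', sum_range_succ' (Pool.Agent.H726R3.Joint.X b y), ff_zero, h0]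
  simp only [ff_succ]
  ring

/-- digits different from `0` -/
theorem tuple_zero {b : ℕ} (hb : 2 ≤ b) (L : IntermediateField ℚ ℝ) [FiniteDimensional ℚ L]
    [Nonempty κ] {α : κ → ℝ} (hα : ∀ k, Irrational (α k)) (hαL : ∀ k, α k ∈ L) (d : ℕ)
    (hL : ∀ v ∈ L, v ∈ (Submodule.span ℚ (insert 1 (Set.range α))) ^ (d + 1))
    {θ : ℝ} (hθ : θ ∈ L) (hirr : Irrational θ) :
    ∃ c : ℝ, 0 < c ∧ ∀ᶠ N : ℕ in atTop,
      c * N ≤ (cnt b 0 θ N : ℝ) * (∑ k, (cnt b 0 (α k) N : ℝ)) ^ (d + 1) := by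
  set y : κ → ℝ := fun k => Int.fract (α k) with hy
  have hy0 : ∀ k, 0 < y k := fun k => fract_pos' (hα k)
  have hy1 : ∀ k, y k < 1 := fun k => Int.fract_lt_one _
  have halg : IsAlgebraic ℚ θ := by
    have h2 : IsAlgebraic ℚ (⟨θ, hθ⟩ : L) := Algebra.IsAlgebraic.isAlgebraic _
    exact h2.algebraMap (A := ℝ)
  have hle : Submodule.span ℚ (insert 1 (Set.range α)) ≤
      Submodule.span ℚ (insert 1 (Set.range y)) := by
    rw [Submodule.span_le]
    rintro w (rfl | ⟨k, rfl⟩)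
    · exact Submodule.subset_span (Set.mem_insert _ _)
    · have h1 : (1 : ℝ) ∈ Submodule.span ℚ (insert 1 (Set.range y)) :=
        Submodule.subset_span (Set.mem_insert _ _)
      have h2 : y k ∈ Submodule.span ℚ (insert 1 (Set.range y)) :=
        Submodule.subset_span (Set.mem_insert_of_mem _ ⟨k, rfl⟩)
      have h3 := Submodule.add_mem _ (Submodule.smul_mem _ (⌊α k⌋ : ℚ) h1) h2
      have e : (⌊α k⌋ : ℚ) • (1 : ℝ) + y k = α k := by
        rw [Rat.smul_def, mul_one]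
        push_cast
        exact Int.floor_add_fract (α k)
      rw [e] at h3
      exact h3
  have hpow : ∀ n : ℕ, (Submodule.span ℚ (insert 1 (Set.range α))) ^ n ≤
      (Submodule.span ℚ (insert 1 (Set.range y))) ^ n := by
    intro n
    induction n with
    | zero => rw [pow_zero, pow_zero]
    | succ n ih => rw [pow_succ, pow_succ]; exact mul_le_mul' ih hle
  have hintL : ∀ n : ℤ, (n : ℝ) ∈ L := fun n => L.intCast_mem n
  have hyL : ∀ k, y k ∈ L := fun k => L.sub_mem (hαL k) (hintL _)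
  have hYL : YY y ∈ L := L.add_mem L.one_mem (L.sum_mem fun k _ => hyL k)
  have hzL : Int.fract θ ∈ L := L.sub_mem hθ (hintL _)
  have hmem : Int.fract θ * YY y ^ (d + 1) ∈ L := L.mul_mem hzL (_root_.pow_mem hYL (d + 1))
  obtain ⟨q, hq, hD⟩ := span_pow_le hb hy0 hy1 (d + 1) (hpow _ (hL _ hmem))
  obtain ⟨c, hc, h⟩ := core3 hb hy0 hy1 (fract_pos' hirr) (Int.fract_lt_one θ) (fract_alg halg)
    (fract_irr hirr) d hq hD
  have hbR : (2 : ℝ) ≤ b := by exact_mod_cast hb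
  have hb1 : 0 < (b : ℝ) - 1 := by linarith
  have hb0 : 0 < (b : ℝ) := by linarith
  refine ⟨c / (((b : ℝ) - 1) * (b : ℝ) ^ (d + 1)), by positivity, ?_⟩
  obtain ⟨k0⟩ := ‹Nonempty κ›
  have hK0 := (K_tendsto hb (hy0 k0) (fract_irr (hα k0))).eventually_ge_atTop 1
  filter_upwards [h, hK0] with N hN hK1
  set S : ℝ := ∑ k, (cnt b 0 (α k) N : ℝ) with hS
  have h1 : (K b (Int.fract θ) N : ℝ) ≤ ((b : ℝ) - 1) * cnt b 0 θ N := K_le_cnt hb hirr N
  have h2 : (1 : ℝ) ≤ S := by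
    have e1 : (1 : ℝ) ≤ K b (y k0) N := by exact_mod_cast hK1
    have e2 : (K b (y k0) N : ℝ) ≤ ((b : ℝ) - 1) * cnt b 0 (α k0) N := K_le_cnt hb (hα k0) N
    have e3 : 1 ≤ cnt b 0 (α k0) N := by
      by_contra hcon
      have : cnt b 0 (α k0) N = 0 := by omega
      rw [this] at e2
      simp at e2
      linarith
    have e4 : (cnt b 0 (α k0) N : ℝ) ≤ S :=
      single_le_sum (f := fun k => (cnt b 0 (α k) N : ℝ)) (fun k _ => Nat.cast_nonneg _)
        (mem_univ k0)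
    have e5 : (1 : ℝ) ≤ cnt b 0 (α k0) N := by exact_mod_cast e3
    linarith
  have h3 : (GG (ff b y) N : ℝ) ≤ b * S := by
    rw [KF_eq hy0 hy1]
    push_cast
    have e1 : ∑ k, (K b (y k) N : ℝ) ≤ ((b : ℝ) - 1) * S := by
      rw [hS, mul_sum]
      exact sum_le_sum fun k _ => K_le_cnt hb (hα k) N
    linarith
  have h4 : (GG (ff b y) N : ℝ) ^ (d + 1) ≤ (b * S) ^ (d + 1) :=
    pow_le_pow_left₀ (Nat.cast_nonneg _) h3 _
  have h5 : (K b (Int.fract θ) N : ℝ) * (GG (ff b y) N : ℝ) ^ (d + 1) ≤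
      (((b : ℝ) - 1) * cnt b 0 θ N) * (b * S) ^ (d + 1) :=
    mul_le_mul h1 h4 (by positivity) (by positivity)
  rw [div_mul_eq_mul_div, div_le_iff₀ (by positivity)]
  calc c * N ≤ _ := hN
    _ ≤ _ := h5
    _ = _ := by rw [mul_pow]; ring

/-- the general theorem -/
theorem tuple_main {b : ℕ} (hb : 2 ≤ b) (L : IntermediateField ℚ ℝ) [FiniteDimensional ℚ L]
    [Nonempty κ] {α : κ → ℝ} (hα : ∀ k, Irrational (α k)) (hαL : ∀ k, α k ∈ L) {m : ℕ}
    (hm : 1 ≤ m) (hL : ∀ v ∈ L, v ∈ (Submodule.span ℚ (insert 1 (Set.range α))) ^ m)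
    {θ : ℝ} (hθ : θ ∈ L) (hirr : Irrational θ) {d : ℤ} {e : κ → ℤ}
    (hd : d = 0 ∨ d = b - 1) (he : ∀ k, e k = 0 ∨ e k = b - 1) :
    ∃ c : ℝ, 0 < c ∧ ∀ᶠ N : ℕ in atTop,
      c * N ≤ (cnt b d θ N : ℝ) * (∑ k, (cnt b (e k) (α k) N : ℝ)) ^ m := by
  classical
  obtain ⟨m, rfl⟩ : ∃ n, m = n + 1 := ⟨m - 1, by omega⟩
  obtain ⟨θ', hθ', hirr', hcθ⟩ : ∃ θ' : ℝ, θ' ∈ L ∧ Irrational θ' ∧
      ∀ N, cnt b 0 θ' N = cnt b d θ N := by
    rcases hd with rfl | rfl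
    · exact ⟨θ, hθ, hirr, fun N => rfl⟩
    · exact ⟨-θ, L.neg_mem hθ, hirr.neg, fun N => cnt_neg hb hirr N⟩
  have h1 : ∀ k, ∃ w : ℝ, (w = α k ∨ w = -α k) ∧ Irrational w ∧
      ∀ N, cnt b 0 w N = cnt b (e k) (α k) N := by
    intro k
    rcases he k with h | h
    · rw [h]; exact ⟨α k, Or.inl rfl, hα k, fun N => rfl⟩
    · rw [h]; exact ⟨-α k, Or.inr rfl, (hα k).neg, fun N => cnt_neg hb (hα k) N⟩
  choose α' hα'1 hα'2 hα'3 using h1
  have hle := span_neg_le (ω := α) (ω' := α') (fun k => by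
    rcases hα'1 k with h | h
    · left; rw [h]
    · right; rw [h, neg_neg])
  have hpow : ∀ n : ℕ, (Submodule.span ℚ (insert 1 (Set.range α))) ^ n ≤
      (Submodule.span ℚ (insert 1 (Set.range α'))) ^ n := by
    intro n
    induction n with
    | zero => rw [pow_zero, pow_zero]
    | succ n ih => rw [pow_succ, pow_succ]; exact mul_le_mul' ih hle
  have hα'L : ∀ k, α' k ∈ L := by
    intro k
    rcases hα'1 k with h | h
    · rw [h]; exact hαL k
    · rw [h]; exact L.neg_mem (hαL k)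
  obtain ⟨c, hc, h⟩ := tuple_zero hb L hα'2 hα'L m (fun v hv => hpow _ (hL v hv)) hθ' hirr'
  refine ⟨c, hc, ?_⟩
  filter_upwards [h] with N hN
  rw [hcθ] at hN
  refine hN.trans (le_of_eq ?_)
  congr 2
  exact sum_congr rfl fun k _ => by rw [hα'3]

/-- with columns of digits -/
theorem tuple_col {b : ℕ} (hb : 2 ≤ b) (L : IntermediateField ℚ ℝ) [FiniteDimensional ℚ L]
    [Nonempty κ] {α : κ → ℝ} (hα : ∀ k, Irrational (α k)) (hαL : ∀ k, α k ∈ L) {m : ℕ}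
    (hm : 1 ≤ m) (hL : ∀ v ∈ L, v ∈ (Submodule.span ℚ (insert 1 (Set.range α))) ^ m)
    {θ : ℝ} (hθ : θ ∈ L) (hirr : Irrational θ) {d : ℤ} {e : κ → ℤ}
    (hd : d = 0 ∨ d = b - 1) (he : ∀ k, e k = 0 ∨ e k = b - 1) :
    ∃ c : ℝ, 0 < c ∧ ∀ᶠ N : ℕ in atTop,
      c * N ≤ (cnt b d θ N : ℝ) * (colcnt b e α N : ℝ) ^ m := by
  obtain ⟨c, hc, h⟩ := tuple_main hb L hα hαL hm hL hθ hirr hd he
  have hr : (0 : ℝ) < Fintype.card κ := by exact_mod_cast Fintype.card_pos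
  refine ⟨c / (Fintype.card κ : ℝ) ^ m, by positivity, ?_⟩
  filter_upwards [h] with N hN
  have h1 : ∑ k, (cnt b (e k) (α k) N : ℝ) ≤ Fintype.card κ * colcnt b e α N := by
    calc ∑ k, (cnt b (e k) (α k) N : ℝ) ≤ ∑ _k : κ, (colcnt b e α N : ℝ) :=
          sum_le_sum fun k _ => by exact_mod_cast cnt_le_col b e α N k
      _ = _ := by rw [sum_const, card_univ, nsmul_eq_mul]
  have h0 : 0 ≤ ∑ k, (cnt b (e k) (α k) N : ℝ) := sum_nonneg fun k _ => Nat.cast_nonneg _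
  have h2 := pow_le_pow_left₀ h0 h1 m
  have h3 := mul_le_mul_of_nonneg_left h2 (Nat.cast_nonneg (cnt b d θ N) : (0 : ℝ) ≤ _)
  rw [div_mul_eq_mul_div, div_le_iff₀ (by positivity)]
  calc c * N ≤ _ := hN
    _ ≤ _ := h3
    _ = _ := by rw [mul_pow]; ring

/-- the number of columns different from `e` -/
theorem tuple_col_self {b : ℕ} (hb : 2 ≤ b) (L : IntermediateField ℚ ℝ) [FiniteDimensional ℚ L]
    [Nonempty κ] {α : κ → ℝ} (hα : ∀ k, Irrational (α k)) (hαL : ∀ k, α k ∈ L) {m : ℕ}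
    (hm : 1 ≤ m) (hL : ∀ v ∈ L, v ∈ (Submodule.span ℚ (insert 1 (Set.range α))) ^ m)
    {e : κ → ℤ} (he : ∀ k, e k = 0 ∨ e k = b - 1) :
    ∃ c : ℝ, 0 < c ∧ ∀ᶠ N : ℕ in atTop, c * N ≤ (colcnt b e α N : ℝ) ^ (m + 1) := by
  obtain ⟨k⟩ := ‹Nonempty κ›
  have : Nonempty κ := ⟨k⟩
  obtain ⟨c, hc, h⟩ := tuple_col hb L hα hαL hm hL (hαL k) (hα k) (he k) he
  refine ⟨c, hc, ?_⟩
  filter_upwards [h] with N hN
  refine hN.trans ?_
  rw [pow_succ, mul_comm]
  have h1 : (cnt b (e k) (α k) N : ℝ) ≤ colcnt b e α N := by exact_mod_cast cnt_le_col b e α N k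
  exact mul_le_mul_of_nonneg_left h1 (by positivity)

/-- one number: every irrational `θ` in the field generated by `α` -/
theorem single {b : ℕ} (hb : 2 ≤ b) {α : ℝ} (halg : IsAlgebraic ℚ α) (hα : Irrational α)
    {θ : ℝ} (hθ : θ ∈ ℚ⟮α⟯) (hirr : Irrational θ) {d e : ℤ}
    (hd : d = 0 ∨ d = b - 1) (he : e = 0 ∨ e = b - 1) :
    ∃ c : ℝ, 0 < c ∧ ∀ᶠ N : ℕ in atTop,
      c * N ≤ (cnt b d θ N : ℝ) * (cnt b e α N : ℝ) ^ ((minpoly ℚ α).natDegree - 1) := by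
  have : FiniteDimensional ℚ ℚ⟮α⟯ := adjoin.finiteDimensional halg.isIntegral
  have h2 := two_le_deg halg hα
  set V := Submodule.span ℚ (insert 1 (Set.range fun _ : Unit => α)) with hV
  have h1V : (1 : ℝ) ∈ V := Submodule.subset_span (Set.mem_insert _ _)
  have hαV : α ∈ V := Submodule.subset_span (Set.mem_insert_of_mem _ ⟨(), rfl⟩)
  have hpow : ∀ i m : ℕ, i ≤ m → α ^ i ∈ V ^ m := by
    intro i m him
    obtain ⟨j, rfl⟩ : ∃ j, m = i + j := ⟨m - i, by omega⟩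
    rw [pow_add]
    have h3 := Submodule.mul_mem_mul (Submodule.pow_mem_pow V hαV i)
      (Submodule.pow_mem_pow V h1V j)
    rwa [one_pow, mul_one] at h3
  have hL : ∀ v ∈ ℚ⟮α⟯, v ∈ V ^ ((minpoly ℚ α).natDegree - 1) := by
    intro v hv
    obtain ⟨p, rfl⟩ := adjoin_mem halg hv
    have h3 := aeval_mem halg p
    have h4 : Submodule.span ℚ (insert 1 (Set.range
        fun k : Fin ((minpoly ℚ α).natDegree - 1) => α ^ (k.1 + 1))) ≤
        V ^ ((minpoly ℚ α).natDegree - 1) := by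
      rw [Submodule.span_le]
      rintro w (rfl | ⟨k, rfl⟩)
      · have := hpow 0 ((minpoly ℚ α).natDegree - 1) (Nat.zero_le _)
        rwa [pow_zero] at this
      · exact hpow _ _ (by have := k.2; omega)
    exact h4 h3
  obtain ⟨c, hc, h⟩ := tuple_main (κ := Unit) (α := fun _ => α) (e := fun _ => e) hb ℚ⟮α⟯
    (fun _ => hα) (fun _ => mem_adjoin_simple_self ℚ α) (by omega) hL hθ hirr hd (fun _ => he)
  refine ⟨c, hc, ?_⟩
  filter_upwards [h] with N hN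
  simpa using hN

end Pool.Agent.H726R3.Tup
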