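import Pool.Agent.H726R3.Tup4

/-!
# Linearly independent tuples: the powers of the span of `1, α₁, …, αₙ` reach the field
-/

set_option autoImplicit false
set_option linter.unusedSectionVars false
set_option linter.unusedVariables false

open Finset Filter IntermediateField Module

namespace Pool.Agent.H726R3.Tup

section
variable {n : ℕ} {α : Fin n → ℝ}

/-- the span of `1` and the `α k` -/
noncomputable def VV (α : Fin n → ℝ) : Submodule ℚ ℝ :=
  Submodule.span ℚ (insert 1 (Set.range α))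

/-- the field generated by the `α k`, as a subspace -/
noncomputable def LS (α : Fin n → ℝ) : Submodule ℚ ℝ :=
  Subalgebra.toSubmodule (adjoin ℚ (Set.range α)).toSubalgebra

lemma one_mem_VV : (1 : ℝ) ∈ VV α := Submodule.subset_span (Set.mem_insert _ _)

lemma mem_VV (k : Fin n) : α k ∈ VV α :=
  Submodule.subset_span (Set.mem_insert_of_mem _ ⟨k, rfl⟩)

lemma VV_mono (j : ℕ) : VV α ^ j ≤ VV α ^ (j + 1) := by
  intro v hv
  rw [pow_succ]
  have := Submodule.mul_mem_mul hv (one_mem_VV (α := α))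
  rwa [mul_one] at this

lemma VV_le (j : ℕ) : VV α ^ j ≤ LS α := by
  induction j with
  | zero =>
    rw [pow_zero]
    intro v hv
    rw [Submodule.mem_one] at hv
    obtain ⟨r, rfl⟩ := hv
    exact (adjoin ℚ (Set.range α)).algebraMap_mem r
  | succ j ih =>
    rw [pow_succ, Submodule.mul_le]
    intro u hu v hv
    have h1 : u ∈ adjoin ℚ (Set.range α) := ih hu
    have h2 : VV α ≤ LS α := by
      unfold VV
      rw [Submodule.span_le]
      rintro w (rfl | ⟨k, rfl⟩)
      · exact (adjoin ℚ (Set.range α)).one_mem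
      · exact subset_adjoin ℚ _ ⟨k, rfl⟩
    have h3 : v ∈ adjoin ℚ (Set.range α) := h2 hv
    exact (adjoin ℚ (Set.range α)).mul_mem h1 h3

lemma one_mem_pow (j : ℕ) : (1 : ℝ) ∈ VV α ^ j := by
  induction j with
  | zero => rw [pow_zero]; exact Submodule.mem_one.mpr ⟨1, by simp⟩
  | succ j ih => exact VV_mono j ih

lemma stable (halg : ∀ k, IsAlgebraic ℚ (α k)) (j : ℕ) (h : VV α ^ (j + 1) ≤ VV α ^ j) :
    LS α ≤ VV α ^ j := by
  intro v hv
  have hv' : v ∈ (adjoin ℚ (Set.range α)).toSubalgebra := hv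
  rw [adjoin_toSubalgebra_of_isAlgebraic (by rintro x ⟨k, rfl⟩; exact halg k)] at hv'
  have key : ∀ x ∈ Algebra.adjoin ℚ (Set.range α), ∀ w ∈ VV α ^ j, x * w ∈ VV α ^ j := by
    intro x hx
    induction hx using Algebra.adjoin_induction with
    | mem x hx =>
      obtain ⟨k, rfl⟩ := hx
      intro w hw
      apply h
      rw [pow_succ']
      exact Submodule.mul_mem_mul (mem_VV k) hw
    | algebraMap r =>
      intro w hw
      have := Submodule.smul_mem (VV α ^ j) r hw
      rwa [Algebra.smul_def] at this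
    | add x y hx hy h1 h2 =>
      intro w hw
      rw [add_mul]
      exact Submodule.add_mem _ (h1 w hw) (h2 w hw)
    | mul x y hx hy h1 h2 =>
      intro w hw
      rw [mul_assoc]
      exact h1 _ (h2 w hw)
  have := key v hv' 1 (one_mem_pow j)
  rwa [mul_one] at this

lemma finrank_LS : finrank ℚ (LS α) = finrank ℚ (adjoin ℚ (Set.range α)) := by
  unfold LS
  rw [Subalgebra.finrank_toSubmodule, finrank_eq_finrank_subalgebra]

lemma fd_L (halg : ∀ k, IsAlgebraic ℚ (α k)) : FiniteDimensional ℚ (adjoin ℚ (Set.range α)) :=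
  finiteDimensional_adjoin (by rintro x ⟨k, rfl⟩; exact (halg k).isIntegral)

lemma fd_LS (halg : ∀ k, IsAlgebraic ℚ (α k)) : FiniteDimensional ℚ (LS α) := by
  have := fd_L halg
  exact this

lemma finrank_VV (hli : LinearIndependent ℚ (Fin.cons 1 α : Fin (n + 1) → ℝ)) :
    finrank ℚ (VV α) = n + 1 := by
  have h := finrank_span_eq_card hli
  rw [Fin.range_cons, Fintype.card_fin] at h
  exact h

lemma irr_of_li (hli : LinearIndependent ℚ (Fin.cons 1 α : Fin (n + 1) → ℝ)) (k : Fin n) :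
    Irrational (α k) := by
  rintro ⟨r, hr⟩
  have h := Fintype.linearIndependent_iff.mp hli
    (Fin.cons r (fun j => if j = k then -1 else 0)) (by
      rw [Fin.sum_univ_succ]
      simp only [Fin.cons_zero, Fin.cons_succ]
      have : ∑ i : Fin n, (if i = k then (-1 : ℚ) else 0) • α i = -α k := by
        rw [sum_eq_single k]
        · simp
        · intro i _ hi; simp [hi]
        · intro h; exact absurd (mem_univ k) h
      rw [this, Rat.smul_def, mul_one, hr]
      ring) k.succ
  simp at h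

lemma grow (halg : ∀ k, IsAlgebraic ℚ (α k))
    (hli : LinearIndependent ℚ (Fin.cons 1 α : Fin (n + 1) → ℝ)) (j : ℕ) :
    LS α ≤ VV α ^ (j + 1) ∨ n + 1 + j ≤ finrank ℚ (VV α ^ (j + 1) : Submodule ℚ ℝ) := by
  have hfd := fd_LS halg
  induction j with
  | zero =>
    right
    rw [zero_add, pow_one, finrank_VV hli]
  | succ j ih =>
    by_cases h : LS α ≤ VV α ^ (j + 1)
    · exact Or.inl (h.trans (VV_mono _))
    · right
      have h1 : n + 1 + j ≤ finrank ℚ (VV α ^ (j + 1) : Submodule ℚ ℝ) := by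
        rcases ih with h2 | h2
        · exact absurd h2 h
        · exact h2
      have hlt : VV α ^ (j + 1) < VV α ^ (j + 1 + 1) := by
        refine lt_of_le_of_ne (VV_mono _) fun he => h ?_
        exact stable halg (j + 1) (le_of_eq he.symm)
      have hfd2 : FiniteDimensional ℚ (VV α ^ (j + 1 + 1) : Submodule ℚ ℝ) :=
        Submodule.finiteDimensional_of_le (VV_le (j + 1 + 1))
      have h3 := Submodule.finrank_lt_finrank_of_lt hlt
      omega

lemma card_le (halg : ∀ k, IsAlgebraic ℚ (α k))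
    (hli : LinearIndependent ℚ (Fin.cons 1 α : Fin (n + 1) → ℝ)) :
    n + 1 ≤ finrank ℚ (adjoin ℚ (Set.range α)) := by
  have hfd := fd_LS halg
  have h1 := Submodule.finrank_mono (VV_le (α := α) 1)
  rw [pow_one, finrank_VV hli, finrank_LS] at h1
  exact h1

/-- the power `D - n` is enough -/
theorem reach (halg : ∀ k, IsAlgebraic ℚ (α k))
    (hli : LinearIndependent ℚ (Fin.cons 1 α : Fin (n + 1) → ℝ)) :
    ∀ v ∈ adjoin ℚ (Set.range α), v ∈
      (Submodule.span ℚ (insert 1 (Set.range α))) ^ (finrank ℚ (adjoin ℚ (Set.range α)) - n) := by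
  set D := finrank ℚ (adjoin ℚ (Set.range α)) with hD
  have hnD : n + 1 ≤ D := card_le halg hli
  obtain ⟨j, hj⟩ : ∃ j, D - n = j + 1 := ⟨D - n - 1, by omega⟩
  rw [hj]
  have hfd := fd_LS halg
  rcases grow halg hli j with h | h
  · intro v hv
    exact h hv
  · have h1 : finrank ℚ (LS α) ≤ finrank ℚ (VV α ^ (j + 1) : Submodule ℚ ℝ) := by
      rw [finrank_LS, ← hD]
      omega
    have h2 := Submodule.eq_of_le_of_finrank_le (VV_le (α := α) (j + 1)) h1
    intro v hv
    have h3 : v ∈ LS α := hv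
    rw [← h2] at h3
    exact h3

/-- linearly independent tuples -/
theorem independent {b : ℕ} (hb : 2 ≤ b) (hn : 1 ≤ n) (halg : ∀ k, IsAlgebraic ℚ (α k))
    (hli : LinearIndependent ℚ (Fin.cons 1 α : Fin (n + 1) → ℝ)) {e : Fin n → ℤ}
    (he : ∀ k, e k = 0 ∨ e k = b - 1) :
    (∃ c : ℝ, 0 < c ∧ ∀ᶠ N : ℕ in atTop,
      c * N ≤ (colcnt b e α N : ℝ) ^ (finrank ℚ (adjoin ℚ (Set.range α)) - n + 1)) ∧
    (∀ θ ∈ adjoin ℚ (Set.range α), Irrational θ → ∀ d : ℤ, (d = 0 ∨ d = b - 1) →
      ∃ c : ℝ, 0 < c ∧ ∀ᶠ N : ℕ in atTop,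
        c * N ≤ (Pool.Agent.H726R3.Joint.cnt b d θ N : ℝ) *
          (colcnt b e α N : ℝ) ^ (finrank ℚ (adjoin ℚ (Set.range α)) - n)) := by
  have : Nonempty (Fin n) := ⟨⟨0, hn⟩⟩
  have hL := fd_L halg
  have hirr := irr_of_li hli
  have hmem : ∀ k, α k ∈ adjoin ℚ (Set.range α) := fun k => subset_adjoin ℚ _ ⟨k, rfl⟩
  have hcard := card_le halg hli
  have hspan := reach halg hli
  refine ⟨tuple_col_self hb _ hirr hmem (by omega) hspan he, fun θ hθ hθi d hd => ?_⟩
  exact tuple_col hb _ hirr hmem (by omega) hspan hθ hθi hd he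

end

end Pool.Agent.H726R3.Tup
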