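import Pool.Agent.H726R3.Tup5

/-!
# Digit matrices
-/

set_option autoImplicit false
set_option linter.unusedSectionVars false
set_option linter.unusedVariables false

open Finset Filter IntermediateField Module

namespace Pool.Agent.H726R3.Tup

open Pool.Agent.H726R3.Joint (digit cnt)

/-- the number of `1 ≤ i ≤ N` such that the digit matrix `(a_{k, i + t})`, `t < m`, is `D` -/
noncomputable def occ (b : ℕ) {n m : ℕ} (D : Fin n → Fin m → ℤ) (α : Fin n → ℝ) (N : ℕ) : ℕ :=
  open Classical in ((Icc 1 N).filter (fun i => ∀ (k : Fin n) (t : Fin m),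
    digit b (α k) (i + t) = D k t)).card

section
variable {b n m : ℕ} {α : Fin n → ℝ}

lemma col_le_occ (D : Fin n → Fin m → ℤ) (t0 : Fin m) (N : ℕ) :
    colcnt b (fun k => D k t0) α N + occ b D α N ≤ N + t0 := by
  classical
  set S := (Icc 1 N).filter (fun i => ∃ k, digit b (α k) (i + t0) ≠ D k t0) with hS
  have h1 : colcnt b (fun k => D k t0) α N ≤ t0 + S.card := by
    unfold colcnt
    simp only
    have hsub : (Icc 1 N).filter (fun i => ∃ k, digit b (α k) i ≠ D k t0) ⊆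
        Icc 1 (t0 : ℕ) ∪ S.image (fun i => i + t0) := by
      intro j hj
      obtain ⟨hj1, k, hk⟩ := mem_filter.mp hj
      have hj2 := mem_Icc.mp hj1
      rw [mem_union]
      rcases Nat.lt_or_ge (t0 : ℕ) j with h | h
      · right
        refine mem_image.mpr ⟨j - t0, mem_filter.mpr ⟨mem_Icc.mpr (by omega), k, ?_⟩, by omega⟩
        rw [Nat.sub_add_cancel h.le]
        exact hk
      · left; exact mem_Icc.mpr (by omega)
    refine le_trans (card_le_card hsub) ((card_union_le _ _).trans ?_)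
    rw [Nat.card_Icc]
    have := card_image_le (s := S) (f := fun i => i + (t0 : ℕ))
    omega
  have h2 : occ b D α N + S.card ≤ N := by
    unfold occ
    rw [← card_union_of_disjoint]
    · refine (card_le_card (union_subset (filter_subset _ _) (filter_subset _ _))).trans ?_
      rw [Nat.card_Icc]; omega
    · rw [disjoint_left]
      intro i hi1 hi2
      obtain ⟨_, h3⟩ := mem_filter.mp hi1
      obtain ⟨_, k, h4⟩ := mem_filter.mp hi2
      exact h4 (h3 k t0)
  omega

/-- from columns to matrices -/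
lemma occ_of_col (D : Fin n → Fin m → ℤ) (t0 : Fin m) {p : ℕ} (hp : 1 ≤ p)
    (h : ∃ c : ℝ, 0 < c ∧ ∀ᶠ N : ℕ in atTop,
      c * N ≤ (colcnt b (fun k => D k t0) α N : ℝ) ^ p) :
    ∃ c : ℝ, 0 < c ∧ ∀ᶠ N : ℕ in atTop, c * N ≤ ((N : ℝ) - occ b D α N) ^ p := by
  obtain ⟨c, hc, h⟩ := h
  refine ⟨c / 2 ^ p, by positivity, ?_⟩
  have hN := (tendsto_natCast_atTop_atTop (R := ℝ)).eventually_gt_atTop
    ((2 * (t0 : ℝ)) ^ p / c)
  filter_upwards [h, hN] with N h1 h2
  rw [div_lt_iff₀ hc] at h2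
  set Z : ℝ := (colcnt b (fun k => D k t0) α N : ℝ) with hZ
  have hZ0 : 0 ≤ Z := Nat.cast_nonneg _
  have h3 : Z + (occ b D α N : ℝ) ≤ N + (t0 : ℝ) := by
    rw [hZ]
    exact_mod_cast col_le_occ (b := b) (α := α) D t0 N
  have h4 : 2 * (t0 : ℝ) ≤ Z := by
    by_contra hcon
    push Not at hcon
    have h5 : Z ^ p ≤ (2 * (t0 : ℝ)) ^ p := pow_le_pow_left₀ hZ0 hcon.le p
    linarith
  have h5 : Z / 2 ≤ (N : ℝ) - occ b D α N := by linarith
  have h6 : (Z / 2) ^ p ≤ ((N : ℝ) - occ b D α N) ^ p := pow_le_pow_left₀ (by linarith) h5 p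
  rw [div_mul_eq_mul_div, div_le_iff₀ (by positivity)]
  have h7 : (Z / 2) ^ p * 2 ^ p = Z ^ p := by
    rw [← mul_pow]; congr 1; ring
  have h8 := mul_le_mul_of_nonneg_right h6 (by positivity : (0 : ℝ) ≤ 2 ^ p)
  rw [h7] at h8
  linarith

end

end Pool.Agent.H726R3.Tup
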